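import Pool.Agent.H99.CS.Small

/-!
# Invariance under all translations, and the symmetrization of a name
-/

set_option autoImplicit false

namespace Pool.Agent.H99.CS

open Pool.Agent.W868 Pool.Agent.W868.PName Pool.Agent.R598.SY Pool.Agent.R598.CI
open ZFSet (pair)

theorem norm_coe_le (y : ℝ) : ‖(y : T)‖ ≤ |y| := by
  rw [UnitAddCircle.norm_eq]
  have := round_le y 0
  simpa using this

theorem exists_half (θ : T) {ρ : ℝ} (h : ‖θ‖ < 2 * ρ) : ∃ r : T, ‖r‖ < ρ ∧ ‖θ - r‖ < ρ := by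
  obtain ⟨a, rfl⟩ := QuotientAddGroup.mk_surjective θ
  let d : ℝ := a - round a
  have h1 : ‖(a : T)‖ = |d| := UnitAddCircle.norm_eq
  have h2 : ((d : ℝ) : T) = (a : T) := by
    change ((a - round a : ℝ) : T) = (a : T)
    rw [AddCircle.coe_sub]
    have h3 : ((round a : ℝ) : T) = 0 := by
      rw [AddCircle.coe_eq_zero_iff]
      exact ⟨round a, by simp⟩
    rw [h3, sub_zero]
  have h3 : ‖((d / 2 : ℝ) : T)‖ < ρ := by
    refine (norm_coe_le _).trans_lt ?_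
    rw [abs_div, abs_two, ← h1]
    change ‖(a : T)‖ < 2 * ρ at h
    linarith
  refine ⟨((d / 2 : ℝ) : T), h3, ?_⟩
  change ‖(a : T) - ((d / 2 : ℝ) : T)‖ < ρ
  rw [← h2, ← AddCircle.coe_sub]
  have h4 : d - d / 2 = d / 2 := by ring
  rw [h4]
  exact h3

theorem norm_T_le (θ : T) : ‖θ‖ ≤ 1 := by
  have h := AddCircle.norm_le_half_period (p := (1 : ℝ)) (x := θ) one_ne_zero
  rw [abs_one] at h
  linarith

namespace Ctx

variable {c : Ctx} {b : PName Cnd} {z : X} {δ ρ : ℝ}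

/-- Invariance under the automorphisms with translation parts smaller than `ρ`. -/
def Inv (c : Ctx) (b : PName Cnd) (z : X) (δ ρ : ℝ) : Prop :=
  ∀ ψ ∈ Kf c.E, ∀ q : Cnd, (∀ x ∈ q.1, x ∈ Box z c.E' δ) → (∀ x ∈ q.1, ψ.1 x ∈ Box z c.E' δ) →
    (∀ x ∈ q.1, ∀ n ∈ c.Rd, ‖tr ψ n x‖ < ρ) → Iv b ψ q

open Classical in
/-- The data of the translation by constants. -/
noncomputable def cD (c : Ctx) (r : ℕ → T) : EpD where
  m := 0
  u _ _ := 0
  v n _ := if n ∈ c.Rd then r n else 0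
  cu _ := continuous_const
  cv _ := continuous_const
  du _ _ _ _ := rfl
  dv _ _ _ _ := rfl
  u0 _ _ _ := rfl
  u1 := ⟨0, fun _ _ _ => rfl⟩

theorem inv_double (hδ : 0 < δ) (h : c.Inv b z δ ρ) : c.Inv b z δ (2 * ρ) := by
  classical
  intro ψ hψ q0 h10 h20 h30
  refine Iv.dense fun q hq => ?_
  have h1 : ∀ x ∈ q.1, x ∈ Box z c.E' δ := fun x hx => h10 x (hq hx)
  have h2 : ∀ x ∈ q.1, ψ.1 x ∈ Box z c.E' δ := fun x hx => h20 x (hq hx)
  have h3 : ∀ x ∈ q.1, ∀ n ∈ c.Rd, ‖tr ψ n x‖ < 2 * ρ := fun x hx => h30 x (hq hx)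
  obtain ⟨x0, hx0⟩ := q.2.2
  obtain ⟨Sq, ε, hε, hSq⟩ := exists_box q.2.1 hx0
  have h4 : ∀ n, ∃ r : T, n ∈ c.Rd → ‖r‖ < ρ ∧ ‖tr ψ n x0 - r‖ < ρ := by
    intro n
    by_cases hn : n ∈ c.Rd
    · obtain ⟨r, hr⟩ := exists_half _ (h3 x0 hx0 n hn)
      exact ⟨r, fun _ => hr⟩
    · exact ⟨0, fun h => absurd h hn⟩
  choose r hr using h4
  let N : ℕ := c.E'.sup Prod.snd + Sq.sup Prod.snd + 1
  have hNE : ∀ i ∈ c.E', i.2 < N := fun i hi => by
    have : i.2 ≤ c.E'.sup Prod.snd := Finset.le_sup (f := Prod.snd) hi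
    omega
  have hNq : ∀ i ∈ Sq, i.2 < N := fun i hi => by
    have : i.2 ≤ Sq.sup Prod.snd := Finset.le_sup (f := Prod.snd) hi
    omega
  let A : Finset Ix := c.E'.filter fun i => ∃ n ∈ c.Rd, i.1 = some n
  have hAm : ∀ n j, (some n, j) ∈ A ↔ (some n, j) ∈ c.E' ∧ n ∈ c.Rd := by
    intro n j
    rw [Finset.mem_filter]
    constructor
    · rintro ⟨h5, m, hm, h6⟩
      obtain rfl := Option.some.inj h6
      exact ⟨h5, hm⟩
    · rintro ⟨h5, h6⟩
      exact ⟨h5, n, h6, rfl⟩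
  have hAn : ∀ j, (none, j) ∉ A := by
    intro j h5
    obtain ⟨-, m, -, h6⟩ := Finset.mem_filter.1 h5
    simp at h6
  have hA : ∀ i ∈ A, i.2 < N := fun i hi => hNE i (Finset.mem_filter.1 hi).1
  let D : EpD := c.cD r
  have hDu : ∀ j x, D.u j x = 0 := fun _ _ => rfl
  have hDv : ∀ n x, D.v n x = if n ∈ c.Rd then r n else 0 := fun _ _ => rfl
  let th : Gr := D.ep * pm A N hA
  have hthn : ∀ x j, th.1 x (none, j) = (pm A N hA).1 x (none, j) := by
    intro x j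
    change (pm A N hA).1 x (none, j) + 0 = _
    rw [add_zero]
  have hths : ∀ x n j, th.1 x (some n, j) = (pm A N hA).1 x (some n, j) +
      if n ∈ c.Rd then r n else 0 := fun _ _ _ => rfl
  have hth : th ∈ Kf c.E := by
    rintro x ⟨s, j⟩ hi
    have hj : j < N := hNE _ (c.hE hi)
    cases s with
    | none => rw [hthn, pm_lt hA x (hAn j) hj]
    | some n =>
      have hn : n ∉ c.Rd := fun h => (c.mem_Rd.1 h).2 (mem_Rw.2 ⟨j, hi⟩)
      rw [hths, if_neg hn, add_zero, pm_lt hA x (fun h => hn ((hAm n j).1 h).2) hj]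
  have hlarge : ∀ x n, ∀ j ≥ 2 * N, th.1 x (some n, j) = x (some n, j) +
      if n ∈ c.Rd then r n else 0 := by
    intro x n j hj
    rw [hths, pm_id hA x (fun h => by
      have := hA _ h
      simp only at this
      omega) fun i hi => by
      have := hA _ hi
      simp only at this
      omega]
  have htr : ∀ x n, n ∈ c.Rd → tr th n x = r n := by
    intro x n hn
    refine tr_eq (M := 2 * N) fun j hj => ?_
    rw [hlarge x n j hj, if_pos hn]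
  -- the new point
  let x1 : X := fun i => if N ≤ i.2 ∧ (i.1, i.2 - N) ∈ A then
    z (i.1, i.2 - N) - (i.1.map r).getD 0 else x0 i
  have hx1q : x1 ∈ q.1 := by
    apply hSq
    intro i hi
    have h5 := hNq i hi
    change ‖(if N ≤ i.2 ∧ (i.1, i.2 - N) ∈ A then
      z (i.1, i.2 - N) - (i.1.map r).getD 0 else x0 i) - x0 i‖ < ε
    rw [if_neg (by omega), sub_self, norm_zero]
    exact hε
  have hx1lt : ∀ s j, j < N → x1 (s, j) = x0 (s, j) := by
    intro s j hj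
    change (if N ≤ j ∧ (s, j - N) ∈ A then _ else x0 (s, j)) = _
    rw [if_neg (by omega)]
  have hx1th : th.1 x1 ∈ Box z c.E' δ := by
    rintro ⟨s, j⟩ hi
    have hj : j < N := hNE _ hi
    cases s with
    | none =>
      rw [hthn, pm_lt hA _ (hAn j) hj, hx1lt _ _ hj]
      exact h1 x0 hx0 _ hi
    | some n =>
      by_cases hn : n ∈ c.Rd
      · have h5 : (some n, j) ∈ A := (hAm n j).2 ⟨hi, hn⟩
        have h6 : x1 (some n, j + N) = z (some n, j) - r n := by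
          change (if N ≤ j + N ∧ (some n, j + N - N) ∈ A then
            z (some n, j + N - N) - ((some n).map r).getD 0 else x0 (some n, j + N)) = _
          rw [Nat.add_sub_cancel, if_pos ⟨by omega, h5⟩]
          rfl
        rw [hths, if_pos hn, pm_mem hA _ h5, h6, sub_add_cancel, sub_self, norm_zero]
        exact hδ
      · rw [hths, if_neg hn, add_zero, pm_lt hA _ (fun h => hn ((hAm n j).1 h).2) hj,
          hx1lt _ _ hj]
        exact h1 x0 hx0 _ hi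
  have hx1tr : ∀ n, tr ψ n x1 = tr ψ n x0 := by
    intro n
    obtain ⟨m, hm⟩ := tr_dep ψ n
    refine hm _ _ fun j _ => ?_
    change (if N ≤ j ∧ (none, j - N) ∈ A then _ else x0 (none, j)) = _
    rw [if_neg fun h => hAn _ h.2]
  -- the condition
  let q' : Cnd := ⟨q.1 ∩ (th.1 ⁻¹' (Box z c.E' δ) ∩ ⋂ n ∈ c.Rd, {x | ‖tr ψ n x - r n‖ < ρ}), by
    refine q.2.1.inter (((isOpen_box _ _ _).preimage th.1.continuous).inter ?_)
    refine isOpen_biInter_finset fun n _ => isOpen_lt ?_ continuous_const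
    have := tr_cont ψ n
    fun_prop, x1, hx1q, hx1th, by
      rw [Set.mem_iInter₂]
      intro n hn
      change ‖tr ψ n x1 - r n‖ < ρ
      rw [hx1tr]
      exact (hr n hn).2⟩
  have hq'1 : ∀ x ∈ q'.1, x ∈ q.1 := fun x hx => hx.1
  have hq'2 : ∀ x ∈ q'.1, th.1 x ∈ Box z c.E' δ := fun x hx => hx.2.1
  have hq'3 : ∀ x ∈ q'.1, ∀ n ∈ c.Rd, ‖tr ψ n x - r n‖ < ρ :=
    fun x hx n hn => Set.mem_iInter₂.1 hx.2.2 n hn
  refine ⟨q', hq'1, ?_⟩
  have i1 : Iv b th q' := h th hth q' (fun x hx => h1 x (hq'1 x hx)) hq'2 fun x _ n hn => by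
    rw [htr x n hn]
    exact (hr n hn).1
  have i2 : Iv b (ψ * th⁻¹) (acH th q') := by
    refine h _ (mul_mem hψ (inv_mem hth)) _ (fun x hx => ?_) (fun x hx => ?_) fun x hx n hn => ?_
    · have h5 := hq'2 _ (mem_ac.1 hx)
      rwa [g_inv] at h5
    · rw [mul_app]
      exact h2 _ (hq'1 _ (mem_ac.1 hx))
    · set y : X := (th⁻¹).1 x with hy
      have h5 : tr (ψ * th⁻¹) n x = tr ψ n y - r n := by
        obtain ⟨m, hm⟩ := tr_large ψ n
        refine tr_eq (M := max m (2 * N)) fun j hj => ?_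
        have h6 := hlarge y n j ((le_max_right _ _).trans hj)
        rw [hy, g_inv, if_pos hn] at h6
        rw [mul_app, ← hy, hm j ((le_max_left _ _).trans hj), h6, ← hy]
        abel
      rw [h5]
      exact hq'3 _ (mem_ac.1 hx) n hn
  have i3 := i1.comp i2 (le_refl q') fun x hx => by
    rw [mem_ac, inv_g]
    exact hx
  rwa [inv_mul_cancel_right] at i3

theorem inv_all (hδ : 0 < δ) (hρ : 0 < ρ) (h : c.Inv b z δ ρ) : ∀ ψ ∈ Kf c.E, ∀ q : Cnd,
    (∀ x ∈ q.1, x ∈ Box z c.E' δ) → (∀ x ∈ q.1, ψ.1 x ∈ Box z c.E' δ) → Iv b ψ q := by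
  have h1 : ∀ k : ℕ, c.Inv b z δ (2 ^ k * ρ) := by
    intro k
    induction k with
    | zero => rwa [pow_zero, one_mul]
    | succ k ih =>
      have h2 := inv_double hδ ih
      rwa [← mul_assoc, ← pow_succ'] at h2
  obtain ⟨k, hk⟩ := exists_nat_gt (1 / ρ)
  intro ψ hψ q h2 h3
  refine h1 k ψ hψ q h2 h3 fun x _ n _ => (norm_T_le _).trans_lt ?_
  have h4 : (k : ℝ) < 2 ^ k := by exact_mod_cast Nat.lt_two_pow_self
  rw [div_lt_iff₀ hρ] at hk
  nlinarith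

end Ctx

/-! ### The symmetrization of a name -/

/-- The symmetrization of the restriction of the name `b` to the condition `p`. -/
def symN (E : Finset Ix) (b : PName Cnd) (p : Cnd) : PName Cnd :=
  PName.mk {t : Kf E × b.idx × Cnd // t.2.2 ≤ acH t.1.1 p ∧ t.2.2 ≤ acH t.1.1 (b.cnd t.2.1)}
    (fun t => ag t.1.1.1 (b.chd t.1.2.1)) (fun t => t.1.2.2)

theorem el_symN {E : Finset Ix} {b : PName Cnd} {p : Cnd} {z : PName Cnd} {c : Cnd} :
    El (symN E b p) z c ↔ ∃ k ∈ Kf E, ∃ y d, El b y d ∧ z = ag k y ∧ c ≤ acH k p ∧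
      c ≤ acH k d := by
  rw [symN, el_mk]
  constructor
  · rintro ⟨⟨⟨k, i, q⟩, h1, h2⟩, rfl, rfl⟩
    exact ⟨k.1, k.2, _, _, ⟨i, rfl, rfl⟩, rfl, h1, h2⟩
  · rintro ⟨k, hk, _, _, ⟨i, rfl, rfl⟩, rfl, h1, h2⟩
    exact ⟨⟨⟨⟨k, hk⟩, i, c⟩, h1, h2⟩, rfl, rfl⟩

theorem acH_acH (g h : Gr) (U : Cnd) : acH g (acH h U) = acH (g * h) U := by
  rw [acH.map_mul]
  rfl

theorem acH_one (U : Cnd) : acH 1 U = U := by
  rw [acH.map_one]
  rfl

theorem acH_le {g : Gr} {U V : Cnd} : acH g U ≤ acH g V ↔ U ≤ V := (acH g).le_iff_le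

theorem fix_iff {E : Finset Ix} {x : PName Cnd} :
    sy.Fix (Kf E) x ↔ ∀ g : Gr, g ∈ Kf E → ∀ p, Feq (ag g x) x p := Iff.rfl

theorem fix_symN {E : Finset Ix} {b : PName Cnd} {p : Cnd} : sy.Fix (Kf E) (symN E b p) := by
  refine fix_iff.2 fun g hg q => ?_
  refine feq_of_el fun z c => ?_
  have e1 : El (ag g (symN E b p)) z c ↔
      ∃ z' c', El (symN E b p) z' c' ∧ z = ag g z' ∧ c = acH g c' := el_act
  rw [e1]
  constructor
  · rintro ⟨z, c, hz, rfl, rfl⟩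
    obtain ⟨k, hk, y, d, hy, rfl, h1, h2⟩ := el_symN.1 hz
    refine el_symN.2 ⟨g * k, mul_mem hg hk, y, d, hy, ag_ag _ _ _, ?_, ?_⟩
    · rw [← acH_acH]
      exact acH_le.2 h1
    · rw [← acH_acH]
      exact acH_le.2 h2
  · intro hz
    obtain ⟨k, hk, y, d, hy, rfl, h1, h2⟩ := el_symN.1 hz
    have h3 : acH g⁻¹ c ≤ acH (g⁻¹ * k) p ∧ acH g⁻¹ c ≤ acH (g⁻¹ * k) d := by
      rw [← acH_acH, ← acH_acH]
      exact ⟨acH_le.2 h1, acH_le.2 h2⟩
    refine ⟨ag (g⁻¹ * k) y, acH g⁻¹ c, el_symN.2 ⟨g⁻¹ * k, mul_mem (inv_mem hg) hk, y, d, hy, rfl,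
      h3⟩, ?_, ?_⟩
    · rw [ag_ag, mul_inv_cancel_left]
    · rw [acH_acH, mul_inv_cancel, acH_one]

theorem hs_ag {x : PName Cnd} (h : sy.HS x) (g : Gr) : sy.HS (ag g x) := sy.hs_act h g

theorem hs_symN {E : Finset Ix} {b : PName Cnd} {p : Cnd} (hb : sy.HS b) :
    sy.HS (symN E b p) := by
  refine sy.hs_iff.2 ⟨⟨Kf E, ⟨E, rfl⟩, fix_symN⟩, fun z c hz => ?_⟩
  obtain ⟨k, -, y, d, hy, rfl, -, -⟩ := el_symN.1 hz
  exact hs_ag (hb.el hy) k

theorem feq_symN {E : Finset Ix} {b : PName Cnd} {p : Cnd}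
    (h : ∀ ψ ∈ Kf E, ∀ q : Cnd, q ≤ p → (∀ x ∈ q.1, ψ.1 x ∈ p.1) → Iv b ψ q) :
    Feq b (symN E b p) p := by
  rw [feq_iff']
  constructor
  · intro z c hz q hq hqc
    refine ⟨q, le_rfl, z, q, el_symN.2 ⟨1, one_mem _, z, c, hz, (ag_one z).symm, ?_, ?_⟩, le_rfl,
      Feq.refl _ _⟩
    · rwa [acH_one]
    · rwa [acH_one]
  · intro w d hw q hq hqd
    obtain ⟨k, hk, y, c, hy, rfl, h1, h2⟩ := el_symN.1 hw
    have h3 : Iv b k⁻¹ q := h k⁻¹ (inv_mem hk) q hq fun x hx => mem_ac.1 (h1 (hqd hx))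
    have h4 : Feq (ag k b) b q := by
      have h5 : Feq (ag k⁻¹⁻¹ b) b q := h3
      rwa [inv_inv] at h5
    obtain ⟨s, hs, w, d, hw, hd, h5⟩ := (feq_iff'.1 h4).1 (ag k y) (acH k c)
      (el_act.2 ⟨y, c, hy, rfl, rfl⟩) q le_rfl (hqd.trans h2)
    exact ⟨s, hs, w, d, hw, hd, h5.symm⟩

end Pool.Agent.H99.CS
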