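import Pool.Agent.H99.CS.Grp
import Pool.Graph.R_seed8.R598.CI.Nms

/-!
# Codes for the points of the circle
-/

set_option autoImplicit false

namespace Pool.Agent.H99.CS

open Pool.Agent.W868 Pool.Agent.R598.TY
open Pool.Agent.R598.CI (arc isOpen_arc exists_arc)
open ZFSet (pair)

/-! ### Relations between natural numbers -/

/-- The set of the triples that satisfy `R`. -/
noncomputable def r3 (R : ℕ → ℕ → ℕ → Prop) : ZFSet.{0} :=
  ZFSet.sep (fun w => ∃ a b c, R a b c ∧ w = pair (pair (nat a) (nat b)) (nat c))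
    (ZFSet.prod (ZFSet.prod ZFSet.omega ZFSet.omega) ZFSet.omega)

/-- The set of the pairs that satisfy `R`. -/
noncomputable def r2 (R : ℕ → ℕ → Prop) : ZFSet.{0} :=
  ZFSet.sep (fun w => ∃ a b, R a b ∧ w = pair (nat a) (nat b))
    (ZFSet.prod ZFSet.omega ZFSet.omega)

theorem mem_r3 {R : ℕ → ℕ → ℕ → Prop} {a b c : ℕ} :
    pair (pair (nat a) (nat b)) (nat c) ∈ r3 R ↔ R a b c := by
  rw [r3, ZFSet.mem_sep]
  constructor
  · rintro ⟨-, a', b', c', h, h1⟩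
    obtain ⟨h2, h3⟩ := ZFSet.pair_inj.1 h1
    obtain ⟨h4, h5⟩ := ZFSet.pair_inj.1 h2
    rwa [nat_injective h4, nat_injective h5, nat_injective h3]
  · exact fun h => ⟨ZFSet.pair_mem_prod.2 ⟨ZFSet.pair_mem_prod.2 ⟨nat_om _, nat_om _⟩, nat_om _⟩,
      a, b, c, h, rfl⟩

theorem mem_r2 {R : ℕ → ℕ → Prop} {a b : ℕ} : pair (nat a) (nat b) ∈ r2 R ↔ R a b := by
  rw [r2, ZFSet.mem_sep]
  constructor
  · rintro ⟨-, a', b', h, h1⟩
    obtain ⟨h4, h5⟩ := ZFSet.pair_inj.1 h1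
    rwa [nat_injective h4, nat_injective h5]
  · exact fun h => ⟨ZFSet.pair_mem_prod.2 ⟨nat_om _, nat_om _⟩, a, b, h, rfl⟩

section hat

variable {P : Type} [Preorder P] [OrderTop P] (π : Pkg P)

theorem hat_r3 (R : ℕ → ℕ → ℕ → Prop) : π.hat (r3 R) = r3 R := by
  have hm : ∀ a b c : ℕ, pair (pair (nat a) (nat b)) (nat c) ∈ π.Z := fun a b c =>
    π.pair_mem_Z (π.pair_mem_Z (π.nat_Z _) (π.nat_Z _)) (π.nat_Z _)
  have hh : ∀ a b c : ℕ, π.hat (pair (pair (nat a) (nat b)) (nat c)) =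
      pair (pair (nat a) (nat b)) (nat c) := fun a b c => by
    rw [π.hat_pair (π.pair_mem_Z (π.nat_Z _) (π.nat_Z _)) (π.nat_Z _),
      π.hat_pair (π.nat_Z _) (π.nat_Z _), π.hat_nat, π.hat_nat, π.hat_nat]
  ext z
  rw [π.mem_hat]
  constructor
  · rintro ⟨y, hy, hyZ, rfl⟩
    obtain ⟨-, a, b, c, h, rfl⟩ := ZFSet.mem_sep.1 hy
    rw [hh]
    exact mem_r3.2 h
  · intro hz
    obtain ⟨-, a, b, c, h, rfl⟩ := ZFSet.mem_sep.1 hz
    exact ⟨_, hz, hm a b c, hh a b c⟩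

theorem hat_r2 (R : ℕ → ℕ → Prop) : π.hat (r2 R) = r2 R := by
  have hh : ∀ a b : ℕ, π.hat (pair (nat a) (nat b)) = pair (nat a) (nat b) := fun a b => by
    rw [π.hat_pair (π.nat_Z _) (π.nat_Z _), π.hat_nat, π.hat_nat]
  ext z
  rw [π.mem_hat]
  constructor
  · rintro ⟨y, hy, hyZ, rfl⟩
    obtain ⟨-, a, b, h, rfl⟩ := ZFSet.mem_sep.1 hy
    rw [hh]
    exact mem_r2.2 h
  · intro hz
    obtain ⟨-, a, b, h, rfl⟩ := ZFSet.mem_sep.1 hz
    exact ⟨_, hz, π.pair_mem_Z (π.nat_Z _) (π.nat_Z _), hh a b⟩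

end hat

/-! ### Codes -/

/-- The code of a point of the circle: the set of the arcs that contain the point. -/
noncomputable def cd (θ : T) : ZFSet.{0} :=
  ZFSet.sep (fun z => ∃ m, θ ∈ arc m ∧ z = nat m) ZFSet.omega

theorem cd_sub (θ : T) : cd θ ⊆ ZFSet.omega := ZFSet.sep_subset

theorem mem_cd {θ : T} {m : ℕ} : nat m ∈ cd θ ↔ θ ∈ arc m := by
  rw [cd, ZFSet.mem_sep]
  constructor
  · rintro ⟨-, m', h, h1⟩
    rwa [nat_injective h1]
  · exact fun h => ⟨nat_om m, m, h, rfl⟩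

theorem cd_inj {θ θ' : T} (h : cd θ = cd θ') : θ = θ' := by
  by_contra hne
  have h1 : 0 < ‖θ' - θ‖ := norm_pos_iff.2 (sub_ne_zero.2 (Ne.symm hne))
  obtain ⟨m, hm, hm'⟩ := exists_arc (θ := θ) h1
  have h2 : θ' ∈ arc m := mem_cd.1 (h ▸ mem_cd.2 hm)
  exact lt_irrefl _ (hm' _ h2)

/-- The relation for subtraction. -/
def Qr (a b c : ℕ) : Prop := ∀ s ∈ arc a, ∀ t ∈ arc b, s - t ∈ arc c

/-- The relation of meeting. -/
def Ir (a b : ℕ) : Prop := (arc a ∩ arc b).Nonempty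

/-- The relation of smallness. -/
def Sr (k m : ℕ) : Prop := ∀ s ∈ arc m, ∀ t ∈ arc m, ‖s - t‖ < (1 / 2) ^ k

/-- The relation of strong inclusion. -/
def Clr (m' m : ℕ) : Prop := closure (arc m') ⊆ arc m

/-- The relation for the norm. -/
def Nr (n m q : ℕ) : Prop :=
  ∃ q' : ℚ, q = Encodable.encode q' ∧ ∀ s ∈ arc m, (q' : ℝ) < (1 / 2) ^ n * ‖s‖

/-- The relation for powers. -/
def Pr (n q : ℕ) : Prop := ∃ q' : ℚ, q = Encodable.encode q' ∧ (q' : ℝ) < (1 / 2) ^ n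

/-- The relation between real numbers and points of the circle. -/
def Er (q q' m : ℕ) : Prop := ∃ a b : ℚ, q = Encodable.encode a ∧ q' = Encodable.encode b ∧
  ∀ s : ℝ, (a : ℝ) < s → s ≤ b → (s : T) ∈ arc m

theorem exists_ball {θ : T} {m : ℕ} (h : θ ∈ arc m) : ∃ ε : ℝ, 0 < ε ∧ ∀ s : T, ‖s - θ‖ < ε →
    s ∈ arc m := by
  obtain ⟨ε, hε, h1⟩ := Metric.isOpen_iff.1 (isOpen_arc m) θ h
  exact ⟨ε, hε, fun s hs => h1 (by rwa [Metric.mem_ball, dist_eq_norm])⟩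

theorem mem_cd_sub {α θ : T} {m : ℕ} : α - θ ∈ arc m ↔ ∃ m1 m2, α ∈ arc m1 ∧ θ ∈ arc m2 ∧
    Qr m1 m2 m := by
  constructor
  · intro h
    obtain ⟨ε, hε, h1⟩ := exists_ball h
    obtain ⟨m1, h2, h3⟩ := exists_arc (θ := α) (show 0 < ε / 2 by positivity)
    obtain ⟨m2, h4, h5⟩ := exists_arc (θ := θ) (show 0 < ε / 2 by positivity)
    refine ⟨m1, m2, h2, h4, fun s hs t ht => h1 _ ?_⟩
    have h6 : s - t - (α - θ) = (s - α) - (t - θ) := by abel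
    rw [h6]
    have h7 := norm_sub_le (s - α) (t - θ)
    have h8 := h3 s hs
    have h9 := h5 t ht
    linarith
  · rintro ⟨m1, m2, h1, h2, h3⟩
    exact h3 _ h1 _ h2

/-- The set `b` is the code of the difference. -/
def Sb (b a t : ZFSet.{0}) : Prop :=
  ∀ m ∈ (ZFSet.omega : ZFSet.{0}), (m ∈ b ↔ ∃ m1 ∈ a, ∃ m2 ∈ t, pair (pair m1 m2) m ∈ r3 Qr)

theorem Sb_iff {b : ZFSet.{0}} (hb : b ⊆ ZFSet.omega) {α θ : T} :
    Sb b (cd α) (cd θ) ↔ b = cd (α - θ) := by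
  have key : ∀ m : ℕ, (∃ m1 ∈ cd α, ∃ m2 ∈ cd θ, pair (pair m1 m2) (nat m) ∈ r3 Qr) ↔
      α - θ ∈ arc m := by
    intro m
    rw [mem_cd_sub]
    constructor
    · rintro ⟨m1, h1, m2, h2, h3⟩
      obtain ⟨m1, rfl⟩ := mem_omega_iff.1 (cd_sub _ h1)
      obtain ⟨m2, rfl⟩ := mem_omega_iff.1 (cd_sub _ h2)
      exact ⟨m1, m2, mem_cd.1 h1, mem_cd.1 h2, mem_r3.1 h3⟩
    · rintro ⟨m1, m2, h1, h2, h3⟩
      exact ⟨_, mem_cd.2 h1, _, mem_cd.2 h2, mem_r3.2 h3⟩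
  constructor
  · intro h
    ext z
    constructor
    · intro hz
      obtain ⟨m, rfl⟩ := mem_omega_iff.1 (hb hz)
      exact mem_cd.2 ((key m).1 ((h _ (nat_om m)).1 hz))
    · intro hz
      obtain ⟨m, rfl⟩ := mem_omega_iff.1 (cd_sub _ hz)
      exact (h _ (nat_om m)).2 ((key m).2 (mem_cd.1 hz))
  · rintro rfl m hm
    obtain ⟨m, rfl⟩ := mem_omega_iff.1 hm
    rw [key, mem_cd]

/-- The set is a code. -/
def Cc (t : ZFSet.{0}) : Prop :=
  (∀ m1 ∈ t, ∀ m2 ∈ t, pair m1 m2 ∈ r2 Ir) ∧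
  (∀ k ∈ (ZFSet.omega : ZFSet.{0}), ∃ m ∈ t, pair k m ∈ r2 Sr) ∧
  ∀ m ∈ (ZFSet.omega : ZFSet.{0}), (m ∈ t ↔ ∃ m' ∈ t, pair m' m ∈ r2 Clr)

theorem Cc_iff {t : ZFSet.{0}} (ht : t ⊆ ZFSet.omega) : Cc t ↔ ∃ θ : T, t = cd θ := by
  constructor
  · rintro ⟨h1, h2, h3⟩
    have h2' : ∀ k : ℕ, ∃ m : ℕ, nat m ∈ t ∧ Sr k m := by
      intro k
      obtain ⟨m, hm, hm'⟩ := h2 _ (nat_om k)
      obtain ⟨m, rfl⟩ := mem_omega_iff.1 (ht hm)
      exact ⟨m, hm, mem_r2.1 hm'⟩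
    choose m hm hS using h2'
    have hI : ∀ a b : ℕ, nat a ∈ t → nat b ∈ t → Ir a b := fun a b ha hb =>
      mem_r2.1 (h1 _ ha _ hb)
    have h4 : ∀ k, (arc (m k)).Nonempty := fun k => (hI _ _ (hm k) (hm k)).mono
      Set.inter_subset_left
    choose x hx using h4
    have h5 : ∀ k, dist (x k) (x (k + 1)) ≤ 2 * (1 / 2) ^ k := by
      intro k
      obtain ⟨a, ha, ha'⟩ := hI _ _ (hm k) (hm (k + 1))
      have h6 := hS k _ (hx k) _ ha
      have h7 := hS (k + 1) _ ha' _ (hx (k + 1))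
      have h8 : x k - x (k + 1) = (x k - a) + (a - x (k + 1)) := by abel
      rw [dist_eq_norm, h8]
      have h9 := norm_add_le (x k - a) (a - x (k + 1))
      have h10 : (1 / 2 : ℝ) ^ (k + 1) ≤ (1 / 2) ^ k :=
        pow_le_pow_of_le_one (by norm_num) (by norm_num) (Nat.le_succ k)
      linarith
    obtain ⟨θ, hθ⟩ := cauchySeq_tendsto_of_complete
      (cauchySeq_of_le_geometric (1 / 2) 2 (by norm_num) h5)
    have h6 : ∀ k, ‖x k - θ‖ ≤ 4 * (1 / 2) ^ k := by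
      intro k
      have h7 := dist_le_of_le_geometric_of_tendsto (1 / 2) 2 (by norm_num) h5 hθ k
      rw [dist_eq_norm] at h7
      refine h7.trans (le_of_eq ?_)
      norm_num
      ring
    have h7 : ∀ ε : ℝ, 0 < ε → ∃ k : ℕ, 6 * (1 / 2 : ℝ) ^ k < ε := by
      intro ε hε
      obtain ⟨k, hk⟩ := exists_pow_lt_of_lt_one (show 0 < ε / 6 by positivity)
        (show (1 / 2 : ℝ) < 1 by norm_num)
      exact ⟨k, by linarith⟩
    have h8 : ∀ a : ℕ, nat a ∈ t → θ ∈ closure (arc a) := by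
      intro a ha
      rw [Metric.mem_closure_iff]
      intro ε hε
      obtain ⟨k, hk⟩ := h7 ε hε
      obtain ⟨b, hb, hb'⟩ := hI _ _ ha (hm k)
      refine ⟨b, hb, ?_⟩
      have h9 := hS k _ hb' _ (hx k)
      have h10 : b - θ = (b - x k) + (x k - θ) := by abel
      rw [dist_comm, dist_eq_norm, h10]
      have h11 := norm_add_le (b - x k) (x k - θ)
      have h12 := h6 k
      have h13 : (0 : ℝ) < (1 / 2) ^ k := by positivity
      linarith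
    refine ⟨θ, ?_⟩
    have key : ∀ a : ℕ, nat a ∈ t ↔ θ ∈ arc a := by
      intro a
      constructor
      · intro ha
        obtain ⟨m', hm', h9⟩ := (h3 _ (nat_om a)).1 ha
        obtain ⟨m', rfl⟩ := mem_omega_iff.1 (ht hm')
        exact (mem_r2.1 h9 : Clr _ _) (h8 _ hm')
      · intro ha
        obtain ⟨ε, hε, h9⟩ := exists_ball ha
        obtain ⟨k, hk⟩ := h7 ε hε
        refine (h3 _ (nat_om a)).2 ⟨_, hm k, mem_r2.2 ?_⟩
        intro s hs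
        apply h9
        have h10 : ‖s - x k‖ ≤ (1 / 2) ^ k := by
          have h11 : closure (arc (m k)) ⊆ {s | ‖s - x k‖ ≤ (1 / 2) ^ k} := by
            refine closure_minimal (fun s hs => (hS k _ hs _ (hx k)).le) ?_
            exact isClosed_le (by fun_prop) continuous_const
          exact h11 hs
        have h11 : s - θ = (s - x k) + (x k - θ) := by abel
        rw [h11]
        have h12 := norm_add_le (s - x k) (x k - θ)
        have h13 := h6 k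
        have h14 : (0 : ℝ) < (1 / 2) ^ k := by positivity
        linarith
    ext z
    constructor
    · intro hz
      obtain ⟨a, rfl⟩ := mem_omega_iff.1 (ht hz)
      exact mem_cd.2 ((key a).1 hz)
    · intro hz
      obtain ⟨a, rfl⟩ := mem_omega_iff.1 (cd_sub _ hz)
      exact (key a).2 (mem_cd.1 hz)
  · rintro ⟨θ, rfl⟩
    refine ⟨fun m1 h1 m2 h2 => ?_, fun k hk => ?_, fun m hm => ?_⟩
    · obtain ⟨m1, rfl⟩ := mem_omega_iff.1 (ht h1)
      obtain ⟨m2, rfl⟩ := mem_omega_iff.1 (ht h2)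
      exact mem_r2.2 ⟨θ, mem_cd.1 h1, mem_cd.1 h2⟩
    · obtain ⟨k, rfl⟩ := mem_omega_iff.1 hk
      obtain ⟨m, h1, h2⟩ := exists_arc (θ := θ) (show (0 : ℝ) < (1 / 2) ^ k / 2 by positivity)
      refine ⟨_, mem_cd.2 h1, mem_r2.2 fun s hs t ht => ?_⟩
      have h3 : s - t = (s - θ) - (t - θ) := by abel
      rw [h3]
      have h4 := norm_sub_le (s - θ) (t - θ)
      have h5 := h2 s hs
      have h6 := h2 t ht
      linarith
    · obtain ⟨m, rfl⟩ := mem_omega_iff.1 hm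
      rw [mem_cd]
      constructor
      · intro h
        obtain ⟨ε, hε, h1⟩ := exists_ball h
        obtain ⟨m', h2, h3⟩ := exists_arc (θ := θ) (show 0 < ε / 2 by positivity)
        refine ⟨_, mem_cd.2 h2, mem_r2.2 fun s hs => h1 _ ?_⟩
        have h4 : closure (arc m') ⊆ {s | ‖s - θ‖ ≤ ε / 2} := by
          refine closure_minimal (fun s hs => (h3 _ hs).le) ?_
          exact isClosed_le (by fun_prop) continuous_const
        have h5 : ‖s - θ‖ ≤ ε / 2 := h4 hs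
        linarith
      · rintro ⟨m', h1, h2⟩
        obtain ⟨m', rfl⟩ := mem_omega_iff.1 (ht h1)
        exact (mem_r2.1 h2 : Clr _ _) (subset_closure (mem_cd.1 h1))

/-! ### Norms and real numbers -/

theorem lt_norm_iff {n q : ℕ} {θ : T} : (∃ m ∈ cd θ, pair (pair (nat n) m) (nat q) ∈ r3 Nr) ↔
    nat q ∈ real ((1 / 2) ^ n * ‖θ‖) := by
  rw [mem_real]
  constructor
  · rintro ⟨m, hm, h1⟩
    obtain ⟨m, rfl⟩ := mem_omega_iff.1 (cd_sub _ hm)
    obtain ⟨q', rfl, h2⟩ := mem_r3.1 h1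
    exact ⟨q', h2 θ (mem_cd.1 hm), rfl⟩
  · rintro ⟨q', h1, h2⟩
    obtain rfl := nat_injective h2
    have h3 : IsOpen {s : T | (q' : ℝ) < (1 / 2) ^ n * ‖s‖} :=
      isOpen_lt continuous_const (by fun_prop)
    obtain ⟨ε, hε, h4⟩ := Metric.isOpen_iff.1 h3 θ h1
    obtain ⟨m, h5, h6⟩ := exists_arc (θ := θ) hε
    refine ⟨_, mem_cd.2 h5, mem_r3.2 ⟨q', rfl, fun s hs => h4 ?_⟩⟩
    rw [Metric.mem_ball, dist_eq_norm]
    exact h6 s hs

theorem mem_pow {n q : ℕ} : pair (nat n) (nat q) ∈ r2 Pr ↔ nat q ∈ real ((1 / 2) ^ n) := by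
  rw [mem_r2, mem_real]
  constructor
  · rintro ⟨q', rfl, h⟩
    exact ⟨q', h, rfl⟩
  · rintro ⟨q', h, h2⟩
    exact ⟨q', nat_injective h2, h⟩

theorem lt_pow_iff {n : ℕ} {ρ : ℝ} : (∃ q ∈ (ZFSet.omega : ZFSet.{0}), q ∉ real ρ ∧
    pair (nat n) q ∈ r2 Pr) ↔ ρ < (1 / 2) ^ n := by
  rw [lt_iff]
  constructor
  · rintro ⟨q, hq, h1, h2⟩
    obtain ⟨q, rfl⟩ := mem_omega_iff.1 hq
    exact ⟨_, mem_pow.1 h2, h1⟩
  · rintro ⟨q, h1, h2⟩
    obtain ⟨q', h3, rfl⟩ := mem_real.1 h1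
    exact ⟨_, nat_om _, h2, mem_pow.2 h1⟩

/-- The code of the point of the circle given by a real number. -/
theorem cd_real {r : ℝ} : cd (r : T) = ZFSet.sep (fun m => ∃ q ∈ real r, ∃ q' ∈ (ZFSet.omega : ZFSet.{0}),
    q' ∉ real r ∧ pair (pair q q') m ∈ r3 Er) ZFSet.omega := by
  ext z
  rw [ZFSet.mem_sep]
  constructor
  · intro hz
    have hz' := cd_sub _ hz
    obtain ⟨m, rfl⟩ := mem_omega_iff.1 hz'
    refine ⟨hz', ?_⟩
    have h1 : IsOpen ((fun s : ℝ => (s : T)) ⁻¹' arc m) :=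
      (isOpen_arc m).preimage (AddCircle.continuous_mk' 1)
    obtain ⟨ε, hε, h2⟩ := Metric.isOpen_iff.1 h1 r (mem_cd.1 hz)
    obtain ⟨a, h3, h4⟩ := exists_rat_btwn (show r - ε < r by linarith)
    obtain ⟨b, h5, h6⟩ := exists_rat_btwn (show r < r + ε by linarith)
    refine ⟨_, enc_mem_real.2 h4, _, nat_om (Encodable.encode b), fun h => ?_,
      mem_r3.2 ⟨a, b, rfl, rfl, fun s h7 h8 => h2 ?_⟩⟩
    · have := enc_mem_real.1 h
      linarith
    · rw [Metric.mem_ball, Real.dist_eq, abs_lt]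
      constructor <;> linarith
  · rintro ⟨hz, q, hq, q', hq', h1, h2⟩
    obtain ⟨m, rfl⟩ := mem_omega_iff.1 hz
    obtain ⟨q, rfl⟩ := mem_omega_iff.1 (real_sub _ hq)
    obtain ⟨q', rfl⟩ := mem_omega_iff.1 hq'
    obtain ⟨a, b, rfl, rfl, h3⟩ := mem_r3.1 h2
    refine mem_cd.2 (h3 r (enc_mem_real.1 hq) ?_)
    by_contra h4
    push Not at h4
    exact h1 (enc_mem_real.2 h4)

end Pool.Agent.H99.CS
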