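import Pool.Agent.H99.CS.Grp
import Pool.Graph.R_seed8.R598.CI.For

/-!
# The symmetric system
-/

set_option autoImplicit false

namespace Pool.Agent.H99.CS

open Pool.Agent.W868 Pool.Agent.W868.PName Pool.Agent.R598.SY Pool.Agent.R598.CI
open ZFSet (pair)

/-! ### The conditions -/

/-- The conditions: the nonempty open sets. -/
abbrev Cnd : Type := {U : Set X // IsOpen U ∧ U.Nonempty}

instance : OrderTop Cnd where
  top := ⟨Set.univ, isOpen_univ, ⟨0, trivial⟩⟩
  le_top U := Set.subset_univ U.1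

theorem le_iff {U V : Cnd} : U ≤ V ↔ ∀ x ∈ U.1, x ∈ V.1 := Iff.rfl

/-- The action of the group on the conditions. -/
def img (g : Gr) : Cnd ≃o Cnd where
  toFun U := ⟨{x | (g⁻¹).1 x ∈ U.1}, U.2.1.preimage (g⁻¹).1.continuous, by
    obtain ⟨x, hx⟩ := U.2.2
    refine ⟨g.1 x, ?_⟩
    change (g⁻¹).1 (g.1 x) ∈ U.1
    rwa [inv_g]⟩
  invFun U := ⟨{x | g.1 x ∈ U.1}, U.2.1.preimage g.1.continuous, by
    obtain ⟨x, hx⟩ := U.2.2
    refine ⟨(g⁻¹).1 x, ?_⟩
    change g.1 ((g⁻¹).1 x) ∈ U.1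
    rwa [g_inv]⟩
  left_inv U := by
    apply Subtype.ext
    ext x
    change (g⁻¹).1 (g.1 x) ∈ U.1 ↔ x ∈ U.1
    rw [inv_g]
  right_inv U := by
    apply Subtype.ext
    ext x
    change g.1 ((g⁻¹).1 x) ∈ U.1 ↔ x ∈ U.1
    rw [g_inv]
  map_rel_iff' := by
    intro U V
    constructor
    · intro h x hx
      have h1 : g.1 x ∈ {x | (g⁻¹).1 x ∈ V.1} := h (show (g⁻¹).1 (g.1 x) ∈ U.1 by rwa [inv_g])
      change (g⁻¹).1 (g.1 x) ∈ V.1 at h1
      rwa [inv_g] at h1
    · intro h x hx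
      exact h hx

theorem mem_img {g : Gr} {U : Cnd} {x : X} : x ∈ (img g U).1 ↔ (g⁻¹).1 x ∈ U.1 := Iff.rfl

/-- The action as a homomorphism. -/
def acH : Gr →* (Cnd ≃o Cnd) where
  toFun := img
  map_one' := by
    ext U x
    rw [mem_img, inv_one]
    rfl
  map_mul' g h := by
    ext U x
    rw [mem_img, mul_inv_rev]
    rfl

/-- The symmetric system. -/
def sy : Sys Cnd where
  G := Gr
  grp := inferInstance
  ac := acH
  top g := by
    apply Subtype.ext
    ext x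
    exact ⟨fun _ => trivial, fun _ => trivial⟩
  F := Set.range Kf
  ne := ⟨_, ∅, rfl⟩
  conj := by
    rintro _ ⟨E, rfl⟩ g
    obtain ⟨E', h⟩ := Kf_conj E g
    exact ⟨_, ⟨E', rfl⟩, h⟩
  dir := by
    classical
    rintro _ ⟨E, rfl⟩ _ ⟨E', rfl⟩
    exact ⟨_, ⟨E ∪ E', rfl⟩, Kf_mono Finset.subset_union_left, Kf_mono Finset.subset_union_right⟩

theorem mem_ac {g : Gr} {U : Cnd} {x : X} : x ∈ (acH g U).1 ↔ (g⁻¹).1 x ∈ U.1 := Iff.rfl

theorem mem_ac_inv {g : Gr} {U : Cnd} {x : X} : x ∈ (acH g⁻¹ U).1 ↔ g.1 x ∈ U.1 := by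
  rw [mem_ac, inv_inv]

/-- The action on the names. -/
def ag (g : Gr) (b : PName Cnd) : PName Cnd := act (acH g) b

theorem ag_eq (g : Gr) (b : PName Cnd) : ag g b = act (sy.ac g) b := rfl

/-! ### Invariance -/

/-- On `U` the value of `b` at `g x` is the value at `x`. -/
def Iv (b : PName Cnd) (g : Gr) (U : Cnd) : Prop := Feq (ag g⁻¹ b) b U

variable {b : PName Cnd} {g h : Gr} {U V W : Cnd}

theorem Iv.mono (h1 : Iv b g U) (h2 : V ≤ U) : Iv b g V := Feq.mono h1 h2

theorem Iv.dense (h1 : ∀ q ≤ U, ∃ s ≤ q, Iv b g s) : Iv b g U := feq_dense h1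

theorem ag_ag (g h : Gr) (b : PName Cnd) : ag g (ag h b) = ag (g * h) b := by
  rw [ag, ag, ag, ← act_mul, acH.map_mul]

theorem ag_one (b : PName Cnd) : ag 1 b = b := by
  rw [ag, acH.map_one, act_one]

theorem feq_ag {x y : PName Cnd} {p : Cnd} (g : Gr) (h : Feq x y p) :
    Feq (ag g x) (ag g y) (acH g p) := feq_act' h

theorem Iv.comp (h1 : Iv b g U) (h2 : Iv b h V) (hU : W ≤ U) (hV : ∀ x ∈ W.1, g.1 x ∈ V.1) :
    Iv b (h * g) W := by
  have h3 := feq_ag g⁻¹ h2
  rw [ag_ag, ← mul_inv_rev] at h3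
  refine feq_trans (h3.mono ?_) (Feq.mono h1 hU)
  intro x hx
  exact mem_ac_inv.2 (hV x hx)

theorem iv_of_fix {E : Finset Ix} (hb : sy.Fix (Kf E) b) (hg : g ∈ Kf E) (U : Cnd) : Iv b g U :=
  hb g⁻¹ (inv_mem hg) U

theorem Iv.cancel {E : Finset Ix} (hb : sy.Fix (Kf E) b) (hh : h ∈ Kf E) (h1 : Iv b (h * g) W) :
    Iv b g W := by
  have h2 := h1.comp (iv_of_fix hb (inv_mem hh) ⊤) (le_refl W) fun _ _ => trivial
  rwa [inv_mul_cancel_left] at h2

/-! ### The translation part -/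

/-- The permutation of a row. -/
noncomputable def sr (g : Gr) (n : ℕ) : Equiv.Perm ℕ := (g.2.row n).choose

/-- The translation of a row. -/
noncomputable def tr (g : Gr) (n : ℕ) : X → T := (g.2.row n).choose_spec.choose

theorem sr_spec (g : Gr) (n : ℕ) : ∃ m, ∀ j ≥ m, sr g n j = j :=
  (g.2.row n).choose_spec.choose_spec.1

theorem tr_dep (g : Gr) (n : ℕ) : Dep (tr g n) := (g.2.row n).choose_spec.choose_spec.2.1

theorem g_some (g : Gr) (n : ℕ) (x : X) (j : ℕ) :
    g.1 x (some n, j) = x (some n, sr g n j) + tr g n x :=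
  (g.2.row n).choose_spec.choose_spec.2.2 x j

theorem tr_large (g : Gr) (n : ℕ) : ∃ m, ∀ j ≥ m, ∀ x : X,
    g.1 x (some n, j) = x (some n, j) + tr g n x := by
  obtain ⟨m, hm⟩ := sr_spec g n
  exact ⟨m, fun j hj x => by rw [g_some, hm j hj]⟩

theorem tr_eq {g : Gr} {n : ℕ} {x : X} {t : T} {M : ℕ}
    (h : ∀ j ≥ M, g.1 x (some n, j) = x (some n, j) + t) : tr g n x = t := by
  obtain ⟨m, hm⟩ := tr_large g n
  have h1 := h (max m M) (le_max_right _ _)
  rw [hm _ (le_max_left _ _)] at h1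
  exact add_left_cancel h1

theorem tr_cont (g : Gr) (n : ℕ) : Continuous (tr g n) := by
  obtain ⟨m, hm⟩ := tr_large g n
  have h : tr g n = fun x => g.1 x (some n, m) - x (some n, m) := by
    funext x
    rw [hm m le_rfl, add_sub_cancel_left]
  rw [h]
  have := g.1.continuous
  fun_prop

/-- The rows of the finite set. -/
def Rw (E : Finset Ix) : Finset ℕ := E.biUnion fun i => i.1.toFinset

theorem mem_Rw {E : Finset Ix} {n : ℕ} : n ∈ Rw E ↔ ∃ j, (some n, j) ∈ E := by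
  rw [Rw, Finset.mem_biUnion]
  constructor
  · rintro ⟨⟨r, j⟩, h1, h2⟩
    rw [Option.mem_toFinset] at h2
    have h3 : r = some n := h2
    subst h3
    exact ⟨j, h1⟩
  · rintro ⟨j, hj⟩
    exact ⟨_, hj, by simp⟩

theorem half_ne : ((1 / 2 : ℝ) : T) ≠ 0 := by
  intro h
  have h1 : ‖((1 / 2 : ℝ) : T)‖ = 1 / 2 := by
    rw [UnitAddCircle.norm_eq]
    have : round (1 / 2 : ℝ) = 1 := by norm_num [round_eq]
    rw [this]
    norm_num
  rw [h, norm_zero] at h1
  norm_num at h1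

theorem tr_zero {E : Finset Ix} {g : Gr} (hg : g ∈ Kf E) {n : ℕ} (hn : n ∈ Rw E) (x : X) :
    tr g n x = 0 := by
  obtain ⟨j, hj⟩ := mem_Rw.1 hn
  have h1 : ∀ x : X, x (some n, sr g n j) + tr g n x = x (some n, j) := by
    intro x
    rw [← g_some]
    exact hg x _ hj
  by_cases hs : sr g n j = j
  · have h2 := h1 x
    rw [hs] at h2
    exact left_eq_add.1 h2.symm
  · exfalso
    have h2 := h1 0
    have h3 := h1 fun i => if i = (some n, j) then ((1 / 2 : ℝ) : T) else 0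
    have h4 : tr g n 0 = tr g n fun i => if i = (some n, j) then ((1 / 2 : ℝ) : T) else 0 := by
      obtain ⟨m, hm⟩ := tr_dep g n
      apply hm
      intro i _
      simp
    have h5 : ((some n, sr g n j) : Ix) ≠ (some n, j) := fun h => hs (Prod.mk.inj h).2
    rw [if_neg h5, if_pos rfl, zero_add] at h3
    rw [Pi.zero_apply, Pi.zero_apply, zero_add, h4, h3] at h2
    exact half_ne h2

/-! ### Exchanging blocks of coordinates -/

/-- The function that exchanges `j` and `j + L` for the coordinates in `A`. -/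
def swF (A : Finset Ix) (L : ℕ) (r : Option ℕ) (j : ℕ) : ℕ :=
  if (r, j) ∈ A then j + L else if L ≤ j ∧ (r, j - L) ∈ A then j - L else j

theorem swF_mem {A : Finset Ix} {L : ℕ} {r : Option ℕ} {j : ℕ} (h : (r, j) ∈ A) :
    swF A L r j = j + L := if_pos h

theorem swF_sh {A : Finset Ix} {L : ℕ} (hA : ∀ i ∈ A, i.2 < L) {r : Option ℕ} {j : ℕ}
    (h : (r, j) ∈ A) : swF A L r (j + L) = j := by
  have h1 : (r, j + L) ∉ A := fun h2 => by
    have := hA _ h2
    simp only at this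
    omega
  rw [swF, if_neg h1, if_pos ⟨by omega, by rwa [Nat.add_sub_cancel]⟩, Nat.add_sub_cancel]

theorem swF_id {A : Finset Ix} {L : ℕ} {r : Option ℕ} {j : ℕ} (h : (r, j) ∉ A)
    (h' : ∀ i, (r, i) ∈ A → j ≠ i + L) : swF A L r j = j := by
  rw [swF, if_neg h, if_neg]
  rintro ⟨h1, h2⟩
  exact h' _ h2 (by omega)

theorem swF_inv {A : Finset Ix} {L : ℕ} (hA : ∀ i ∈ A, i.2 < L) (r : Option ℕ) :
    Function.Involutive (swF A L r) := by
  intro j
  by_cases h : (r, j) ∈ A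
  · rw [swF_mem h, swF_sh hA h]
  · by_cases h1 : L ≤ j ∧ (r, j - L) ∈ A
    · have h2 : swF A L r j = j - L := by rw [swF, if_neg h, if_pos h1]
      rw [h2, swF_mem h1.2]
      omega
    · have h2 : swF A L r j = j := by rw [swF, if_neg h, if_neg h1]
      rw [h2, h2]

/-- The permutation that exchanges the blocks. -/
def pm (A : Finset Ix) (L : ℕ) (hA : ∀ i ∈ A, i.2 < L) : Gr :=
  ⟨permH fun r => Function.Involutive.toPerm (swF A L r) (swF_inv hA r), isG_permH fun r =>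
    ⟨2 * L, fun j hj => swF_id (fun h => by
      have := hA _ h
      simp only at this
      omega) fun i hi h => by
      have := hA _ hi
      simp only at this
      omega⟩⟩

section pm

variable {A : Finset Ix} {L : ℕ} (hA : ∀ i ∈ A, i.2 < L)

theorem pm_apply (x : X) (r : Option ℕ) (j : ℕ) : (pm A L hA).1 x (r, j) = x (r, swF A L r j) :=
  rfl

theorem pm_pm (x : X) : (pm A L hA).1 ((pm A L hA).1 x) = x := by
  funext ⟨r, j⟩
  rw [pm_apply, pm_apply, swF_inv hA r]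

theorem pm_inv : (pm A L hA)⁻¹ = pm A L hA := by
  apply inv_eq_of_mul_eq_one_right
  apply Subtype.ext
  ext x
  exact congrFun (pm_pm hA x) _

theorem pm_mem (x : X) {r : Option ℕ} {j : ℕ} (h : (r, j) ∈ A) :
    (pm A L hA).1 x (r, j) = x (r, j + L) := by
  rw [pm_apply, swF_mem h]

theorem pm_sh (x : X) {r : Option ℕ} {j : ℕ} (h : (r, j) ∈ A) :
    (pm A L hA).1 x (r, j + L) = x (r, j) := by
  rw [pm_apply, swF_sh hA h]

theorem pm_id (x : X) {r : Option ℕ} {j : ℕ} (h : (r, j) ∉ A)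
    (h' : ∀ i, (r, i) ∈ A → j ≠ i + L) : (pm A L hA).1 x (r, j) = x (r, j) := by
  rw [pm_apply, swF_id h h']

theorem pm_lt (x : X) {r : Option ℕ} {j : ℕ} (h : (r, j) ∉ A)
    (h' : j < L) : (pm A L hA).1 x (r, j) = x (r, j) :=
  pm_id hA x h fun i _ => by omega

end pm

/-! ### Translations -/

/-- The function depends only on the first `m` parameters. -/
def DepM {α : Type} (m : ℕ) (f : X → α) : Prop :=
  ∀ x x' : X, (∀ j < m, x (none, j) = x' (none, j)) → f x = f x'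

/-- The data for a translation. -/
structure EpD where
  m : ℕ
  u : ℕ → X → T
  v : ℕ → X → T
  cu : ∀ j, Continuous (u j)
  cv : ∀ n, Continuous (v n)
  du : ∀ j, DepM m (u j)
  dv : ∀ n, DepM m (v n)
  u0 : ∀ j < m, ∀ x, u j x = 0
  u1 : ∃ k, ∀ j ≥ k, ∀ x, u j x = 0

namespace EpD

variable (D : EpD)

/-- The shift. -/
def w (x : X) : X := fun i => match i.1 with
  | none => D.u i.2 x
  | some n => D.v n x

theorem w_none (x : X) (j : ℕ) : D.w x (none, j) = D.u j x := rfl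

theorem w_some (x : X) (n j : ℕ) : D.w x (some n, j) = D.v n x := rfl

theorem w_cont : Continuous D.w := by
  refine continuous_pi fun ⟨r, j⟩ => ?_
  cases r with
  | none => exact D.cu j
  | some n => exact D.cv n

theorem w_congr {x x' : X} (h : ∀ j < D.m, x (none, j) = x' (none, j)) : D.w x = D.w x' := by
  funext ⟨r, j⟩
  cases r with
  | none => exact D.du j _ _ h
  | some n => exact D.dv n _ _ h

theorem w_add (x : X) : D.w (x + D.w x) = D.w x := by
  refine D.w_congr fun j hj => ?_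
  rw [Pi.add_apply, w_none, D.u0 j hj, add_zero]

theorem w_sub (x : X) : D.w (x - D.w x) = D.w x := by
  refine D.w_congr fun j hj => ?_
  rw [Pi.sub_apply, w_none, D.u0 j hj, sub_zero]

/-- The translation. -/
def ep : Gr := ⟨shear D.w D.w_cont D.w_add D.w_sub,
  isG_shear (fun j => ⟨D.m, D.du j⟩) D.u1 fun n => ⟨D.v n, ⟨D.m, D.dv n⟩, fun _ _ => rfl⟩⟩

theorem ep_none (x : X) (j : ℕ) : D.ep.1 x (none, j) = x (none, j) + D.u j x := rfl

theorem ep_some (x : X) (n j : ℕ) : D.ep.1 x (some n, j) = x (some n, j) + D.v n x := rfl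

theorem inv_none (x : X) (j : ℕ) : (D.ep⁻¹).1 x (none, j) = x (none, j) - D.u j x := rfl

theorem inv_some (x : X) (n j : ℕ) : (D.ep⁻¹).1 x (some n, j) = x (some n, j) - D.v n x := rfl

end EpD

end Pool.Agent.H99.CS
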