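import Pool.Agent.H99.CS.Big
import Pool.Graph.R_seed8.R598.CI.Sem

/-!
# The elements of countable sets have small supports
-/

set_option autoImplicit false

namespace Pool.Agent.H99.CS

open Pool.Agent.W868 Pool.Agent.W868.PName Pool.Agent.R598.SY Pool.Agent.R598.CI
open ZFSet (pair)

/-- The function `f` has exactly one value `y` at `n`, the relation `e` gives an injective
function from `y` to `w`, and `l` is the value of `e` at the element `b` of `y`. -/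
def R2c (M : Set ZFSet.{0}) (f n e b l w : ZFSet.{0}) : Prop :=
  ∃ y ∈ M, pair n y ∈ f ∧ (∀ y' ∈ M, pair n y' ∈ f → y' = y) ∧ b ∈ y ∧
    l ∈ w ∧ pair b l ∈ e ∧ (∀ z ∈ y, ∃ k ∈ w, pair z k ∈ e) ∧
    ∀ z ∈ y, ∀ z' ∈ y, ∀ k ∈ w, pair z k ∈ e → pair z' k ∈ e → z = z'

def R2 (M : Set ZFSet.{0}) (v : Fin 6 → ZFSet.{0}) : Prop :=
  R2c M (v 0) (v 1) (v 2) (v 3) (v 4) (v 5)

theorem ud_R2 : UDf R2 := by
  refine UDf.ex (Q := fun M y (v : Fin 6 → ZFSet.{0}) => pair (v 1) y ∈ v 0 ∧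
    (∀ y' ∈ M, pair (v 1) y' ∈ v 0 → y' = y) ∧ v 3 ∈ y ∧
    v 4 ∈ v 5 ∧ pair (v 3) (v 4) ∈ v 2 ∧ (∀ z ∈ y, ∃ k ∈ v 5, pair z k ∈ v 2) ∧
    ∀ z ∈ y, ∀ z' ∈ y, ∀ k ∈ v 5, pair z k ∈ v 2 → pair z' k ∈ v 2 → z = z')
    (UDf.and (udp 2 0 1) (UDf.and (UDf.all (UDf.imp (udp 3 0 2) (ude 0 1)))
      (UDf.and (udm 4 0) (UDf.and (udm 5 6) (UDf.and (udp 4 5 3) (UDf.and
        (UDf.ball 0 (UDf.bex 7 (udp 1 0 5)))
        (UDf.ball 0 (UDf.ball 1 (UDf.ball 8 (UDf.imp (udp 2 0 6) (UDf.imp (udp 1 0 6)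
          (ude 2 1)))))))))))) 

/-- The vector of names. -/
noncomputable def vn (f e b : PName Cnd) (n l : ℕ) : Fin 6 → PName Cnd :=
  ![f, check (nat n), e, b, check (nat l), check ZFSet.omega]

theorem hs_vn {f e b : PName Cnd} (hf : sy.HS f) (he : sy.HS e) (hb : sy.HS b) (n l : ℕ) :
    ∀ i, sy.HS (vn f e b n l i) := by
  intro i
  fin_cases i
  · exact hf
  · exact sy.hs_check _
  · exact he
  · exact hb
  · exact sy.hs_check _
  · exact sy.hs_check _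

theorem vn_mem {f e b : PName Cnd} {π : Pkg Cnd} (hf : f ∈ π.N) (he : e ∈ π.N) (hb : b ∈ π.N)
    (n l : ℕ) : ∀ i, vn f e b n l i ∈ π.N := by
  intro i
  fin_cases i
  · exact hf
  · exact π.nat_Z n
  · exact he
  · exact hb
  · exact π.nat_Z l
  · exact π.omega_Z

theorem act_vn (g : Gr) (f e b : PName Cnd) (n l : ℕ) :
    act (acH g) ∘ vn f e b n l = vn (ag g f) (ag g e) (ag g b) n l := by
  funext i
  fin_cases i
  · rfl
  · exact act_check (sy.top g) _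
  · rfl
  · rfl
  · exact act_check (sy.top g) _
  · exact act_check (sy.top g) _

theorem R2_val {f e b : PName Cnd} {n l : ℕ} {π : Pkg Cnd} {M : Set ZFSet.{0}} :
    R2 M (π.val ∘ vn f e b n l) ↔
      R2c M (π.val f) (nat n) (π.val e) (π.val b) (nat l) ZFSet.omega := by
  have h1 : π.val (check (nat n)) = nat n := π.hat_nat n
  have h2 : π.val (check (nat l)) = nat l := π.hat_nat l
  have h3 : π.val (check ZFSet.omega) = ZFSet.omega := π.hat_omega
  change R2c M (π.val f) (π.val (check (nat n))) (π.val e) (π.val b) (π.val (check (nat l)))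
    (π.val (check ZFSet.omega)) ↔ _
  rw [h1, h2, h3]

theorem vn_congr {f e b f' e' b' : PName Cnd} {n l : ℕ} {p : Cnd} (h1 : Feq f f' p)
    (h2 : Feq e e' p) (h3 : Feq b b' p) : ∀ i, Feq (vn f e b n l i) (vn f' e' b' n l i) p := by
  intro i
  fin_cases i
  · exact h1
  · exact Feq.refl _ _
  · exact h2
  · exact h3
  · exact Feq.refl _ _
  · exact Feq.refl _ _

theorem R2_uniq {f e b b' : PName Cnd} {n l : ℕ} {p : Cnd} (hb : sy.HS b) (hb' : sy.HS b') (h1 : SF sy R2 (vn f e b n l) p)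
    (h2 : SF sy R2 (vn f e b' n l) p) : Feq b b' p := by
  refine feq_of_sf (S := sy) (v := ![b, b']) rfl rfl ?_
  refine SF.intro ud_eq (by
    intro i
    fin_cases i
    · exact hb
    · exact hb') {f, e} (Set.toFinite _).countable fun π hc h3 h4 h5 => ?_
  have hbN : b ∈ π.N := h3 0
  have hbN' : b' ∈ π.N := h3 1
  have hfN : f ∈ π.N := h4 (Or.inl rfl)
  have heN : e ∈ π.N := h4 (Or.inr rfl)
  obtain ⟨y, hy, h6, h7, h8, h9, h10, h11, h12⟩ := R2_val.1 (h1 π hc (vn_mem hfN heN hbN n l) h5)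
  obtain ⟨y', hy', h6', h7', h8', h9', h10', h11', h12'⟩ :=
    R2_val.1 (h2 π hc (vn_mem hfN heN hbN' n l) h5)
  obtain rfl := h7 y' hy' h6'
  exact h12 _ h8 _ h8' _ h9 h10 h10'

theorem SF_ag {f e b : PName Cnd} {n l : ℕ} {p : Cnd} (hf : sy.HS f) (he : sy.HS e)
    (hb : sy.HS b) (g : Gr) (h : SF sy R2 (vn f e b n l) p) :
    SF sy R2 (vn (ag g f) (ag g e) (ag g b) n l) (acH g p) := by
  have h1 := (SF.act ud_R2 (hs_vn hf he hb n l) g).2 h
  have h2 : act (sy.ac g) ∘ vn f e b n l = vn (ag g f) (ag g e) (ag g b) n l :=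
    act_vn g f e b n l
  rw [h2] at h1
  exact h1

theorem core {E : Finset Ix} {f e b : PName Cnd} {n l : ℕ} {p0 : Cnd} (hf : sy.HS f)
    (hfE : sy.Fix (Kf E) f) (he : sy.HS e) (hb : sy.HS b) (h : SF sy R2 (vn f e b n l) p0) :
    ∃ p ≤ p0, ∃ c, sy.HS c ∧ sy.Fix (Kf E) c ∧ Feq b c p := by
  classical
  obtain ⟨_, ⟨Ee, rfl⟩, heE⟩ := he.sym
  obtain ⟨_, ⟨Eb, rfl⟩, hbE⟩ := hb.sym
  obtain ⟨x0, hx0⟩ := p0.2.2
  obtain ⟨S0, δ0, hδ0, hS0⟩ := exists_box p0.2.1 hx0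
  let E' : Finset Ix := E ∪ (Ee ∪ (Eb ∪ S0))
  have hE1 : E ⊆ E' := Finset.subset_union_left
  have hE2 : Ee ⊆ E' := Finset.subset_union_left.trans Finset.subset_union_right
  have hE3 : Eb ⊆ E' := (Finset.subset_union_left.trans Finset.subset_union_right).trans
    Finset.subset_union_right
  have hE4 : S0 ⊆ E' := (Finset.subset_union_right.trans Finset.subset_union_right).trans
    Finset.subset_union_right
  let c : Ctx := ⟨E, E', E'.sup Prod.snd + 1, hE1, fun i hi => by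
    have : i.2 ≤ E'.sup Prod.snd := Finset.le_sup (f := Prod.snd) hi
    omega⟩
  have hcE : c.E = E := rfl
  have hcE' : c.E' = E' := rfl
  have hsg := c.sg_mem
  -- the first condition
  let p1 : Cnd := ⟨Box x0 E' δ0 ∩ c.sg.1 ⁻¹' Box x0 E' δ0,
    (isOpen_box _ _ _).inter ((isOpen_box _ _ _).preimage c.sg.1.continuous), by
    let x : X := fun i => if c.L ≤ i.2 ∧ (i.1, i.2 - c.L) ∈ c.A then x0 (i.1, i.2 - c.L) else
      if i ∈ E' then x0 i else 0
    have h1 : ∀ i ∈ E', x i = x0 i := by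
      intro i hi
      have h2 := c.hL i hi
      change (if c.L ≤ i.2 ∧ (i.1, i.2 - c.L) ∈ c.A then _ else if i ∈ E' then x0 i else 0) = _
      rw [if_neg (by omega), if_pos hi]
    have h2 : ∀ r j, (r, j) ∈ c.A → x (r, j + c.L) = x0 (r, j) := by
      intro r j hi
      change (if c.L ≤ j + c.L ∧ (r, j + c.L - c.L) ∈ c.A then x0 (r, j + c.L - c.L) else _) = _
      rw [Nat.add_sub_cancel, if_pos ⟨by omega, hi⟩]
    have h3 : ∀ m, x (none, 2 * c.L + m) = 0 := by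
      intro m
      change (if c.L ≤ 2 * c.L + m ∧ (none, 2 * c.L + m - c.L) ∈ c.A then _ else
        if (none, 2 * c.L + m) ∈ E' then _ else 0) = _
      rw [if_neg, if_neg]
      · intro h4
        have := c.hL _ h4
        simp only at this
        omega
      · rintro ⟨-, h4⟩
        have := c.hA _ h4
        simp only at this
        omega
    refine ⟨x, fun i hi => ?_, ?_⟩
    · rw [h1 i hi, sub_self, norm_zero]
      exact hδ0
    · rintro ⟨r, j⟩ hi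
      have h4 : (pm c.A c.L c.hA).1 x (r, j) = x0 (r, j) := by
        by_cases hA : (r, j) ∈ c.A
        · rw [pm_mem c.hA x hA, h2 r j hA]
        · rw [pm_lt c.hA x hA (c.hL _ hi), h1 _ hi]
      cases r with
      | none =>
        rw [c.sg_none, h4, sub_self, norm_zero]
        exact hδ0
      | some m =>
        rw [c.sg_some, h4, h3]
        simp only [ite_self, add_zero, sub_self, norm_zero]
        exact hδ0⟩
  have hbox : ∀ x ∈ Box x0 E' δ0, x ∈ p0.1 := fun x hx => hS0 (box_mono hE4 le_rfl hx)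
  have hp1 : p1 ≤ p0 := fun x hx => hbox x hx.1
  have hp1' : p1 ≤ acH c.sg⁻¹ p0 := fun x hx => mem_ac_inv.2 (hbox _ hx.2)
  -- the name
  let b1 : PName Cnd := ag c.sg⁻¹ b
  have hb1 : sy.HS b1 := hs_ag hb _
  have s0 : SF sy R2 (vn f (ag c.sg⁻¹ e) b1 n l) p1 := by
    have h1 := SF_ag hf he hb c.sg⁻¹ h
    have h2 : Feq (ag c.sg⁻¹ f) f (acH c.sg⁻¹ p0) := fix_iff.1 hfE _ (inv_mem hsg) _
    exact ((SF.congr ud_R2 (hs_vn (hs_ag hf _) (hs_ag he _) hb1 n l)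
      (hs_vn hf (hs_ag he _) hb1 n l) (vn_congr h2 (Feq.refl _ _) (Feq.refl _ _))).1 h1).mono hp1'
  obtain ⟨π, hc, hN, hg0⟩ := exists_cld sy {f, e, b, b1, ag c.sg⁻¹ e} (Set.toFinite _).countable p1
  have mf : f ∈ π.N := hN (by simp)
  have me : e ∈ π.N := hN (by simp)
  have mb : b ∈ π.N := hN (by simp)
  have mb1 : b1 ∈ π.N := hN (by simp)
  have me1 : ag c.sg⁻¹ e ∈ π.N := hN (by simp)
  obtain ⟨y, hy, h1, h2, h3, h4, h5, h6, h7⟩ :=
    R2_val.1 (h π hc (vn_mem mf me mb n l) ⟨0, hg0.le.trans hp1⟩)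
  obtain ⟨y', hy', h1', h2', h3', -⟩ := R2_val.1 (s0 π hc (vn_mem mf me1 mb1 n l) ⟨0, hg0.le⟩)
  obtain rfl := h2 y' hy' h1'
  obtain ⟨k, hk, h8⟩ := h6 _ h3'
  obtain ⟨k, rfl⟩ := mem_omega_iff.1 hk
  obtain ⟨m, hm⟩ := ud_R2.fund (hs_vn hf he hb1 n k) hc (vn_mem mf me mb1 n k)
    (R2_val.2 ⟨y', hy, h1, h2, h3', hk, h8, h6, h7⟩)
  set p2 : Cnd := π.g m with hp2
  have hp21 : p2 ≤ p1 := hg0 ▸ π.g_anti (Nat.zero_le m)
  -- the open set
  let U : Cnd := acH c.sg p2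
  obtain ⟨z, hz⟩ := U.2.2
  obtain ⟨S1, δ1, hδ1, hS1⟩ := exists_box U.2.1 hz
  let δ : ℝ := δ1 / 3
  have hδ : 0 < δ := by positivity
  have h3δ : 3 * δ = δ1 := by
    change 3 * (δ1 / 3) = δ1
    ring
  let S : Finset Ix := S1 ∪ (E' ∪ ((c.A.image fun i => (i.1, i.2 + c.L)) ∪
    (c.Rd.image fun n => (none, 2 * c.L + n))))
  have hSS : Box z S (3 * δ) ⊆ U.1 := by
    rw [h3δ]
    exact (box_mono Finset.subset_union_left le_rfl).trans hS1
  have hSE : c.E' ⊆ S := Finset.subset_union_left.trans Finset.subset_union_right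
  have hSA : ∀ r j, (r, j) ∈ c.A → (r, j + c.L) ∈ S := by
    intro r j hi
    refine Finset.mem_union_right _ (Finset.mem_union_right _ (Finset.mem_union_left _ ?_))
    exact Finset.mem_image.2 ⟨(r, j), hi, rfl⟩
  have hSR : ∀ n ∈ c.Rd, (none, 2 * c.L + n) ∈ S := by
    intro n hn
    refine Finset.mem_union_right _ (Finset.mem_union_right _ (Finset.mem_union_right _ ?_))
    exact Finset.mem_image.2 ⟨n, hn, rfl⟩
  have hbE' : sy.Fix (Kf c.E') b := Sys.Fix.mono hbE (Kf_mono hE3)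
  have heE' : sy.Fix (Kf c.E') e := Sys.Fix.mono heE (Kf_mono hE2)
  have hfE' : sy.Fix (Kf c.E') f := Sys.Fix.mono hfE (Kf_mono hE1)
  have hUp : ∀ x ∈ U.1, x ∈ Box x0 E' δ0 := by
    intro x hx
    have h9 := (hp21 (mem_ac.1 hx)).2
    change c.sg.1 ((c.sg⁻¹).1 x) ∈ Box x0 E' δ0 at h9
    rwa [g_inv] at h9
  have hH : ∀ τ ∈ Kf c.E', ∀ W : Cnd, W ≤ U → (∀ x ∈ W.1, (c.sg * τ * c.sg⁻¹).1 x ∈ U.1) →
      Iv b (c.sg * τ * c.sg⁻¹) W := by
    intro τ hτ W hWU hW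
    let W1 : Cnd := acH c.sg⁻¹ W
    have hW1 : W1 ≤ p2 := by
      intro x hx
      have h9 := mem_ac.1 (hWU (mem_ac_inv.1 hx))
      rwa [inv_g] at h9
    have hW2 : W1 ≤ acH τ⁻¹ p2 := by
      intro x hx
      have h9 := mem_ac.1 (hW _ (mem_ac_inv.1 hx))
      rw [mul_app, mul_app, inv_g, inv_g] at h9
      exact mem_ac_inv.2 h9
    have s1 : SF sy R2 (vn f e b1 n k) W1 := hm.mono hW1
    have s2 : SF sy R2 (vn f e (ag τ⁻¹ b1) n k) W1 := by
      have h9 := SF_ag hf he hb1 τ⁻¹ hm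
      have h10 : Feq (ag τ⁻¹ f) f (acH τ⁻¹ p2) := fix_iff.1 hfE' _ (inv_mem hτ) _
      have h11 : Feq (ag τ⁻¹ e) e (acH τ⁻¹ p2) := fix_iff.1 heE' _ (inv_mem hτ) _
      exact ((SF.congr ud_R2 (hs_vn (hs_ag hf _) (hs_ag he _) (hs_ag hb1 _) n k)
        (hs_vn hf he (hs_ag hb1 _) n k) (vn_congr h10 h11 (Feq.refl _ _))).1 h9).mono hW2
    have h9 := feq_ag c.sg (R2_uniq (hs_ag hb1 _) hb1 s2 s1)
    have h10 : acH c.sg W1 = W := by
      change acH c.sg (acH c.sg⁻¹ W) = W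
      rw [acH_acH, mul_inv_cancel, acH_one]
    have h11 : ag c.sg b1 = b := by
      change ag c.sg (ag c.sg⁻¹ b) = b
      rw [ag_ag, mul_inv_cancel, ag_one]
    have h12 : ag c.sg (ag τ⁻¹ b1) = ag (c.sg * τ * c.sg⁻¹)⁻¹ b := by
      change ag c.sg (ag τ⁻¹ (ag c.sg⁻¹ b)) = _
      rw [ag_ag, ag_ag, mul_inv_rev, mul_inv_rev, inv_inv, mul_assoc]
    rw [h10, h11, h12] at h9
    exact h9
  have hinv : c.Inv b z δ δ := by
    intro ψ hψ q h1 h2 h3
    refine Iv.dense fun q1 hq1 => ?_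
    exact Ctx.small hbE' hδ hSE hSA hSR hSS hH hψ (fun x hx => h1 x (hq1 hx))
      (fun x hx => h2 x (hq1 hx)) fun x hx => h3 x (hq1 hx)
  have hall := Ctx.inv_all hδ hδ hinv
  let p : Cnd := ⟨Box z E' δ, isOpen_box _ _ _, z, mem_box_self _ _ hδ⟩
  refine ⟨p, ?_, symN E b p, hs_symN hb, fix_symN, feq_symN fun ψ hψ q hq h9 =>
    hall ψ hψ q (fun x hx => hq hx) h9⟩
  intro x hx
  apply hbox
  let x' : X := fun i => if i ∈ E' then x i else z i
  have h9 : x' ∈ Box x0 E' δ0 := by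
    apply hUp
    apply hSS
    intro i hi
    change ‖(if i ∈ E' then x i else z i) - z i‖ < _
    split_ifs with h10
    · have := hx i h10
      linarith
    · rw [sub_self, norm_zero]
      linarith
  intro i hi
  have h10 := h9 i hi
  have h11 : x' i = x i := if_pos hi
  rwa [h11] at h10

end Pool.Agent.H99.CS
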