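import Pool.Graph.R_seed8.R598.CI.Stm

/-!
# The countable union theorem in a transitive model of ZF
-/

set_option autoImplicit false

namespace Pool.Agent.H99.CS

open Pool.Agent.W868 Pool.Agent.R598.CI

/-- In the model `M`, the union of each countable family of countable sets is countable. -/
def CUC (M : Set ZFSet.{0}) : Prop :=
  ∀ F ∈ M, Count M F → (∀ B ∈ F, Count M B) → Count M (ZFSet.sUnion F)

end Pool.Agent.H99.CS
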