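import Pool.Agent.H99.CS.Gen
import Pool.Agent.H99.CS.Stm
import Pool.Graph.R_seed8.R598.CI.Nms

/-!
# The countable union theorem in the model
-/

set_option autoImplicit false

namespace Pool.Agent.H99.CS

open Pool.Agent.W868 Pool.Agent.W868.PName Pool.Agent.R598.SY Pool.Agent.R598.CI
open ZFSet (pair)

theorem om_nat (n : ℕ) : nat n ∈ (ZFSet.omega : ZFSet.{0}) := mem_omega_iff.2 ⟨n, rfl⟩

/-- The function `f` has exactly one value `y` at `n`, and the relation `e` gives an injective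
function from `y` to `w`. -/
def R0c (M : Set ZFSet.{0}) (f n e w : ZFSet.{0}) : Prop :=
  ∃ y ∈ M, pair n y ∈ f ∧ (∀ y' ∈ M, pair n y' ∈ f → y' = y) ∧
    (∀ z ∈ y, ∃ k ∈ w, pair z k ∈ e) ∧
    ∀ z ∈ y, ∀ z' ∈ y, ∀ k ∈ w, pair z k ∈ e → pair z' k ∈ e → z = z'

def R0 (M : Set ZFSet.{0}) (v : Fin 4 → ZFSet.{0}) : Prop := R0c M (v 0) (v 1) (v 2) (v 3)

theorem ud_R0 : UDf R0 := by
  refine UDf.ex (Q := fun M y (v : Fin 4 → ZFSet.{0}) => pair (v 1) y ∈ v 0 ∧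
    (∀ y' ∈ M, pair (v 1) y' ∈ v 0 → y' = y) ∧ (∀ z ∈ y, ∃ k ∈ v 3, pair z k ∈ v 2) ∧
    ∀ z ∈ y, ∀ z' ∈ y, ∀ k ∈ v 3, pair z k ∈ v 2 → pair z' k ∈ v 2 → z = z')
    (UDf.and (udp 2 0 1) (UDf.and (UDf.all (UDf.imp (udp 3 0 2) (ude 0 1)))
      (UDf.and (UDf.ball 0 (UDf.bex 5 (udp 1 0 5)))
        (UDf.ball 0 (UDf.ball 1 (UDf.ball 6 (UDf.imp (udp 2 0 6) (UDf.imp (udp 1 0 6)
          (ude 2 1)))))))))

theorem R0_of_R2 {M : Set ZFSet.{0}} {f n e b l w : ZFSet.{0}} (h : R2c M f n e b l w) :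
    R0c M f n e w := by
  obtain ⟨y, hy, h1, h2, -, -, -, h3, h4⟩ := h
  exact ⟨y, hy, h1, h2, h3, h4⟩

/-- The vector of names. -/
noncomputable def vm (f e : PName Cnd) (n : ℕ) : Fin 4 → PName Cnd :=
  ![f, check (nat n), e, check ZFSet.omega]

theorem hs_vm {f e : PName Cnd} (hf : sy.HS f) (he : sy.HS e) (n : ℕ) :
    ∀ i, sy.HS (vm f e n i) := by
  intro i
  fin_cases i
  · exact hf
  · exact sy.hs_check _
  · exact he
  · exact sy.hs_check _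

theorem vm_mem {f e : PName Cnd} {π : Pkg Cnd} (hf : f ∈ π.N) (he : e ∈ π.N) (n : ℕ) :
    ∀ i, vm f e n i ∈ π.N := by
  intro i
  fin_cases i
  · exact hf
  · exact π.nat_Z n
  · exact he
  · exact π.omega_Z

theorem R0_val {f e : PName Cnd} {n : ℕ} {π : Pkg Cnd} {M : Set ZFSet.{0}} :
    R0 M (π.val ∘ vm f e n) ↔ R0c M (π.val f) (nat n) (π.val e) ZFSet.omega := by
  have h1 : π.val (check (nat n)) = nat n := π.hat_nat n
  have h3 : π.val (check ZFSet.omega) = ZFSet.omega := π.hat_omega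
  change R0c M (π.val f) (π.val (check (nat n))) (π.val e) (π.val (check ZFSet.omega)) ↔ _
  rw [h1, h3]

theorem SF_R0_of {f e b : PName Cnd} {n l : ℕ} {p : Cnd} (hf : sy.HS f) (he : sy.HS e)
    (h : SF sy R2 (vn f e b n l) p) : SF sy R0 (vm f e n) p := by
  refine SF.intro ud_R0 (hs_vm hf he n) {b} (Set.toFinite _).countable fun π hc h3 h4 h5 => ?_
  exact R0_val.2 (R0_of_R2 (R2_val.1 (h π hc (vn_mem (h3 0) (h3 2) (h4 rfl) n l) h5)))

open Classical in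
/-- The support of the family. -/
noncomputable def Ef (f : PName Cnd) : Finset Ix :=
  if h : ∃ E, sy.Fix (Kf E) f then h.choose else ∅

theorem Ef_spec {f : PName Cnd} (hf : sy.HS f) : sy.Fix (Kf (Ef f)) f := by
  obtain ⟨_, ⟨E, rfl⟩, hE⟩ := hf.sym
  have h : ∃ E, sy.Fix (Kf E) f := ⟨E, hE⟩
  rw [Ef, dif_pos h]
  exact h.choose_spec

open Classical in
/-- The name of an enumeration of the value at `n`. -/
noncomputable def en (f : PName Cnd) (n k : ℕ) : PName Cnd :=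
  if h : ∃ e, sy.HS e ∧ SF sy R0 (vm f e n) (dns k) then h.choose else emp

theorem en_spec {f : PName Cnd} {n k : ℕ} (h : ∃ e, sy.HS e ∧ SF sy R0 (vm f e n) (dns k)) :
    sy.HS (en f n k) ∧ SF sy R0 (vm f (en f n k) n) (dns k) := by
  rw [en, dif_pos h]
  exact h.choose_spec

open Classical in
/-- The name of an element of the value at `n`. -/
noncomputable def cn (f : PName Cnd) (n k l k' : ℕ) : PName Cnd :=
  if h : ∃ c, sy.HS c ∧ sy.Fix (Kf (Ef f)) c ∧ SF sy R2 (vn f (en f n k) c n l) (dns k')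
  then h.choose else emp

theorem cn_spec {f : PName Cnd} {n k l k' : ℕ} (h : ∃ c, sy.HS c ∧ sy.Fix (Kf (Ef f)) c ∧
    SF sy R2 (vn f (en f n k) c n l) (dns k')) :
    SF sy R2 (vn f (en f n k) (cn f n k l k') n l) (dns k') := by
  rw [cn, dif_pos h]
  exact h.choose_spec.2.2

theorem fix_emp (E : Finset Ix) : sy.Fix (Kf E) emp := by
  refine fix_iff.2 fun g _ p => ?_
  rw [ag, act_emp]
  exact Feq.refl _ _

theorem hs_emp : sy.HS (emp : PName Cnd) :=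
  sy.hs_iff.2 ⟨⟨Kf ∅, ⟨∅, rfl⟩, fix_emp ∅⟩, fun _ _ ⟨i, _⟩ => i.elim⟩

theorem cn_fix (f : PName Cnd) (n k l k' : ℕ) :
    sy.HS (cn f n k l k') ∧ sy.Fix (Kf (Ef f)) (cn f n k l k') := by
  by_cases h : ∃ c, sy.HS c ∧ sy.Fix (Kf (Ef f)) c ∧ SF sy R2 (vn f (en f n k) c n l) (dns k')
  · rw [cn, dif_pos h]
    exact ⟨h.choose_spec.1, h.choose_spec.2.1⟩
  · rw [cn, dif_neg h]
    exact ⟨hs_emp, fix_emp _⟩

/-- The names of the elements. -/
noncomputable def cu (f : PName Cnd) (u : ℕ) : PName Cnd :=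
  cn f (u.unpair.1.unpair.1) (u.unpair.1.unpair.2) (u.unpair.2.unpair.1) (u.unpair.2.unpair.2)

theorem cu_eq (f : PName Cnd) (n k l k' : ℕ) :
    cu f (Nat.pair (Nat.pair n k) (Nat.pair l k')) = cn f n k l k' := by
  rw [cu]
  simp only [Nat.unpair_pair]

/-- The name of the enumeration of the union. -/
noncomputable def EnN (f : PName Cnd) : PName Cnd :=
  famN ℕ fun u => opN (check (nat u)) (cu f u)

theorem hs_EnN (f : PName Cnd) : sy.HS (EnN f) := by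
  refine hs_famN (S := sy) (H := Kf (Ef f)) ⟨_, rfl⟩ (fix_famN fun g hg => ⟨id,
    Function.surjective_id, fun u p => ?_⟩) fun u => sy.hs_opN (sy.hs_check _) (cn_fix _ _ _ _ _).1
  rw [act_opN (sy.top g), act_check (sy.top g)]
  exact feq_opN (Feq.refl _ _) ((cn_fix _ _ _ _ _).2 g hg p)

open Classical in
/-- The rule for the elements. -/
noncomputable def rU : Rule Cnd := fun q => match q with
  | ⟨_, .mem s t, v, p⟩ =>
    if h : ∃ u : ℕ, tv v t = check (nat u) then (cu (tv v s) h.choose, p) else (emp, p)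
  | q => (emp, q.p)

/-- The rule for the enumeration. -/
noncomputable def rE : Rule Cnd := fun q => match q with
  | ⟨_, .mem s _, v, p⟩ => (EnN (tv v s), p)
  | q => (emp, q.p)

/-- The rule for genericity. -/
noncomputable def rD : Rule Cnd := fun q => match q with
  | ⟨_, .mem s t, v, p⟩ => (Sys.nm Cnd {q | ∃ u, Feq (tv v s) (cu (tv v t) u) q}, p)
  | q => (emp, q.p)

theorem Count_of_Inj {M : Set ZFSet.{0}} {Y f : ZFSet.{0}} (hf : f ∈ M)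
    (h : IsInj Y ZFSet.omega f) : Count M Y := ⟨f, hf, h⟩

section

variable {π : Pkg Cnd} (hcl : sy.Cld π)
  (hR : ∀ ρ ∈ ({rU, rE, rD} : Set (Rule Cnd)), ∀ q : Query Cnd, q.In π.N π.C →
    (ρ q).1 ∈ π.N ∧ (ρ q).2 ∈ π.C)

include hR in
theorem cu_mem {f : PName Cnd} (hf : f ∈ π.N) (u : ℕ) : cu f u ∈ π.N := by
  have h1 := (hR rU (Or.inl rfl) _ (query2 hf (π.nat_Z u) (π.gC 0))).1
  have h2 : ∃ t : ℕ, tv (Fin.elim0 : Fin 0 → PName Cnd) (Sum.inr (check (nat u))) =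
      check (nat t) := ⟨u, rfl⟩
  have h3 : (rU ⟨0, .mem (Sum.inr f) (Sum.inr (check (nat u))), Fin.elim0, π.g 0⟩).1 =
      cu f h2.choose := by
    unfold rU
    simp only [dif_pos h2]
    rfl
  rw [h3] at h1
  have h4 : u = h2.choose := nat_injective (check_injective h2.choose_spec)
  rwa [← h4] at h1

include hR in
theorem EnN_mem {f : PName Cnd} (hf : f ∈ π.N) : EnN f ∈ π.N :=
  (hR rE (Or.inr (Or.inl rfl)) _ (query2 hf hf (π.gC 0))).1

include hR in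
theorem nm_mem {f b : PName Cnd} (hf : f ∈ π.N) (hb : b ∈ π.N) :
    Sys.nm Cnd {q | ∃ u, Feq b (cu f u) q} ∈ π.N :=
  (hR rD (Or.inr (Or.inr rfl)) _ (query2 hb hf (π.gC 0))).1

include hR in
theorem mem_EnN {f : PName Cnd} (hf : f ∈ π.N) {w : ZFSet.{0}} :
    w ∈ π.val (EnN f) ↔ ∃ u : ℕ, w = pair (nat u) (π.val (cu f u)) := by
  rw [EnN, val_famN]
  have h1 : ∀ u : ℕ, π.val (opN (check (nat u)) (cu f u)) = pair (nat u) (π.val (cu f u)) := by
    intro u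
    rw [π.val_opN (π.nat_Z u) (cu_mem hR hf u)]
    congr 1
    exact π.hat_nat u
  constructor
  · rintro ⟨u, -, rfl⟩
    exact ⟨u, h1 u⟩
  · rintro ⟨u, rfl⟩
    exact ⟨u, π.opN_mem (π.nat_Z u) (cu_mem hR hf u), (h1 u).symm⟩

include hcl hR in
/-- Every element of the union is enumerated. -/
theorem exists_u {f e b : PName Cnd} {n l : ℕ} (hf : f ∈ π.N) (hfS : sy.HS f) (he : e ∈ π.N)
    (heS : sy.HS e) (hb : b ∈ π.N) (hbS : sy.HS b)
    (h : R2c (sy.Ms π) (π.val f) (nat n) (π.val e) (π.val b) (nat l) ZFSet.omega) :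
    ∃ u, π.val b = π.val (cu f u) := by
  obtain ⟨k0, hk0⟩ := ud_R2.fund (hs_vn hfS heS hbS n l) hcl (vn_mem hf he hb n l) (R2_val.2 h)
  obtain ⟨m, hm | hm⟩ := Pool.Agent.R598.SY.T_TRU.gen_nm π (nm_mem hR hf hb)
    fun r ⟨u, hr⟩ s hs => ⟨u, hr.mono hs⟩
  · obtain ⟨u, hu⟩ := hm
    exact ⟨u, (π.val_eq_iff hb (cu_mem hR hf u)).2 ⟨m, hu⟩⟩
  · exfalso
    obtain ⟨k, hk⟩ := dns_spec (π.g (max k0 m))
    have h1 : SF sy R2 (vn f e b n l) (dns k) := hk0.mono (hk.trans (π.g_le_left k0 m))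
    have h2 := en_spec ⟨e, heS, SF_R0_of hfS heS h1⟩
    set e1 := en f n k with he1
    obtain ⟨π', hc, hN, hg0⟩ := exists_cld sy {f, e, b, e1} (Set.toFinite _).countable (dns k)
    have mf : f ∈ π'.N := hN (by simp)
    have me : e ∈ π'.N := hN (by simp)
    have mb : b ∈ π'.N := hN (by simp)
    have me1 : e1 ∈ π'.N := hN (by simp)
    obtain ⟨y, hy, a1, a2, a3, -⟩ := R2_val.1 (h1 π' hc (vn_mem mf me mb n l) ⟨0, hg0.le⟩)
    obtain ⟨y', hy', b1, b2, b3, b4⟩ := R0_val.1 (h2.2 π' hc (vm_mem mf me1 n) ⟨0, hg0.le⟩)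
    obtain rfl := a2 y' hy' b1
    obtain ⟨l', hl', hbl⟩ := b3 _ a3
    obtain ⟨l', rfl⟩ := mem_omega_iff.1 hl'
    obtain ⟨m', hm'⟩ := ud_R2.fund (hs_vn hfS h2.1 hbS n l') hc (vn_mem mf me1 mb n l')
      (R2_val.2 ⟨y', hy', b1, b2, a3, hl', hbl, b3, b4⟩)
    have hq2 : π'.g m' ≤ dns k := hg0 ▸ π'.g_anti (Nat.zero_le m')
    obtain ⟨q3, hq3, c, hcS, hcE, hbc⟩ := core hfS (Ef_spec hfS) h2.1 hbS hm'
    obtain ⟨k', hk'⟩ := dns_spec q3
    have h3 : SF sy R2 (vn f e1 b n l') (dns k') := hm'.mono (hk'.trans hq3)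
    have h4 : SF sy R2 (vn f e1 c n l') (dns k') :=
      (SF.congr ud_R2 (hs_vn hfS h2.1 hbS n l') (hs_vn hfS h2.1 hcS n l')
        (vn_congr (Feq.refl _ _) (Feq.refl _ _) (hbc.mono hk'))).1 h3
    have h5 := cn_spec ⟨c, hcS, hcE, h4⟩
    have h6 := R2_uniq hbS (cn_fix _ _ _ _ _).1 h3 h5
    refine hm (dns k') ?_ ⟨Nat.pair (Nat.pair n k) (Nat.pair l' k'), ?_⟩
    · exact hk'.trans (hq3.trans (hq2.trans (hk.trans (π.g_le_right k0 m))))
    · rw [cu_eq]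
      exact h6

include hcl hR in
/-- The countable union theorem. -/
theorem cuc : CUC (sy.Ms π) := by
  intro F hF hcF hcB
  have hM := isZF_Ms hcl
  have hω := hM.infinity
  have hUM := hM.union _ hF
  obtain ⟨g, hg, hgi⟩ := hcF
  -- the sequence
  have hs := hM.sep_mem (Q := fun w => ∃ n ∈ ZFSet.omega, ∃ B ∈ F, w = pair n B ∧ pair B n ∈ g)
    (by (repeat' first | assumption | exact DfnF.proj _ | exact DfnF.const (by assumption) | exact Dfn.prop _ | apply Dfn.not | apply Dfn.and | apply Dfn.or | apply Dfn.imp | apply Dfn.iff | apply hM.base.bex | apply hM.base.ball | apply Dfn.ex | apply Dfn.all | apply Dfn.eq | apply Dfn.mem | apply hM.base.pair'))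
    (hM.prod_mem hω hF)
  set f' : ZFSet.{0} := ZFSet.sep (fun w => ∃ n ∈ ZFSet.omega, ∃ B ∈ F, w = pair n B ∧
    pair B n ∈ g) (ZFSet.prod ZFSet.omega F) with hf'
  have hmem : ∀ n B, pair n B ∈ f' ↔ n ∈ ZFSet.omega ∧ B ∈ F ∧ pair B n ∈ g := by
    intro n B
    rw [hf', ZFSet.mem_sep]
    constructor
    · rintro ⟨-, n', h1, B', h2, h3, h4⟩
      obtain ⟨rfl, rfl⟩ := ZFSet.pair_inj.1 h3
      exact ⟨h1, h2, h4⟩
    · rintro ⟨h1, h2, h3⟩
      exact ⟨ZFSet.pair_mem_prod.2 ⟨h1, h2⟩, n, h1, B, h2, rfl, h3⟩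
  obtain ⟨f, ⟨hfN, hfS⟩, hfv⟩ := hs
  -- the enumeration
  have hEn : π.val (EnN f) ∈ sy.Ms π := ⟨_, ⟨EnN_mem hR hfN, hs_EnN f⟩, rfl⟩
  have hall : ∀ b ∈ (ZFSet.sUnion F : ZFSet.{0}), ∃ u : ℕ, b = π.val (cu f u) := by
    intro b hb
    obtain ⟨B, hBF, hbB⟩ := ZFSet.mem_sUnion.1 hb
    obtain ⟨e, he, hei⟩ := hcB B hBF
    obtain ⟨n, hn, hBn⟩ := fun_exists hgi.1 hBF
    obtain ⟨n, rfl⟩ := mem_omega_iff.1 hn
    obtain ⟨l, hl, hbl⟩ := fun_exists hei.1 hbB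
    obtain ⟨l, rfl⟩ := mem_omega_iff.1 hl
    have hBM := hM.trans _ hF _ hBF
    have hbM := hM.trans _ hBM _ hbB
    obtain ⟨e, ⟨heN, heS⟩, rfl⟩ := he
    obtain ⟨b, ⟨hbN, hbS⟩, rfl⟩ := hbM
    refine exists_u hcl hR (n := n) (l := l) hfN hfS heN heS hbN hbS ?_
    rw [hfv]
    refine ⟨B, hBM, (hmem _ _).2 ⟨om_nat n, hBF, hBn⟩, fun y' _ hy' => ?_, hbB, om_nat l, hbl,
      fun z hz => fun_exists hei.1 hz, fun z _ z' _ k _ h1 h2 => hei.2 _ _ _ h1 h2⟩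
    exact hgi.2 _ _ _ ((hmem _ _).1 hy').2.2 hBn
  set En := π.val (EnN f) with hEnd
  have hEnm : ∀ u z, pair (nat u) z ∈ En ↔ z = π.val (cu f u) := by
    intro u z
    rw [hEnd, mem_EnN hR hfN]
    constructor
    · rintro ⟨u', h1⟩
      obtain ⟨h2, rfl⟩ := ZFSet.pair_inj.1 h1
      rw [nat_injective h2]
    · rintro rfl
      exact ⟨u, rfl⟩
  have hJ := hM.sep_mem (Q := fun w => ∃ b ∈ (ZFSet.sUnion F : ZFSet.{0}), ∃ u ∈ ZFSet.omega, w = pair b u ∧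
      pair u b ∈ En ∧ ∀ u' ∈ u, ¬ pair u' b ∈ En)
    (by (repeat' first | assumption | exact DfnF.proj _ | exact DfnF.const (by assumption) | exact Dfn.prop _ | apply Dfn.not | apply Dfn.and | apply Dfn.or | apply Dfn.imp | apply Dfn.iff | apply hM.base.bex | apply hM.base.ball | apply Dfn.ex | apply Dfn.all | apply Dfn.eq | apply Dfn.mem | apply hM.base.pair'))
    (hM.prod_mem hUM hω)
  refine ⟨_, hJ, ⟨fun w hw => (ZFSet.mem_sep.1 hw).1, fun b hb => ?_⟩, fun a b u ha hb => ?_⟩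
  · have h1 : ∃ u : ℕ, pair (nat u) b ∈ En := by
      obtain ⟨u, hu⟩ := hall b hb
      exact ⟨u, (hEnm u b).2 hu⟩
    classical
    let u := Nat.find h1
    have hu : pair (nat u) b ∈ En := Nat.find_spec h1
    have hu' : ∀ u' < u, ¬ pair (nat u') b ∈ En := fun u' h => Nat.find_min h1 h
    refine ⟨nat u, ZFSet.mem_sep.2 ⟨ZFSet.pair_mem_prod.2 ⟨hb, om_nat u⟩, b, hb, nat u, om_nat u,
      rfl, hu, fun u' h => ?_⟩, fun v hv => ?_⟩
    · obtain ⟨i, hi, rfl⟩ := mem_nat_iff.1 h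
      exact hu' i hi
    · obtain ⟨-, b', -, v', hv', h2, h3, h4⟩ := ZFSet.mem_sep.1 hv
      obtain ⟨rfl, rfl⟩ := ZFSet.pair_inj.1 h2
      obtain ⟨i, rfl⟩ := mem_omega_iff.1 hv'
      have h5 : ¬ i < u := fun h => hu' i h h3
      have h6 : ¬ u < i := fun h => h4 _ (nat_mem_nat' h) hu
      have h7 : i = u := by omega
      rw [h7]
  · obtain ⟨-, a', -, u', hu', h2, h3, -⟩ := ZFSet.mem_sep.1 ha
    obtain ⟨rfl, rfl⟩ := ZFSet.pair_inj.1 h2
    obtain ⟨-, b', -, u'', -, h4, h5, -⟩ := ZFSet.mem_sep.1 hb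
    obtain ⟨rfl, rfl⟩ := ZFSet.pair_inj.1 h4
    obtain ⟨i, rfl⟩ := mem_omega_iff.1 hu'
    rw [(hEnm _ _).1 h3, (hEnm _ _).1 h5]

end

end Pool.Agent.H99.CS
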