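import Pool.Agent.H99.CS.Noc

/-!
# The model has the data for the space
-/

set_option autoImplicit false

namespace Pool.Agent.H99.CS

open Pool.Agent.W868 Pool.Agent.W868.PName Pool.Agent.R598.SY Pool.Agent.R598.TY
open Pool.Agent.R598.CI (arc isOpen_arc exists_arc famN el_famN fix_famN hs_famN val_famN
  RCS mem_RCS hat_sub isZF_Ms SF UDf)
open ZFSet (pair)

/-- The coordinates of the generic point. -/
def al (xs : X) (n j : ℕ) : T := xs (some n, j)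

theorem norm_half : ‖((1 / 2 : ℝ) : T)‖ = 1 / 2 := by
  rw [UnitAddCircle.norm_eq]
  have : round (1 / 2 : ℝ) = 1 := by norm_num [round_eq]
  rw [this]
  norm_num

/-- The data for the translation of the row `n`. -/
noncomputable def hD (n : ℕ) : EpD where
  m := 0
  u _ _ := 0
  v n' _ := if n' = n then ((1 / 2 : ℝ) : T) else 0
  cu _ := continuous_const
  cv _ := continuous_const
  du _ _ _ _ := rfl
  dv _ _ _ _ := rfl
  u0 _ _ _ := rfl
  u1 := ⟨0, fun _ _ _ => rfl⟩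

/-- The automorphism that translates the row `n` and exchanges blocks. -/
noncomputable def gg (n : ℕ) (A : Finset Ix) (L : ℕ) (hA : ∀ i ∈ A, i.2 < L) : Gr :=
  (hD n).ep * pm A L hA

section gg

variable {n : ℕ} {A : Finset Ix} {L : ℕ} (hA : ∀ i ∈ A, i.2 < L)

theorem gg_none (x : X) (j : ℕ) : (gg n A L hA).1 x (none, j) = (pm A L hA).1 x (none, j) := by
  change (pm A L hA).1 x (none, j) + 0 = _
  rw [add_zero]

theorem gg_some (x : X) (m j : ℕ) : (gg n A L hA).1 x (some m, j) =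
    (pm A L hA).1 x (some m, j) + if m = n then ((1 / 2 : ℝ) : T) else 0 := rfl

theorem gg_of_ne (hAn : ∀ i ∈ A, i.1 = some n) (x : X) {i : Ix} (hi : i.1 ≠ some n) :
    (gg n A L hA).1 x i = x i := by
  obtain ⟨r, j⟩ := i
  have h1 : (r, j) ∉ A := fun h => hi (hAn _ h)
  have h2 : ∀ i, (r, i) ∈ A → j ≠ i + L := fun i h => absurd (hAn _ h) hi
  cases r with
  | none => rw [gg_none, pm_id hA x h1 h2]
  | some m =>
    have h3 : m ≠ n := fun h => hi (by rw [h])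
    rw [gg_some, if_neg h3, add_zero, pm_id hA x h1 h2]

theorem tr_gg_inv (x : X) : tr (gg n A L hA)⁻¹ n x = -((1 / 2 : ℝ) : T) := by
  refine tr_eq (M := 2 * L) fun j hj => ?_
  have h1 : (gg n A L hA)⁻¹ = pm A L hA * (hD n).ep⁻¹ := by
    rw [gg, mul_inv_rev, pm_inv]
  rw [h1, mul_app, pm_id hA]
  · rw [EpD.inv_some]
    change _ - (if n = n then ((1 / 2 : ℝ) : T) else 0) = _
    rw [if_pos rfl, sub_eq_add_neg]
  · intro h
    have := hA _ h
    simp only at this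
    omega
  · intro i hi
    have := hA _ hi
    simp only at this
    omega

end gg

namespace GP

variable {π : Pkg Cnd} {xs : X} (h : GP π xs)

include h

theorem isZF : IsZF (sy.Ms π) := isZF_Ms h.cld

theorem cN_mem (n j : ℕ) : cN (some n, j) ∈ π.N := h.ch (fun j => cN (some n, j)) j (h.an n)

theorem val_cN (n j : ℕ) : π.val (cN (some n, j)) = cd (al xs n j) := by
  rw [cN, h.val_fN (by fun_prop)]
  rfl

theorem cd_al (n j : ℕ) : cd (al xs n j) ∈ sy.Ms π :=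
  ⟨_, ⟨h.cN_mem n j, hs_cN _⟩, h.val_cN n j⟩

omit h in
theorem hat_mem {x : ZFSet.{0}} (hx : x ∈ π.Z) : π.hat x ∈ sy.Ms π :=
  ⟨check x, ⟨hx, sy.hs_check x⟩, rfl⟩

theorem q_mem : r3 Qr ∈ sy.Ms π := by
  have h1 := hat_mem h.q
  rwa [hat_r3] at h1

theorem val_AN (n : ℕ) : π.val (AN n) = As (al xs) n 0 := by
  rw [AN]
  ext z
  rw [val_famN, mem_As]
  constructor
  · rintro ⟨j, -, rfl⟩
    exact ⟨j, by rw [h.val_cN, add_zero]⟩
  · rintro ⟨j, rfl⟩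
    exact ⟨j, h.cN_mem n j, by rw [h.val_cN, add_zero]⟩

theorem val_ag_AN' {g : Gr} {n : ℕ} (hg : ag g (AN n) ∈ π.N) :
    π.val (ag g (AN n)) = As (al xs) n (tr g⁻¹ n xs) := h.val_ag_AN hg

theorem oo' {n a b b' : ℕ} (h0 : b ≠ 0) (ha : b ≠ a) (hb : b ≠ b') :
    al xs n b' + al xs n 0 ≠ al xs n b + al xs n a := by
  have h1 := h.oo (Nat.pair n (Nat.pair b (Nat.pair a b')))
  unfold OO at h1
  simp only [Nat.unpair_pair] at h1
  rw [if_pos ⟨h0, ha, hb⟩] at h1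
  exact h1

theorem As_inj {n : ℕ} {θ θ' : T} (he : As (al xs) n θ = As (al xs) n θ') : θ = θ' := by
  have key : ∀ a, ∃ b, al xs n a + θ = al xs n b + θ' := by
    intro a
    have h1 : cd (al xs n a + θ) ∈ As (al xs) n θ := mem_As.2 ⟨a, rfl⟩
    rw [he] at h1
    obtain ⟨b, hb⟩ := mem_As.1 h1
    exact ⟨b, cd_inj hb⟩
  obtain ⟨b0, hb0⟩ := key 0
  by_cases h0 : b0 = 0
  · subst h0
    exact add_left_cancel hb0
  · exfalso
    obtain ⟨f, hf⟩ := key (b0 + 1)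
    have h1 : al xs n f + al xs n 0 = al xs n (b0 + 1) + al xs n b0 := by
      have h2 : al xs n f + al xs n 0 + (θ + θ') = al xs n (b0 + 1) + al xs n b0 + (θ + θ') := by
        calc al xs n f + al xs n 0 + (θ + θ') = (al xs n f + θ') + (al xs n 0 + θ) := by abel
          _ = (al xs n (b0 + 1) + θ) + (al xs n b0 + θ') := by rw [← hf, hb0]
          _ = _ := by abel
      exact add_right_cancel h2
    by_cases h2 : f = b0
    · subst h2
      exact h.oo' (n := n) (a := f) (b := f + 1) (b' := f) (by omega) (by omega) (by omega) h1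
    · rw [add_comm (al xs n (b0 + 1))] at h1
      exact h.oo' (n := n) (a := b0 + 1) (b := b0) (b' := f) h0 (by omega) (fun h3 => h2 h3.symm) h1

theorem zero_mem' : cd (0 : T) ∈ sy.Ms π := by
  have h1 := sub_memM h.isZF h.q_mem (h.cd_al 0 0) (h.cd_al 0 0)
  rwa [sub_self] at h1

theorem neg_mem' {a : T} (ha : cd a ∈ sy.Ms π) : cd (-a) ∈ sy.Ms π := by
  have h1 := sub_memM h.isZF h.q_mem h.zero_mem' ha
  rwa [zero_sub] at h1

/-- There is no choice function for the circles. -/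
theorem noch {s : ZFSet.{0}} (hs : s ∈ sy.Ms π) : ¬ ∀ n, ∃ θ, cd θ ∈ sy.Ms π ∧
    ∀ z, pair (nat n) z ∈ s ↔ z = pt (al xs) (some (n, θ)) := by
  classical
  intro hall
  obtain ⟨σ, ⟨hσ, hσs⟩, rfl⟩ := hs
  obtain ⟨_, ⟨E, rfl⟩, hfix⟩ := hσs.sym
  obtain ⟨n, hn⟩ := Infinite.exists_notMem_finset (Rw E)
  obtain ⟨θ, hθ, hz⟩ := hall n
  obtain ⟨m0, hm0, hm0'⟩ := exists_arc (θ := -θ) (show (0 : ℝ) < 1 / 4 by norm_num)
  have hM := h.isZF
  have hpt : pt (al xs) (some (n, θ)) = pair (nat n) (As (al xs) n (0 - -θ)) := by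
    rw [sub_neg_eq_add, zero_add]
    rfl
  have hpM : pair (nat n) (As (al xs) n (0 - -θ)) ∈ sy.Ms π := by
    rw [← hpt]
    have h1 := (hz _).2 rfl
    have h2 : pair (nat n) (pt (al xs) (some (n, θ))) ∈ sy.Ms π :=
      hM.trans _ ⟨σ, ⟨hσ, hσs⟩, rfl⟩ _ h1
    exact (hM.of_pair_mem h2).2
  obtain ⟨k, hk⟩ := ud_R9.fund (hs_vr hσs (hs_AN n) n m0) h.cld (vr_mem h hσ (h.an n) n m0) (by
    rw [R9_val, h.val_AN]
    refine R9_in (θ := -θ) (h.neg_mem' hθ) (hM.of_pair_mem hpM).2 hpM hm0 fun z => ?_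
    rw [hz, hpt])
  set U := π.g k with hU
  have hxU : xs ∈ U.1 := (h.gen U).1 ⟨k, le_rfl⟩
  obtain ⟨S, δ, hδ, hS⟩ := exists_box U.2.1 hxU
  let A : Finset Ix := S.filter fun i => i.1 = some n
  let L : ℕ := S.sup Prod.snd + 1
  have hSL : ∀ i ∈ S, i.2 < L := fun i hi => by
    have : i.2 ≤ S.sup Prod.snd := Finset.le_sup (f := Prod.snd) hi
    omega
  have hA : ∀ i ∈ A, i.2 < L := fun i hi => hSL i (Finset.mem_filter.1 hi).1
  have hAn : ∀ i ∈ A, i.1 = some n := fun i hi => (Finset.mem_filter.1 hi).2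
  let g : Gr := gg n A L hA
  have hgE : g ∈ Kf E := by
    intro x i hi
    refine gg_of_ne hA hAn x fun h1 => hn (mem_Rw.2 ⟨i.2, ?_⟩)
    rw [← h1]
    exact hi
  let x1 : X := fun i => if L ≤ i.2 ∧ (i.1, i.2 - L) ∈ A then
    xs (i.1, i.2 - L) - ((1 / 2 : ℝ) : T) else xs i
  have hx1lt : ∀ i ∈ S, x1 i = xs i := by
    intro i hi
    have h1 := hSL i hi
    change (if L ≤ i.2 ∧ (i.1, i.2 - L) ∈ A then _ else xs i) = _
    rw [if_neg (by omega)]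
  have hx1U : x1 ∈ U.1 := by
    apply hS
    intro i hi
    rw [hx1lt i hi, sub_self, norm_zero]
    exact hδ
  have hgx1U : g.1 x1 ∈ U.1 := by
    apply hS
    intro i hi
    by_cases hin : i.1 = some n
    · obtain ⟨r, j⟩ := i
      have hr : r = some n := hin
      subst hr
      have hiA : (some n, j) ∈ A := Finset.mem_filter.2 ⟨hi, rfl⟩
      have h1 : x1 (some n, j + L) = xs (some n, j) - ((1 / 2 : ℝ) : T) := by
        change (if L ≤ j + L ∧ (some n, j + L - L) ∈ A then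
          xs (some n, j + L - L) - ((1 / 2 : ℝ) : T) else xs (some n, j + L)) = _
        rw [Nat.add_sub_cancel, if_pos ⟨by omega, hiA⟩]
      change ‖(gg n A L hA).1 x1 (some n, j) - _‖ < δ
      rw [gg_some, if_pos rfl, pm_mem hA _ hiA, h1, sub_add_cancel, sub_self, norm_zero]
      exact hδ
    · change ‖(gg n A L hA).1 x1 i - _‖ < δ
      rw [gg_of_ne hA hAn x1 hin, hx1lt i hi, sub_self, norm_zero]
      exact hδ
  let q : Cnd := ⟨U.1 ∩ (acH g U).1, U.2.1.inter (acH g U).2.1, g.1 x1, hgx1U, by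
    rw [mem_ac, inv_g]
    exact hx1U⟩
  have hqU : q ≤ U := fun x hx => hx.1
  have hqgU : q ≤ acH g U := fun x hx => hx.2
  have s1 : SF sy R9 (vr σ (AN n) n m0) q := hk.mono hqU
  have s2 : SF sy R9 (vr σ (ag g (AN n)) n m0) q := by
    have h1 := (SF.act ud_R9 (hs_vr hσs (hs_AN n) n m0) g).2 hk
    have h2 : act (sy.ac g) ∘ vr σ (AN n) n m0 = vr (ag g σ) (ag g (AN n)) n m0 :=
      act_vr g σ (AN n) n m0
    rw [h2] at h1
    have h3 : SF sy R9 (vr (ag g σ) (ag g (AN n)) n m0) q := SF.mono h1 hqgU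
    exact (SF.congr ud_R9 (hs_vr (hs_ag hσs g) (hs_ag (hs_AN n) g) n m0)
      (hs_vr hσs (hs_ag (hs_AN n) g) n m0)
      (vr_congr (fix_iff.1 hfix g hgE q) (Feq.refl _ _))).1 h3
  obtain ⟨π', xs', h', hN, hg0, -⟩ := exists_GP {σ, ag g (AN n)} (Set.toFinite _).countable ∅
    Set.countable_empty q
  have mσ : σ ∈ π'.N := hN (Or.inl rfl)
  have mg : ag g (AN n) ∈ π'.N := hN (Or.inr rfl)
  have e1 := R9_val.1 (s1 π' h'.cld (vr_mem h' mσ (h'.an n) n m0) ⟨0, hg0.le⟩)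
  have e2 := R9_val.1 (s2 π' h'.cld (vr_mem h' mσ mg n m0) ⟨0, hg0.le⟩)
  rw [h'.val_AN] at e1
  rw [h'.val_ag_AN' mg] at e2
  obtain ⟨θ1, h1, h2, h3⟩ := R9_out e1
  obtain ⟨θ2, h4, h5, -⟩ := R9_out e2
  have h6 := h3 _ h5
  have h7 := h'.As_inj (ZFSet.pair_inj.1 h6).2
  have h8 : tr g⁻¹ n xs' = -((1 / 2 : ℝ) : T) := tr_gg_inv hA xs'
  rw [h8] at h7
  have h9 : ((1 / 2 : ℝ) : T) = (θ1 - -θ) - (θ2 - -θ) := by
    have h10 : ((1 / 2 : ℝ) : T) = -(-((1 / 2 : ℝ) : T) - θ2) - θ2 := by abel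
    rw [h10, h7]
    abel
  have h10 := norm_sub_le (θ1 - -θ) (θ2 - -θ)
  rw [← h9, norm_half] at h10
  have h11 := hm0' θ1 h1
  have h12 := hm0' θ2 h4
  linarith

theorem on1 {w : ZFSet.{0}} (hw : w ∈ π.val OnN) : ∃ n θ, cd θ ∈ sy.Ms π ∧
    w = pair (nat n) (As (al xs) n θ) := by
  obtain ⟨y, hy, c, hc, -, rfl⟩ := π.mem_val.1 hw
  obtain ⟨g, n, rfl, -⟩ := sy.el_orb.1 hc
  have h1 : act (sy.ac g) (opN (check (nat n)) (AN n)) = opN (check (nat n)) (ag g (AN n)) := by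
    have h2 := ag_opN g (check (nat n)) (AN n)
    rw [ag_check] at h2
    exact h2
  rw [h1] at hy ⊢
  have h3 : ag g (AN n) ∈ π.N := π.snd_mem hy
  have h4 : ag g (cN (some n, 0)) ∈ π.N := by
    have h5 := h3
    rw [AN, ag_famN] at h5
    exact h.ch _ 0 h5
  have h6 : cd (((g⁻¹ : Gr)).1 xs (some n, 0)) ∈ sy.Ms π :=
    ⟨_, ⟨h4, hs_ag (hs_cN _) g⟩, h.val_ag_cN g _⟩
  rw [g_some] at h6
  have h7 := sub_memM h.isZF h.q_mem h6 (h.cd_al n (sr (g⁻¹ : Gr) n 0))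
  have h8 : xs (some n, sr (g⁻¹ : Gr) n 0) + tr (g⁻¹ : Gr) n xs - al xs n (sr (g⁻¹ : Gr) n 0) =
      tr (g⁻¹ : Gr) n xs := add_sub_cancel_left _ _
  rw [h8] at h7
  refine ⟨n, tr (g⁻¹ : Gr) n xs, h7, ?_⟩
  rw [π.val_opN (π.nat_Z n) h3, h.val_ag_AN' h3]
  congr 1
  exact π.hat_nat n

theorem on2 (n : ℕ) : pair (nat n) (As (al xs) n 0) ∈ π.val OnN := by
  have h1 : opN (check (nat n)) (AN n) ∈ π.N := π.opN_mem (π.nat_Z n) (h.an n)
  refine π.mem_val.2 ⟨_, h1, ⊤, sy.el_orb_one (fun n => opN (check (nat n)) (AN n)) n,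
    ⟨0, le_top⟩, ?_⟩
  rw [π.val_opN (π.nat_Z n) (h.an n), h.val_AN]
  congr 1
  exact π.hat_nat n

theorem rcs_mem : RCS ∈ sy.Ms π := by
  have h1 := hat_mem h.rcs
  have h2 : π.hat RCS = RCS := by
    ext z
    rw [π.mem_hat]
    constructor
    · rintro ⟨y, hy, hyZ, rfl⟩
      obtain ⟨-, q, t, hqt, rfl⟩ := ZFSet.mem_sep.1 hy
      rw [π.hat_pair (π.nat_Z _) (π.nat_Z _), π.hat_nat, π.hat_nat]
      exact mem_RCS.2 ⟨q, t, hqt, rfl, rfl⟩
    · intro hz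
      obtain ⟨-, q, t, hqt, rfl⟩ := ZFSet.mem_sep.1 hz
      refine ⟨_, hz, π.pair_mem_Z (π.nat_Z _) (π.nat_Z _), ?_⟩
      rw [π.hat_pair (π.nat_Z _) (π.nat_Z _), π.hat_nat, π.hat_nat]
  rwa [h2] at h1

theorem mem_mem : Pool.Agent.R598.TY.Mem ∈ sy.Ms π := by
  have h1 := hat_mem h.mem
  have h2 : π.hat Pool.Agent.R598.TY.Mem = Pool.Agent.R598.TY.Mem := by
    ext z
    rw [π.mem_hat]
    constructor
    · rintro ⟨y, hy, hyZ, rfl⟩
      obtain ⟨-, q, t, hqt, rfl⟩ := ZFSet.mem_sep.1 hy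
      rw [π.hat_pair (π.nat_Z _) (π.nat_Z _), π.hat_nat, π.hat_nat]
      exact Pool.Agent.R598.TY.mem_Mem.2 hqt
    · intro hz
      obtain ⟨-, q, t, hqt, rfl⟩ := ZFSet.mem_sep.1 hz
      refine ⟨_, hz, π.pair_mem_Z (π.nat_Z _) (π.nat_Z _), ?_⟩
      rw [π.hat_pair (π.nat_Z _) (π.nat_Z _), π.hat_nat, π.hat_nat]
  rwa [h2] at h1

theorem z0_mem : real 0 ∈ sy.Ms π := by
  have h1 := hat_mem h.z0
  rwa [hat_sub π (real_sub _) h.z0] at h1

omit h in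
theorem r3_mem {R : ℕ → ℕ → ℕ → Prop} (hR : r3 R ∈ π.Z) : r3 R ∈ sy.Ms π := by
  have h1 := hat_mem hR
  rwa [hat_r3] at h1

omit h in
theorem r2_mem {R : ℕ → ℕ → Prop} (hR : r2 R ∈ π.Z) : r2 R ∈ sy.Ms π := by
  have h1 := hat_mem hR
  rwa [hat_r2] at h1

theorem dat : Dat (sy.Ms π) (al xs) (π.val OnN) where
  zf := h.isZF
  q := r3_mem h.q
  i := r2_mem h.i
  s := r2_mem h.s
  c := r2_mem h.c
  n := r3_mem h.n
  p := r2_mem h.p
  e := r3_mem h.e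
  rcs := h.rcs_mem
  mem := h.mem_mem
  z0 := h.z0_mem
  on := ⟨OnN, ⟨h.on, hs_OnN⟩, rfl⟩
  on1 _ hw := h.on1 hw
  on2 := h.on2
  inj _ _ _ := h.As_inj
  al := h.cd_al
  noch _ hs := h.noch hs

end GP

end Pool.Agent.H99.CS
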