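import Pool.Agent.H99.CS.Core
import Pool.Graph.R_seed8.R598.CI.Ds

/-!
# Generic points
-/

set_option autoImplicit false

namespace Pool.Agent.H99.CS

open Pool.Agent.W868 Pool.Agent.W868.PName Pool.Agent.R598.SY Pool.Agent.R598.CI
open ZFSet (pair)

/-- The points whose coordinate `i` is in the arc `m`. -/
def Vs (i : Ix) (m : ℕ) : Set X := {x | x i ∈ arc m}

theorem isOpen_Vs (i : Ix) (m : ℕ) : IsOpen (Vs i m) := (isOpen_arc m).preimage (continuous_apply i)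

theorem exists_closure {U : Set X} (hU : IsOpen U) {z : X} (hz : z ∈ U) :
    ∃ W : Cnd, z ∈ W.1 ∧ closure W.1 ⊆ U := by
  obtain ⟨S, δ, hδ, h⟩ := exists_box hU hz
  refine ⟨⟨Box z S (δ / 2), isOpen_box _ _ _, z, mem_box_self _ _ (by positivity)⟩,
    mem_box_self _ _ (by positivity), ?_⟩
  have h1 : closure (Box z S (δ / 2)) ⊆ ⋂ i ∈ S, {x : X | ‖x i - z i‖ ≤ δ / 2} := by
    refine closure_minimal (fun x hx => ?_) ?_
    · rw [Set.mem_iInter₂]
      exact fun i hi => (hx i hi).le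
    · exact isClosed_biInter fun i _ => isClosed_le (by fun_prop) continuous_const
  refine h1.trans (fun x hx => h fun i hi => ?_)
  have h2 : ‖x i - z i‖ ≤ δ / 2 := Set.mem_iInter₂.1 hx i hi
  linarith

/-- The rule for regularity. -/
def rCl : Rule Cnd := fun q => (Sys.nm Cnd {W | closure W.1 ⊆ q.p.1}, q.p)

theorem exists_gen (O : ℕ → Set X) (hO : ∀ n, IsOpen (O n)) (hO' : ∀ n, Dense (O n))
    (A : Set (PName Cnd)) (hA : A.Countable) (R : Set (Rule Cnd)) (hR : R.Countable) (p : Cnd) :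
    ∃ (π : Pkg Cnd) (xs : X), sy.Cld π ∧ A ⊆ π.N ∧ π.g 0 = p ∧
      (∀ U : Cnd, (∃ k, π.g k ≤ U) ↔ xs ∈ U.1) ∧ (∀ n, xs ∈ O n) ∧
      ∀ ρ ∈ R, ∀ q : Query Cnd, q.In π.N π.C → (ρ q).1 ∈ π.N ∧ (ρ q).2 ∈ π.C := by
  classical
  obtain ⟨π, h1, h2, h3⟩ := exists_pkg ((sy.rules ∪ {rCl}) ∪ R)
    (((Set.Finite.countable (by
      unfold Sys.rules
      exact Set.toFinite _)).union (Set.countable_singleton _)).union hR)
    ((A ∪ Set.range fun t : Ix × ℕ => Sys.nm Cnd {W | W.1 ⊆ Vs t.1 t.2 ∨ Disjoint W.1 (Vs t.1 t.2)})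
      ∪ Set.range fun n : ℕ => Sys.nm Cnd {W | W.1 ⊆ O n})
    ((hA.union (Set.countable_range _)).union (Set.countable_range _)) p
  have hcl : sy.Cld π := fun ρ hρ => h3 ρ (Or.inl (Or.inl hρ))
  -- regularity
  have c1 : ∀ k, ∃ k', closure (π.g k').1 ⊆ (π.g k).1 := by
    intro k
    have h4 := (h3 rCl (Or.inl (Or.inr rfl)) _ (query2 π.om π.om (π.gC k))).1
    obtain ⟨k', h5 | h5⟩ := Pool.Agent.R598.SY.T_TRU.gen_nm π h4 fun r hr s hs =>
      (closure_mono (show s.1 ⊆ r.1 from hs)).trans hr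
    · exact ⟨k', h5⟩
    · exfalso
      obtain ⟨z, hz⟩ := (π.g (max k k')).2.2
      obtain ⟨W, hW, hW'⟩ := exists_closure (π.g (max k k')).2.1 hz
      refine h5 W ?_ (hW'.trans (π.g_le_left k k'))
      exact fun x hx => π.g_le_right k k' (hW' (subset_closure hx))
  obtain ⟨xs, hxs⟩ : (⋂ k, closure (π.g k).1).Nonempty := by
    refine IsCompact.nonempty_iInter_of_sequence_nonempty_isCompact_isClosed _
      (fun k => closure_mono (π.anti k)) (fun k => (π.g k).2.2.closure) ?_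
      fun k => isClosed_closure
    exact isClosed_closure.isCompact
  rw [Set.mem_iInter] at hxs
  have c2 : ∀ k, xs ∈ (π.g k).1 := by
    intro k
    obtain ⟨k', hk'⟩ := c1 k
    exact hk' (hxs k')
  have c3 : ∀ i m, xs ∈ Vs i m → ∃ k, (π.g k).1 ⊆ Vs i m := by
    intro i m hm
    have h4 : Sys.nm Cnd {W | W.1 ⊆ Vs i m ∨ Disjoint W.1 (Vs i m)} ∈ π.N :=
      h1 (Or.inl (Or.inr ⟨(i, m), rfl⟩))
    obtain ⟨k, h5 | h5⟩ := Pool.Agent.R598.SY.T_TRU.gen_nm π h4 (by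
      rintro r (hr | hr) s hs
      · exact Or.inl ((show s.1 ⊆ r.1 from hs).trans hr)
      · exact Or.inr (hr.mono_left hs))
    · rcases h5 with h5 | h5
      · exact ⟨k, h5⟩
      · exact absurd hm (Set.disjoint_left.1 h5 (c2 k))
    · exfalso
      by_cases h6 : ((π.g k).1 ∩ Vs i m).Nonempty
      · exact h5 ⟨(π.g k).1 ∩ Vs i m, (π.g k).2.1.inter (isOpen_Vs i m), h6⟩
          (fun x hx => hx.1) (Or.inl fun x hx => hx.2)
      · refine h5 (π.g k) le_rfl (Or.inr ?_)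
        rw [Set.not_nonempty_iff_eq_empty] at h6
        exact Set.disjoint_iff_inter_eq_empty.2 h6
  have c4 : ∀ (S : Finset Ix) (δ : ℝ), 0 < δ → ∃ k, (π.g k).1 ⊆ Box xs S δ := by
    intro S δ hδ
    induction S using Finset.induction_on with
    | empty => exact ⟨0, fun x _ i hi => by simp at hi⟩
    | insert i S _ ih =>
      obtain ⟨k, hk⟩ := ih
      obtain ⟨m, hm, hm'⟩ := exists_arc (θ := xs i) hδ
      obtain ⟨k', hk'⟩ := c3 i m hm
      refine ⟨max k k', fun x hx j hj => ?_⟩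
      rcases Finset.mem_insert.1 hj with rfl | hj
      · exact hm' _ (hk' (π.g_le_right k k' hx))
      · exact hk (π.g_le_left k k' hx) j hj
  refine ⟨π, xs, hcl, fun x hx => h1 (Or.inl (Or.inl hx)), h2, fun U => ?_, fun n => ?_,
    fun ρ hρ => h3 ρ (Or.inr hρ)⟩
  · constructor
    · rintro ⟨k, hk⟩
      exact hk (c2 k)
    · intro hx
      obtain ⟨S, δ, hδ, h4⟩ := exists_box U.2.1 hx
      obtain ⟨k, hk⟩ := c4 S δ hδ
      exact ⟨k, fun x hx => h4 (hk hx)⟩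
  · have h4 : Sys.nm Cnd {W | W.1 ⊆ O n} ∈ π.N := h1 (Or.inr ⟨n, rfl⟩)
    obtain ⟨k, h5 | h5⟩ := Pool.Agent.R598.SY.T_TRU.gen_nm π h4 fun r hr s hs => (show s.1 ⊆ r.1 from hs).trans hr
    · exact h5 (c2 k)
    · exfalso
      have h6 : ((π.g k).1 ∩ O n).Nonempty := (hO' n).inter_open_nonempty _ (π.g k).2.1 (π.g k).2.2
      exact h5 ⟨(π.g k).1 ∩ O n, (π.g k).2.1.inter (hO n), h6⟩ (fun x hx => hx.1) fun x hx => hx.2

/-! ### A dense sequence of conditions -/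

theorem exists_dns : ∃ D : ℕ → Cnd, ∀ U : Cnd, ∃ k, D k ≤ U := by
  obtain ⟨B, hB, -, hB'⟩ := TopologicalSpace.exists_countable_basis X
  have h1 : {U : Cnd | U.1 ∈ B}.Countable := by
    have h2 : {U : Cnd | U.1 ∈ B} = (Subtype.val : Cnd → Set X) ⁻¹' B := rfl
    rw [h2]
    exact hB.preimage Subtype.val_injective
  have h3 : {U : Cnd | U.1 ∈ B}.Nonempty := by
    obtain ⟨V, hV, h0, -⟩ := hB'.exists_subset_of_mem_open (Set.mem_univ (0 : X)) isOpen_univ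
    exact ⟨⟨V, hB'.isOpen hV, 0, h0⟩, hV⟩
  obtain ⟨D, hD⟩ := h1.exists_eq_range h3
  refine ⟨D, fun U => ?_⟩
  obtain ⟨x, hx⟩ := U.2.2
  obtain ⟨V, hV, h0, hVU⟩ := hB'.exists_subset_of_mem_open hx U.2.1
  have h4 : (⟨V, hB'.isOpen hV, x, h0⟩ : Cnd) ∈ {U : Cnd | U.1 ∈ B} := hV
  rw [hD] at h4
  obtain ⟨k, hk⟩ := h4
  exact ⟨k, fun y hy => hVU (by rw [hk] at hy; exact hy)⟩

/-- The dense sequence of conditions. -/
noncomputable def dns : ℕ → Cnd := exists_dns.choose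

theorem dns_spec (U : Cnd) : ∃ k, dns k ≤ U := exists_dns.choose_spec U

end Pool.Agent.H99.CS
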