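import Mathlib

/-!
# The group of homeomorphisms
-/

set_option autoImplicit false

namespace Pool.Agent.H99.CS

/-- The circle. -/
abbrev T : Type := UnitAddCircle

/-- The coordinates. The row `none` is the row of the parameters. -/
abbrev Ix : Type := Option ℕ × ℕ

/-- The space of the generic points. -/
abbrev X : Type := Ix → T

/-! ### Boxes -/

/-- The box. -/
def Box (z : X) (S : Finset Ix) (δ : ℝ) : Set X := {x | ∀ i ∈ S, ‖x i - z i‖ < δ}

theorem isOpen_box (z : X) (S : Finset Ix) (δ : ℝ) : IsOpen (Box z S δ) := by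
  have h : Box z S δ = ⋂ i ∈ S, {x : X | ‖x i - z i‖ < δ} := by
    ext x
    simp [Box]
  rw [h]
  refine isOpen_biInter_finset fun i _ => ?_
  exact isOpen_lt (by fun_prop) continuous_const

theorem mem_box_self (z : X) (S : Finset Ix) {δ : ℝ} (hδ : 0 < δ) : z ∈ Box z S δ := by
  intro i _
  rw [sub_self, norm_zero]
  exact hδ

theorem exists_box {U : Set X} (hU : IsOpen U) {z : X} (hz : z ∈ U) :
    ∃ (S : Finset Ix) (δ : ℝ), 0 < δ ∧ Box z S δ ⊆ U := by
  obtain ⟨I, u, h1, h2⟩ := isOpen_pi_iff.1 hU z hz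
  have key : ∀ J : Finset Ix, J ⊆ I → ∃ δ : ℝ, 0 < δ ∧ ∀ i ∈ J, ∀ a : T, ‖a - z i‖ < δ → a ∈ u i := by
    intro J
    induction J using Finset.induction_on with
    | empty => exact fun _ => ⟨1, one_pos, fun i hi => by simp at hi⟩
    | insert a J ha ih =>
      intro hJ
      obtain ⟨δ, hδ, h3⟩ := ih ((Finset.subset_insert _ _).trans hJ)
      have h4 := h1 a (hJ (Finset.mem_insert_self _ _))
      obtain ⟨ε, hε, h5⟩ := Metric.isOpen_iff.1 h4.1 _ h4.2
      refine ⟨min δ ε, lt_min hδ hε, fun i hi b hb => ?_⟩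
      rcases Finset.mem_insert.1 hi with rfl | hi
      · apply h5
        rw [Metric.mem_ball, dist_eq_norm]
        exact hb.trans_le (min_le_right _ _)
      · exact h3 i hi b (hb.trans_le (min_le_left _ _))
  obtain ⟨δ, hδ, h3⟩ := key I (Finset.Subset.refl _)
  exact ⟨I, δ, hδ, fun x hx => h2 fun i hi => h3 i hi _ (hx i hi)⟩

theorem box_mono {z : X} {S S' : Finset Ix} {δ δ' : ℝ} (hS : S' ⊆ S) (hδ : δ ≤ δ') :
    Box z S δ ⊆ Box z S' δ' := fun _ hx i hi => (hx i (hS hi)).trans_le hδ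

/-! ### Finite dependence on the parameters -/

/-- The function depends only on finitely many parameters. -/
def Dep {α : Type} (f : X → α) : Prop :=
  ∃ m : ℕ, ∀ x x' : X, (∀ j < m, x (none, j) = x' (none, j)) → f x = f x'

theorem Dep.comp {α : Type} {f : X → α} (hf : Dep f) {g : X → X}
    (hg : ∀ j, Dep fun x => g x (none, j)) : Dep fun x => f (g x) := by
  obtain ⟨m, hm⟩ := hf
  choose k hk using hg
  refine ⟨(Finset.range m).sup k, fun x x' h => hm _ _ fun j hj => hk j _ _ fun i hi => h i ?_⟩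
  exact hi.trans_le (Finset.le_sup (f := k) (Finset.mem_range.2 hj))

theorem Dep.map₂ {α β γ : Type} {f : X → α} {g : X → β} (hf : Dep f) (hg : Dep g)
    (F : α → β → γ) : Dep fun x => F (f x) (g x) := by
  obtain ⟨m, hm⟩ := hf
  obtain ⟨k, hk⟩ := hg
  refine ⟨max m k, fun x x' h => ?_⟩
  beta_reduce
  rw [hm x x' fun j hj => h j (hj.trans_le (le_max_left _ _)),
    hk x x' fun j hj => h j (hj.trans_le (le_max_right _ _))]

theorem Dep.map {α β : Type} {f : X → α} (hf : Dep f) (F : α → β) : Dep fun x => F (f x) := by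
  obtain ⟨m, hm⟩ := hf
  exact ⟨m, fun x x' h => by
    beta_reduce
    rw [hm x x' h]⟩

theorem dep_const {α : Type} (a : α) : Dep fun _ : X => a := ⟨0, fun _ _ _ => rfl⟩

theorem dep_coord (j : ℕ) : Dep fun x : X => x (none, j) :=
  ⟨j + 1, fun _ _ h => h j (Nat.lt_succ_self j)⟩

/-! ### The group -/

/-- The homeomorphisms in the group. -/
structure IsG (g : X ≃ₜ X) : Prop where
  dep : ∀ j, Dep fun x => g x (none, j)
  dep' : ∀ j, Dep fun x => g.symm x (none, j)
  cof : ∃ m, ∀ j ≥ m, ∀ x, g x (none, j) = x (none, j)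
  row : ∀ n, ∃ (s : Equiv.Perm ℕ) (t : X → T), (∃ m, ∀ j ≥ m, s j = j) ∧ Dep t ∧
    ∀ x j, g x (some n, j) = x (some n, s j) + t x

theorem IsG.one : IsG 1 where
  dep j := dep_coord j
  dep' j := dep_coord j
  cof := ⟨0, fun _ _ _ => rfl⟩
  row n := ⟨1, fun _ => 0, ⟨0, fun _ _ => rfl⟩, dep_const _, fun x j => by
    rw [add_zero]
    rfl⟩

theorem IsG.mul {g h : X ≃ₜ X} (hg : IsG g) (hh : IsG h) : IsG (g * h) where
  dep j := (hg.dep j).comp hh.dep
  dep' j := (hh.dep' j).comp hg.dep'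
  cof := by
    obtain ⟨m, hm⟩ := hg.cof
    obtain ⟨k, hk⟩ := hh.cof
    refine ⟨max m k, fun j hj x => ?_⟩
    change g (h x) (none, j) = _
    rw [hm j ((le_max_left _ _).trans hj), hk j ((le_max_right _ _).trans hj)]
  row n := by
    obtain ⟨s, t, ⟨m, hm⟩, ht, h1⟩ := hg.row n
    obtain ⟨s', t', ⟨m', hm'⟩, ht', h2⟩ := hh.row n
    refine ⟨s.trans s', fun x => t' x + t (h x), ⟨max m m', fun j hj => ?_⟩,
      Dep.map₂ ht' (ht.comp hh.dep) fun a b => a + b, fun x j => ?_⟩
    · rw [Equiv.trans_apply, hm j ((le_max_left _ _).trans hj),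
        hm' j ((le_max_right _ _).trans hj)]
    · change g (h x) (some n, j) = _
      rw [h1, h2, Equiv.trans_apply, add_assoc]

theorem IsG.inv {g : X ≃ₜ X} (hg : IsG g) : IsG g⁻¹ where
  dep := hg.dep'
  dep' := hg.dep
  cof := by
    obtain ⟨m, hm⟩ := hg.cof
    refine ⟨m, fun j hj x => ?_⟩
    change g.symm x (none, j) = _
    have h := hm j hj (g.symm x)
    rw [g.apply_symm_apply] at h
    exact h.symm
  row n := by
    obtain ⟨s, t, ⟨m, hm⟩, ht, h1⟩ := hg.row n
    refine ⟨s.symm, fun x => - t (g.symm x), ⟨m, fun j hj => ?_⟩,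
      (ht.comp hg.dep').map fun a => -a, fun x j => ?_⟩
    · rw [Equiv.symm_apply_eq, hm j hj]
    · change g.symm x (some n, j) = _
      have h := h1 (g.symm x) (s.symm j)
      rw [g.apply_symm_apply, Equiv.apply_symm_apply] at h
      rw [h, add_neg_cancel_right]

/-- The group. -/
def Gr : Subgroup (X ≃ₜ X) where
  carrier := {g | IsG g}
  mul_mem' h h' := h.mul h'
  one_mem' := IsG.one
  inv_mem' h := h.inv

theorem mul_app (g h : Gr) (x : X) : (g * h).1 x = g.1 (h.1 x) := rfl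

theorem inv_app (g : Gr) (x : X) : (g⁻¹).1 x = g.1.symm x := rfl

theorem inv_g (g : Gr) (x : X) : (g⁻¹).1 (g.1 x) = x := g.1.symm_apply_apply x

theorem g_inv (g : Gr) (x : X) : g.1 ((g⁻¹).1 x) = x := g.1.apply_symm_apply x

/-- The elements that fix the coordinates in `E`. -/
def Kf (E : Finset Ix) : Subgroup Gr where
  carrier := {g | ∀ x : X, ∀ i ∈ E, g.1 x i = x i}
  mul_mem' := by
    intro g h hg hh x i hi
    rw [mul_app, hg _ i hi, hh _ i hi]
  one_mem' _ _ _ := rfl
  inv_mem' := by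
    intro g hg x i hi
    have h := hg ((g⁻¹).1 x) i hi
    rw [g_inv] at h
    exact h.symm

theorem mem_Kf {E : Finset Ix} {g : Gr} : g ∈ Kf E ↔ ∀ x : X, ∀ i ∈ E, g.1 x i = x i := Iff.rfl

theorem Kf_mono {E E' : Finset Ix} (h : E ⊆ E') : Kf E' ≤ Kf E :=
  fun _ hg x i hi => hg x i (h hi)

/-- Every coordinate of the image depends only on finitely many coordinates. -/
theorem exists_dep (g : Gr) (i : Ix) : ∃ E : Finset Ix, ∀ x x' : X,
    (∀ j ∈ E, x j = x' j) → g.1 x i = g.1 x' i := by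
  classical
  obtain ⟨r, j⟩ := i
  cases r with
  | none =>
    obtain ⟨m, hm⟩ := g.2.dep j
    refine ⟨(Finset.range m).image fun i => (none, i), fun x x' h => hm x x' fun i hi => h _ ?_⟩
    exact Finset.mem_image.2 ⟨i, Finset.mem_range.2 hi, rfl⟩
  | some n =>
    obtain ⟨s, t, -, ⟨m, hm⟩, h1⟩ := g.2.row n
    refine ⟨insert (some n, s j) ((Finset.range m).image fun i => (none, i)), fun x x' h => ?_⟩
    rw [h1, h1, h _ (Finset.mem_insert_self _ _), hm x x' fun i hi => h _ ?_]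
    exact Finset.mem_insert_of_mem (Finset.mem_image.2 ⟨i, Finset.mem_range.2 hi, rfl⟩)

theorem exists_dep' (g : Gr) (E : Finset Ix) : ∃ E' : Finset Ix, ∀ x x' : X,
    (∀ j ∈ E', x j = x' j) → ∀ i ∈ E, g.1 x i = g.1 x' i := by
  classical
  choose F hF using exists_dep g
  exact ⟨E.biUnion F, fun x x' h i hi => hF i x x' fun j hj =>
    h j (Finset.mem_biUnion.2 ⟨i, hi, hj⟩)⟩

theorem Kf_conj (E : Finset Ix) (g : Gr) : ∃ E' : Finset Ix, ∀ k ∈ Kf E', g⁻¹ * k * g ∈ Kf E := by
  obtain ⟨E', hE'⟩ := exists_dep' g⁻¹ E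
  refine ⟨E', fun k hk x i hi => ?_⟩
  rw [mul_app, mul_app, hE' _ (g.1 x) (fun j hj => hk _ j hj) i hi, inv_g]

/-! ### Permutations of the coordinates -/

/-- The permutation of the coordinates, row by row. -/
def permH (s : Option ℕ → Equiv.Perm ℕ) : X ≃ₜ X where
  toFun x := fun i => x (i.1, s i.1 i.2)
  invFun x := fun i => x (i.1, (s i.1).symm i.2)
  left_inv x := by
    funext i
    simp
  right_inv x := by
    funext i
    simp
  continuous_toFun := by fun_prop
  continuous_invFun := by fun_prop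

theorem permH_apply (s : Option ℕ → Equiv.Perm ℕ) (x : X) (r : Option ℕ) (j : ℕ) :
    permH s x (r, j) = x (r, s r j) := rfl

theorem isG_permH {s : Option ℕ → Equiv.Perm ℕ} (hs : ∀ r, ∃ m, ∀ j ≥ m, s r j = j) :
    IsG (permH s) where
  dep j := dep_coord _
  dep' j := dep_coord _
  cof := by
    obtain ⟨m, hm⟩ := hs none
    exact ⟨m, fun j hj x => by rw [permH_apply, hm j hj]⟩
  row n := ⟨s (some n), fun _ => 0, hs _, dep_const _, fun x j => by rw [permH_apply, add_zero]⟩

/-! ### Shears -/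

/-- The shear. -/
def shear (w : X → X) (hw : Continuous w) (h : ∀ x, w (x + w x) = w x)
    (h' : ∀ x, w (x - w x) = w x) : X ≃ₜ X where
  toFun x := x + w x
  invFun x := x - w x
  left_inv x := by
    beta_reduce
    rw [h, add_sub_cancel_right]
  right_inv x := by
    beta_reduce
    rw [h', sub_add_cancel]
  continuous_toFun := by fun_prop
  continuous_invFun := by fun_prop

theorem shear_apply {w : X → X} {hw : Continuous w} {h : ∀ x, w (x + w x) = w x}
    {h' : ∀ x, w (x - w x) = w x} (x : X) : shear w hw h h' x = x + w x := rfl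

theorem shear_symm_apply {w : X → X} {hw : Continuous w} {h : ∀ x, w (x + w x) = w x}
    {h' : ∀ x, w (x - w x) = w x} (x : X) : (shear w hw h h').symm x = x - w x := rfl

theorem isG_shear {w : X → X} {hw : Continuous w} {h : ∀ x, w (x + w x) = w x}
    {h' : ∀ x, w (x - w x) = w x} (h1 : ∀ j, Dep fun x => w x (none, j))
    (h2 : ∃ m, ∀ j ≥ m, ∀ x, w x (none, j) = 0)
    (h3 : ∀ n, ∃ t : X → T, Dep t ∧ ∀ x j, w x (some n, j) = t x) :
    IsG (shear w hw h h') where
  dep j := Dep.map₂ (dep_coord j) (h1 j) fun a b => a + b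
  dep' j := Dep.map₂ (dep_coord j) (h1 j) fun a b => a - b
  cof := by
    obtain ⟨m, hm⟩ := h2
    refine ⟨m, fun j hj x => ?_⟩
    rw [shear_apply, Pi.add_apply, hm j hj, add_zero]
  row n := by
    obtain ⟨t, ht, h4⟩ := h3 n
    refine ⟨1, t, ⟨0, fun _ _ => rfl⟩, ht, fun x j => ?_⟩
    rw [shear_apply, Pi.add_apply, h4]
    rfl

end Pool.Agent.H99.CS
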