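import Pool.Agent.H99.CS.Spc
import Pool.Agent.H99.CS.Stm

/-!
# The space of circles is a compact metrizable space that is not separable
-/

set_option autoImplicit false
set_option linter.unusedSectionVars false

namespace Pool.Agent.H99.CS

open Pool.Agent.W868 Pool.Agent.R598.TY Pool.Agent.R598.PM
open Pool.Agent.R598.CI (arc isOpen_arc exists_arc arcs RC RCS mem_RCS ds ds_some ds_none ds_comm
  ds_eq_zero ds_tri ds_diff sz lev sz_le_ds pow_anti MCSep IsSep Count nat_mem_nat')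
open ZFSet (pair)

section model

variable {M : Set ZFSet.{0}} {α : ℕ → ℕ → T} {ON : ZFSet.{0}} {XM dM UM LM : ZFSet.{0}}
  {ArM : ℕ → ZFSet.{0}} (h : Dat M α ON) (hs : Spc M α XM dM UM LM ArM)

open Classical in
/-- The distance in the model. -/
noncomputable def rho (M : Set ZFSet.{0}) (α : ℕ → ℕ → T) (x y : ZFSet.{0}) : ℝ :=
  if h : ∃ t : Pt × Pt, gd M t.1 ∧ gd M t.2 ∧ x = pt α t.1 ∧
    y = pt α t.2 then ds h.choose.1 h.choose.2 else 0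

include h in
theorem rho_eq {a b : Pt} (ha : gd M a) (hb : gd M b) :
    rho M α (pt α a) (pt α b) = ds a b := by
  have h0 : ∃ t : Pt × Pt, gd M t.1 ∧ gd M t.2 ∧ pt α a = pt α t.1 ∧
    pt α b = pt α t.2 := ⟨(a, b), ha, hb, rfl, rfl⟩
  rw [rho, dif_pos h0]
  obtain ⟨h1, h2, h3, h4⟩ := h0.choose_spec
  rw [← pt_inj h h3, ← pt_inj h h4]

/-- The open sets. -/
def Op (M : Set ZFSet.{0}) (α : ℕ → ℕ → T) (O : ZFSet.{0}) : Prop :=
  ∀ a, gd M a → pt α a ∈ O → ∃ j : ℕ, ∀ b, gd M b →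
    ds a b < (1 / 2 : ℝ) ^ j → pt α b ∈ O

/-- The set is the topology. -/
def IsTau (M : Set ZFSet.{0}) (α : ℕ → ℕ → T) (XM τ : ZFSet.{0}) : Prop :=
  ∀ O, O ∈ τ ↔ O ∈ M ∧ O ⊆ XM ∧ Op M α O

include h hs in
theorem exists_tau : ∃ τ ∈ M, IsTau M α XM τ := by
  have hM := h.zf
  have hX := hs.xm
  have hU := hs.um
  have hω := hM.infinity
  obtain ⟨P, hP, hP'⟩ := hM.power _ hX
  refine ⟨_, hM.sep_mem (Q := fun O => ∀ x ∈ O, ∃ j ∈ ZFSet.omega, ∀ y ∈ XM,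
    pair j (pair x y) ∈ UM → y ∈ O) (by (repeat' first | assumption | exact DfnF.proj _ | exact DfnF.const (by assumption) | exact Dfn.prop _ | apply Dfn.not | apply Dfn.and | apply Dfn.or | apply Dfn.imp | apply Dfn.iff | apply hM.base.bex | apply hM.base.ball | apply Dfn.ex | apply Dfn.all | apply Dfn.eq | apply Dfn.mem | apply hM.base.pair')) hP, fun O => ?_⟩
  rw [ZFSet.mem_sep, hP', and_assoc]
  refine and_congr_right fun _ => and_congr_right fun hOX => ?_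
  constructor
  · intro h a ha haO
    obtain ⟨j, hj, h1⟩ := h _ haO
    obtain ⟨j, rfl⟩ := mem_omega_iff.1 hj
    exact ⟨j, fun b hb hab => h1 _ ((hs.mem_X _).2 ⟨b, hb, rfl⟩) ((hs.mem_U _ _ _ ha hb).2 hab)⟩
  · intro h x hx
    obtain ⟨a, ha, rfl⟩ := (hs.mem_X _).1 (hOX hx)
    obtain ⟨j, h1⟩ := h a ha hx
    refine ⟨nat j, nat_om j, fun y hy hxy => ?_⟩
    obtain ⟨b, hb, rfl⟩ := (hs.mem_X _).1 hy
    exact h1 b hb ((hs.mem_U _ _ _ ha hb).1 hxy)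

include h hs in
theorem isTop_tau {τ : ZFSet.{0}} (hτ : IsTau M α XM τ) : IsTop M XM τ := by
  have hM := h.zf
  refine ⟨fun O hO => ((hτ O).1 hO).2.1, (hτ _).2 ⟨hM.empty_mem, ZFSet.empty_subset _,
    fun a _ h => absurd h (ZFSet.notMem_empty _)⟩, (hτ _).2 ⟨hs.xm, fun _ h => h,
    fun a _ _ => ⟨0, fun b hb _ => (hs.mem_X _).2 ⟨b, hb, rfl⟩⟩⟩, ?_, ?_⟩
  · intro U hU V hV
    obtain ⟨h1, h2, h3⟩ := (hτ U).1 hU
    obtain ⟨h4, h5, h6⟩ := (hτ V).1 hV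
    refine (hτ _).2 ⟨?_, fun x hx => h2 (ZFSet.mem_inter.1 hx).1, ?_⟩
    · have h7 := hM.sep_mem (Q := fun z => z ∈ V) (by (repeat' first | assumption | exact DfnF.proj _ | exact DfnF.const (by assumption) | exact Dfn.prop _ | apply Dfn.not | apply Dfn.and | apply Dfn.or | apply Dfn.imp | apply Dfn.iff | apply hM.base.bex | apply hM.base.ball | apply Dfn.ex | apply Dfn.all | apply Dfn.eq | apply Dfn.mem | apply hM.base.pair')) h1
      have h8 : ZFSet.sep (fun z => z ∈ V) U = U ∩ V := by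
        ext z
        rw [ZFSet.mem_sep, ZFSet.mem_inter]
      rwa [h8] at h7
    · intro a ha haO
      obtain ⟨h7, h8⟩ := ZFSet.mem_inter.1 haO
      obtain ⟨i, hi⟩ := h3 a ha h7
      obtain ⟨j, hj⟩ := h6 a ha h8
      refine ⟨max i j, fun b hb hab => ZFSet.mem_inter.2 ⟨hi b hb ?_, hj b hb ?_⟩⟩
      · exact hab.trans_le (pow_anti (le_max_left _ _))
      · exact hab.trans_le (pow_anti (le_max_right _ _))
  · intro C hC hCτ
    refine (hτ _).2 ⟨hM.union _ hC, fun x hx => ?_, fun a ha haO => ?_⟩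
    · obtain ⟨O, hO, hxO⟩ := ZFSet.mem_sUnion.1 hx
      exact ((hτ O).1 (hCτ hO)).2.1 hxO
    · obtain ⟨O, hO, hxO⟩ := ZFSet.mem_sUnion.1 haO
      obtain ⟨j, hj⟩ := ((hτ O).1 (hCτ hO)).2.2 a ha hxO
      exact ⟨j, fun b hb hab => ZFSet.mem_sUnion.2 ⟨O, hO, hj b hb hab⟩⟩

include h hs in
theorem isMet_tau {τ : ZFSet.{0}} (hτ : IsTau M α XM τ) :
    IsMetrizable M XM τ := by
  refine ⟨dM, hs.dm, rho M α, ?_, ?_, ?_, ?_, ?_⟩
  · intro x hx y hy z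
    obtain ⟨a, ha, rfl⟩ := (hs.mem_X _).1 hx
    obtain ⟨b, hb, rfl⟩ := (hs.mem_X _).1 hy
    rw [rho_eq h ha hb]
    exact hs.mem_d _ _ ha hb _
  · intro x hx y hy
    obtain ⟨a, ha, rfl⟩ := (hs.mem_X _).1 hx
    obtain ⟨b, hb, rfl⟩ := (hs.mem_X _).1 hy
    rw [rho_eq h ha hb, ds_eq_zero]
    exact ⟨fun h => by rw [h], fun h' => pt_inj h h'⟩
  · intro x hx y hy
    obtain ⟨a, ha, rfl⟩ := (hs.mem_X _).1 hx
    obtain ⟨b, hb, rfl⟩ := (hs.mem_X _).1 hy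
    rw [rho_eq h ha hb, rho_eq h hb ha, ds_comm]
  · intro x hx y hy z hz
    obtain ⟨a, ha, rfl⟩ := (hs.mem_X _).1 hx
    obtain ⟨b, hb, rfl⟩ := (hs.mem_X _).1 hy
    obtain ⟨c, hc, rfl⟩ := (hs.mem_X _).1 hz
    rw [rho_eq h ha hc, rho_eq h ha hb, rho_eq h hb hc]
    exact ds_tri a b c
  · intro O hO hOX
    rw [hτ]
    constructor
    · rintro ⟨-, -, h0⟩ x hx
      obtain ⟨a, ha, rfl⟩ := (hs.mem_X _).1 (hOX hx)
      obtain ⟨j, hj⟩ := h0 a ha hx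
      refine ⟨(1 / 2) ^ j, by positivity, fun y hy hxy => ?_⟩
      obtain ⟨b, hb, rfl⟩ := (hs.mem_X _).1 hy
      rw [rho_eq h ha hb] at hxy
      exact hj b hb hxy
    · intro h0
      refine ⟨hO, hOX, fun a ha haO => ?_⟩
      obtain ⟨ε, hε, h1⟩ := h0 _ haO
      obtain ⟨j, hj⟩ := exists_pow_lt_of_lt_one hε (show (1 / 2 : ℝ) < 1 by norm_num)
      refine ⟨j, fun b hb hab => h1 _ ((hs.mem_X _).2 ⟨b, hb, rfl⟩) ?_⟩
      rw [rho_eq h ha hb]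
      exact hab.trans hj

/-! ### Compactness -/

include h hs in
theorem circle_comp {C : ZFSet.{0}} (hC : C ∈ M)
    (n : ℕ) (hO : ∀ O ∈ C, Op M α O)
    (hcov : ∀ θ, cd θ ∈ M → ∃ O ∈ C, pt α (some (n, θ)) ∈ O) :
    ∃ s : Set ZFSet.{0}, s.Finite ∧ (∀ O ∈ s, O ∈ C) ∧
      ∀ θ, cd θ ∈ M → ∃ O ∈ s, pt α (some (n, θ)) ∈ O := by
  have hM := h.zf
  have hX := hs.xm
  have hω := hM.infinity
  have hAr := hs.arm n
  have hRCS := h.rcs
  have hMem := h.mem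
  have hS := hM.sep_mem (Q := fun c => ∃ O ∈ C, ∀ x ∈ XM, pair c x ∈ ArM n →
    x ∈ O) (by (repeat' first | assumption | exact DfnF.proj _ | exact DfnF.const (by assumption) | exact Dfn.prop _ | apply Dfn.not | apply Dfn.and | apply Dfn.or | apply Dfn.imp | apply Dfn.iff | apply hM.base.bex | apply hM.base.ball | apply Dfn.ex | apply Dfn.all | apply Dfn.eq | apply Dfn.mem | apply hM.base.pair')) hω
  set S0 := ZFSet.sep (fun c => ∃ O ∈ C, ∀ x ∈ XM, pair c x ∈ ArM n →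
    x ∈ O) ZFSet.omega with hS0
  have hS0m : ∀ c : ℕ, nat c ∈ S0 ↔ ∃ O ∈ C, ∀ θ ∈ arc c, cd θ ∈ M →
      pt α (some (n, θ)) ∈ O := by
    intro c
    rw [hS0, ZFSet.mem_sep]
    constructor
    · rintro ⟨-, O, hO, h1⟩
      exact ⟨O, hO, fun θ hθ hθN => h1 _ ((hs.mem_X _).2 ⟨some (n, θ), hθN, rfl⟩)
        ((hs.mem_Ar _ _ _).2 ⟨θ, hθ, hθN, rfl⟩)⟩
    · rintro ⟨O, hO, h1⟩
      refine ⟨nat_om c, O, hO, fun x _ hx => ?_⟩
      obtain ⟨θ, hθ, hθN, rfl⟩ := (hs.mem_Ar _ _ _).1 hx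
      exact h1 θ hθ hθN
  rcases arcs {c | nat c ∈ S0} with ⟨t, ht1, ht2⟩ | ⟨r, hr1, hr2⟩
  · have h1 : ∀ c : t, ∃ O ∈ C, ∀ θ ∈ arc c.1, cd θ ∈ M → pt α (some (n, θ)) ∈ O :=
      fun c => (hS0m c.1).1 (ht1 c.1 c.2)
    choose O hO hO' using h1
    refine ⟨Set.range O, Set.finite_range O, ?_, fun θ hθN => ?_⟩
    · rintro _ ⟨c, rfl⟩
      exact hO c
    · obtain ⟨c, hc, hθ⟩ := ht2 θ
      exact ⟨_, ⟨⟨c, hc⟩, rfl⟩, hO' ⟨c, hc⟩ θ hθ hθN⟩
  · exfalso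
    have hrM := hM.sep_mem (Q := fun k => ∃ t ∈ ZFSet.omega, pair k t ∈ RCS ∧
      ∀ m ∈ ZFSet.omega, pair m t ∈ Pool.Agent.R598.TY.Mem → m ∈ S0) (by (repeat' first | assumption | exact DfnF.proj _ | exact DfnF.const (by assumption) | exact Dfn.prop _ | apply Dfn.not | apply Dfn.and | apply Dfn.or | apply Dfn.imp | apply Dfn.iff | apply hM.base.bex | apply hM.base.ball | apply Dfn.ex | apply Dfn.all | apply Dfn.eq | apply Dfn.mem | apply hM.base.pair')) hω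
    have h1 : ZFSet.sep (fun k => ∃ t ∈ ZFSet.omega, pair k t ∈ RCS ∧
        ∀ m ∈ ZFSet.omega, pair m t ∈ Pool.Agent.R598.TY.Mem → m ∈ S0) ZFSet.omega = real r := by
      ext k
      rw [ZFSet.mem_sep, mem_real]
      constructor
      · rintro ⟨-, t, -, h1, h2⟩
        obtain ⟨q, s, h3, rfl, rfl⟩ := mem_RCS.1 h1
        exact ⟨q, (hr2 q).2 ⟨s, h3, fun c hc => h2 _ (nat_om c)
          (Pool.Agent.R598.TY.mem_Mem.2 hc)⟩, rfl⟩
      · rintro ⟨q, hq, rfl⟩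
        obtain ⟨s, h3, h4⟩ := (hr2 q).1 hq
        refine ⟨nat_om _, _, nat_om _, mem_RCS.2 ⟨q, s, h3, rfl, rfl⟩, fun m hm h5 => ?_⟩
        obtain ⟨m, rfl⟩ := mem_omega_iff.1 hm
        exact h4 m (Pool.Agent.R598.TY.mem_Mem.1 h5)
    rw [h1] at hrM
    have hrN := h.cd_real_mem hrM
    obtain ⟨O, hOC, hxO⟩ := hcov _ hrN
    obtain ⟨j, hj⟩ := hO O hOC (some (n, (r : T))) hrN hxO
    obtain ⟨c, hc1, hc2⟩ := exists_arc (θ := (r : T)) (show (0 : ℝ) < (1 / 2) ^ j by positivity)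
    refine hr1 c ((hS0m c).2 ⟨O, hOC, fun θ hθ hθN => hj (some (n, θ)) hθN ?_⟩) hc1
    rw [ds_comm, ds_some]
    have h2 := hc2 θ hθ
    have h3 : (1 / 2 : ℝ) ^ n ≤ 1 := pow_le_one₀ (by norm_num) (by norm_num)
    calc (1 / 2 : ℝ) ^ n * ‖θ - (r : T)‖ ≤ 1 * ‖θ - (r : T)‖ :=
          mul_le_mul_of_nonneg_right h3 (norm_nonneg _)
      _ < (1 / 2) ^ j := by rwa [one_mul]

include h hs in
theorem isComp_tau {τ : ZFSet.{0}} (hτ : IsTau M α XM τ) : IsComp M XM τ := by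
  classical
  have hM := h.zf
  intro C hC hCτ hcov
  have hOp : ∀ O ∈ C, Op M α O := fun O hO => ((hτ O).1 (hCτ hO)).2.2
  obtain ⟨O0, hO0, h0⟩ := ZFSet.mem_sUnion.1 (hcov ((hs.mem_X _).2 ⟨none, trivial, rfl⟩))
  obtain ⟨j, hj⟩ := hOp O0 hO0 none trivial h0
  have h1 : ∀ n : ℕ, ∃ s : Set ZFSet.{0}, s.Finite ∧ (∀ O ∈ s, O ∈ C) ∧
      ∀ θ, cd θ ∈ M → ∃ O ∈ s, pt α (some (n, θ)) ∈ O := fun n =>
    circle_comp h hs hC n hOp fun θ hθN =>
      ZFSet.mem_sUnion.1 (hcov ((hs.mem_X _).2 ⟨some (n, θ), hθN, rfl⟩))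
  choose s hs1 hs2 hs3 using h1
  let T0 : Set ZFSet.{0} := {O0} ∪ ⋃ n ∈ Finset.range (j + 1), s n
  have hT : T0.Finite := by
    refine (Set.finite_singleton _).union ?_
    exact Set.Finite.biUnion (Finset.finite_toSet _) fun n _ => hs1 n
  have hTC : ∀ O ∈ T0, O ∈ C := by
    rintro O (rfl | hO)
    · exact hO0
    · obtain ⟨n, hn⟩ := Set.mem_iUnion.1 hO
      obtain ⟨-, hn⟩ := Set.mem_iUnion.1 hn
      exact hs2 n O hn
  let F : ZFSet.{0} := ZFSet.sep (fun O => O ∈ T0) C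
  have hFm : ∀ O, O ∈ F ↔ O ∈ T0 := by
    intro O
    rw [ZFSet.mem_sep]
    exact ⟨fun h => h.2, fun h => ⟨hTC O h, h⟩⟩
  have hFM : ∀ O ∈ F, O ∈ M := fun O hO => hM.trans _ hC _ (hTC O ((hFm O).1 hO))
  have hFf : {z | z ∈ F}.Finite := hT.subset fun z hz => (hFm z).1 hz
  refine ⟨F, fin_mem hM hFM hFf, fun O hO => hTC O ((hFm O).1 hO),
    (finIn_iff hM hFM).2 hFf, fun x hx => ?_⟩
  obtain ⟨a, ha, rfl⟩ := (hs.mem_X _).1 hx
  cases a with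
  | none => exact ZFSet.mem_sUnion.2 ⟨O0, (hFm _).2 (Or.inl rfl), h0⟩
  | some i =>
    obtain ⟨n, θ⟩ := i
    by_cases hn : n < j + 1
    · obtain ⟨O, hO, hxO⟩ := hs3 n θ ha
      refine ZFSet.mem_sUnion.2 ⟨O, (hFm _).2 (Or.inr ?_), hxO⟩
      exact Set.mem_iUnion.2 ⟨n, Set.mem_iUnion.2 ⟨Finset.mem_range.2 hn, hO⟩⟩
    · refine ZFSet.mem_sUnion.2 ⟨O0, (hFm _).2 (Or.inl rfl), hj _ ha ?_⟩
      rw [ds_none]
      exact pow_lt_pow_right_of_lt_one₀ (by norm_num) (by norm_num) (by omega)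

/-! ### The space is not separable -/

include h hs in
theorem not_sep {τ : ZFSet.{0}} (hτ : IsTau M α XM τ) : ¬ IsSep M XM τ := by
  classical
  rintro ⟨D, hD, hDX, ⟨e, he, hinj⟩, hdense⟩
  have hM := h.zf
  have hX := hs.xm
  have hω := hM.infinity
  have hL := hs.lm
  have hs' := hM.sep_mem (Q := fun w => ∃ n ∈ ZFSet.omega, ∃ x ∈ D, w = pair n x ∧
    pair n x ∈ LM ∧ ∃ i ∈ ZFSet.omega, pair x i ∈ e ∧ ∀ x' ∈ D, ∀ i' ∈ ZFSet.omega,
      pair n x' ∈ LM → pair x' i' ∈ e → ¬ i' ∈ i) (by (repeat' first | assumption | exact DfnF.proj _ | exact DfnF.const (by assumption) | exact Dfn.prop _ | apply Dfn.not | apply Dfn.and | apply Dfn.or | apply Dfn.imp | apply Dfn.iff | apply hM.base.bex | apply hM.base.ball | apply Dfn.ex | apply Dfn.all | apply Dfn.eq | apply Dfn.mem | apply hM.base.pair')) (hM.prod_mem hω hX)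
  refine h.noch _ hs' fun n => ?_
  -- the circle is open
  have hnM : nat n ∈ M := hM.trans _ hω _ (nat_om n)
  have hA := hM.sep_mem (Q := fun x => pair (nat n) x ∈ LM) (by (repeat' first | assumption | exact DfnF.proj _ | exact DfnF.const (by assumption) | exact Dfn.prop _ | apply Dfn.not | apply Dfn.and | apply Dfn.or | apply Dfn.imp | apply Dfn.iff | apply hM.base.bex | apply hM.base.ball | apply Dfn.ex | apply Dfn.all | apply Dfn.eq | apply Dfn.mem | apply hM.base.pair')) hX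
  have h1 : ∃ x ∈ D, x ∈ ZFSet.sep (fun x => pair (nat n) x ∈ LM) XM := by
    refine hdense _ ((hτ _).2 ⟨hA, fun x hx => (ZFSet.mem_sep.1 hx).1, ?_⟩) ?_
    · intro a ha haO
      obtain ⟨-, h2⟩ := ZFSet.mem_sep.1 haO
      obtain ⟨θ, hθN, h3⟩ := (hs.mem_L _ _).1 h2
      have h4 : a = some (n, θ) := pt_inj h h3
      subst h4
      refine ⟨n, fun b hb hab => ?_⟩
      have h5 : lev (some (n, θ)) = lev b := by
        by_contra hc
        exact absurd hab (not_lt.2 (sz_le_ds hc))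
      cases b with
      | none => simp [lev] at h5
      | some i =>
        simp only [lev, Option.map_some, Option.some.injEq] at h5
        obtain ⟨m, θ'⟩ := i
        have h6 : n = m := h5
        subst h6
        exact ZFSet.mem_sep.2 ⟨(hs.mem_X _).2 ⟨_, hb, rfl⟩, (hs.mem_L _ _).2 ⟨θ', hb, rfl⟩⟩
    · intro h2
      have h3 := h.zero_mem
      have h4 : pt α (some (n, (0 : T))) ∈
          ZFSet.sep (fun x => pair (nat n) x ∈ LM) XM :=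
        ZFSet.mem_sep.2 ⟨(hs.mem_X _).2 ⟨some (n, (0 : T)), h3, rfl⟩,
          (hs.mem_L _ _).2 ⟨_, h3, rfl⟩⟩
      rw [h2] at h4
      exact ZFSet.notMem_empty _ h4
  obtain ⟨x0, hx0D, hx0⟩ := h1
  have hx0L := (ZFSet.mem_sep.1 hx0).2
  -- the least element
  obtain ⟨i0, hi0, hx0i⟩ := fun_exists hinj.1 hx0D
  obtain ⟨i, ⟨hi, x, hxD, hxL, hxi⟩, hmin⟩ := ZFSet.mem_wf.has_min
    {i | i ∈ ZFSet.omega ∧ ∃ x ∈ D, pair (nat n) x ∈ LM ∧ pair x i ∈ e}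
    ⟨i0, hi0, x0, hx0D, hx0L, hx0i⟩
  obtain ⟨θ, hθN, rfl⟩ := (hs.mem_L _ _).1 hxL
  refine ⟨θ, hθN, fun z => ?_⟩
  constructor
  · intro hz
    obtain ⟨-, n', hn', x', hx', h2, h3, i', hi', h4, h5⟩ := ZFSet.mem_sep.1 hz
    obtain ⟨h6, rfl⟩ := ZFSet.pair_inj.1 h2
    subst h6
    obtain ⟨m, rfl⟩ := mem_omega_iff.1 hi
    obtain ⟨m', rfl⟩ := mem_omega_iff.1 hi'
    have h7 : ¬ m' < m := fun h => hmin _ ⟨nat_om m', z, hx', h3, h4⟩ (nat_mem_nat' h)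
    have h8 : ¬ m < m' := fun h => h5 _ hxD _ (nat_om m) hxL hxi (nat_mem_nat' h)
    have h9 : m = m' := by omega
    subst h9
    exact hinj.2 _ _ _ h4 hxi
  · rintro rfl
    refine ZFSet.mem_sep.2 ⟨ZFSet.pair_mem_prod.2 ⟨nat_om n, hDX hxD⟩, nat n, nat_om n, _, hxD,
      rfl, hxL, i, hi, hxi, fun x' hx' i' hi' h2 h3 h4 => ?_⟩
    exact hmin i' ⟨hi', x', hx', h2, h3⟩ h4

end model

/-- If the model has the data, then it has a compact metrizable space that is not separable. -/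
theorem not_MCSep {M : Set ZFSet.{0}} {α : ℕ → ℕ → T} {ON : ZFSet.{0}} (h : Dat M α ON) :
    ¬ MCSep M := by
  obtain ⟨XM, dM, UM, LM, ArM, hs⟩ := exists_spc h
  obtain ⟨τ, hτM, hτ⟩ := exists_tau h hs
  exact fun h' => not_sep h hs hτ (h' XM hs.xm τ hτM (isTop_tau h hs hτ) (isComp_tau h hs hτ)
    (isMet_tau h hs hτ))

end Pool.Agent.H99.CS
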