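import Pool.Agent.H99.CS.Fin
import Pool.Agent.H99.CS.Top
import Pool.Agent.H99.CS.Cuc

/-!
# The countable union theorem does not imply that compact metrizable spaces are separable
-/

set_option autoImplicit false

namespace Pool.Agent.H99.CS

open Pool.Agent.W868 Pool.Agent.W868.PName Pool.Agent.R598.SY Pool.Agent.R598.CI

theorem main : ∃ M : Set ZFSet.{0}, M.Countable ∧ IsZF M ∧ CUC M ∧ ¬ MCSep M := by
  obtain ⟨π, xs, h, -, -, hR⟩ := exists_GP ∅ Set.countable_empty {rU, rE, rD}
    (Set.toFinite _).countable ⊤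
  refine ⟨sy.Ms π, ?_, isZF_Ms h.cld, cuc h.cld hR, not_MCSep h.dat⟩
  exact (π.cnt.mono fun x hx => hx.1).image _

end Pool.Agent.H99.CS
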