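import Pool.Agent.H99.CS.Cod
import Pool.Graph.R_seed8.R598.CI.Circ

/-!
# The space of circles in the model
-/

set_option autoImplicit false

namespace Pool.Agent.H99.CS

open Pool.Agent.W868 Pool.Agent.R598.TY Pool.Agent.R598.PM
open Pool.Agent.R598.CI (arc isOpen_arc exists_arc arcs RC RCS mem_RCS ds ds_some ds_none ds_comm
  ds_eq_zero ds_tri ds_diff sz lev sz_le_ds pow_anti mem_nat_iff
  nat_mem_nat')
open ZFSet (pair)

/-- The points. -/
abbrev Pt : Type := Option (ℕ × T)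

/-- The translate of the set number `n`. -/
noncomputable def As (α : ℕ → ℕ → T) (n : ℕ) (θ : T) : ZFSet.{0} :=
  ZFSet.range fun j : ℕ => cd (α n j + θ)

theorem mem_As {α : ℕ → ℕ → T} {n : ℕ} {θ : T} {z : ZFSet.{0}} :
    z ∈ As α n θ ↔ ∃ j, z = cd (α n j + θ) := by
  rw [As, ZFSet.mem_range]
  exact exists_congr fun j => eq_comm

/-- The set of a point. -/
noncomputable def pt (α : ℕ → ℕ → T) : Pt → ZFSet.{0}
  | none => ∅
  | some i => pair (nat i.1) (As α i.1 i.2)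

/-- The point is in the model. -/
def gd (M : Set ZFSet.{0}) : Pt → Prop
  | none => True
  | some i => cd i.2 ∈ M

/-- The model has the data for the space. -/
structure Dat (M : Set ZFSet.{0}) (α : ℕ → ℕ → T) (ON : ZFSet.{0}) : Prop where
  zf : IsZF M
  q : r3 Qr ∈ M
  i : r2 Ir ∈ M
  s : r2 Sr ∈ M
  c : r2 Clr ∈ M
  n : r3 Nr ∈ M
  p : r2 Pr ∈ M
  e : r3 Er ∈ M
  rcs : RCS ∈ M
  mem : Pool.Agent.R598.TY.Mem ∈ M
  z0 : real 0 ∈ M
  on : ON ∈ M
  on1 : ∀ w ∈ ON, ∃ n θ, cd θ ∈ M ∧ w = pair (nat n) (As α n θ)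
  on2 : ∀ n, pair (nat n) (As α n 0) ∈ ON
  inj : ∀ n θ θ', As α n θ = As α n θ' → θ = θ'
  al : ∀ n j, cd (α n j) ∈ M
  noch : ∀ s ∈ M, ¬ ∀ n, ∃ θ, cd θ ∈ M ∧ ∀ z, pair (nat n) z ∈ s ↔ z = pt α (some (n, θ))

/-- The set `B` is the translate of the set `A`. -/
def Tb (B A t : ZFSet.{0}) : Prop :=
  (∀ b ∈ B, ∃ a ∈ A, Sb b a t) ∧ ∀ a ∈ A, ∃ b ∈ B, Sb b a t

section

variable {M : Set ZFSet.{0}} {α : ℕ → ℕ → T} {ON : ZFSet.{0}}

theorem dfn_Sb (hM : IsZF M) (hq : r3 Qr ∈ M) :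
    Dfn M M fun v : Fin 3 → ZFSet.{0} => Sb (v 0) (v 1) (v 2) := by
  unfold Sb
  have hω := hM.infinity
  (repeat' first | assumption | exact DfnF.proj _ | exact DfnF.const (by assumption) | exact Dfn.prop _ | apply Dfn.not | apply Dfn.and | apply Dfn.or | apply Dfn.imp | apply Dfn.iff | apply hM.base.bex | apply hM.base.ball | apply Dfn.ex | apply Dfn.all | apply Dfn.eq | apply Dfn.mem | apply hM.base.pair')

theorem dfn_Tb (hM : IsZF M) (hq : r3 Qr ∈ M) :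
    Dfn M M fun v : Fin 3 → ZFSet.{0} => Tb (v 0) (v 1) (v 2) := by
  unfold Tb
  have hω := hM.infinity
  (repeat' first | assumption | exact DfnF.proj _ | exact DfnF.const (by assumption) | exact Dfn.prop _ | apply Dfn.not | apply Dfn.and | apply Dfn.or | apply Dfn.imp | apply Dfn.iff | apply hM.base.bex | apply hM.base.ball | apply Dfn.ex | apply Dfn.all | apply Dfn.eq | apply Dfn.mem | apply hM.base.pair' | apply Dfn.comp3 (Q := Sb) (dfn_Sb hM hq))

theorem dfn_Cc (hM : IsZF M) (hi : r2 Ir ∈ M) (hs : r2 Sr ∈ M) (hc : r2 Clr ∈ M) :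
    Dfn M M fun v : Fin 1 → ZFSet.{0} => Cc (v 0) := by
  unfold Cc
  have hω := hM.infinity
  (repeat' first | assumption | exact DfnF.proj _ | exact DfnF.const (by assumption) | exact Dfn.prop _ | apply Dfn.not | apply Dfn.and | apply Dfn.or | apply Dfn.imp | apply Dfn.iff | apply hM.base.bex | apply hM.base.ball | apply Dfn.ex | apply Dfn.all | apply Dfn.eq | apply Dfn.mem | apply hM.base.pair')

theorem Tb_iff {B : ZFSet.{0}} (hB : ∀ b ∈ B, b ⊆ ZFSet.omega) {n : ℕ} {β θ : T} :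
    Tb B (As α n β) (cd θ) ↔ B = As α n (β - θ) := by
  have h0 : ∀ j, α n j + (β - θ) = α n j + β - θ := fun j => by abel
  constructor
  · rintro ⟨h1, h2⟩
    ext z
    constructor
    · intro hz
      obtain ⟨a, ha, h3⟩ := h1 z hz
      obtain ⟨j, rfl⟩ := mem_As.1 ha
      rw [Sb_iff (hB z hz)] at h3
      exact mem_As.2 ⟨j, by rw [h0, h3]⟩
    · intro hz
      obtain ⟨j, rfl⟩ := mem_As.1 hz
      obtain ⟨b, hb, h3⟩ := h2 _ (mem_As.2 ⟨j, rfl⟩)
      rw [Sb_iff (hB b hb)] at h3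
      rwa [h0, ← h3]
  · rintro rfl
    refine ⟨fun b hb => ?_, fun a ha => ?_⟩
    · obtain ⟨j, rfl⟩ := mem_As.1 hb
      exact ⟨_, mem_As.2 ⟨j, rfl⟩, (Sb_iff (cd_sub _)).2 (by rw [h0])⟩
    · obtain ⟨j, rfl⟩ := mem_As.1 ha
      exact ⟨_, mem_As.2 ⟨j, rfl⟩, (Sb_iff (cd_sub _)).2 (by rw [h0])⟩

/-- Subtraction in the model. -/
theorem sub_memM (hM : IsZF M) (hq : r3 Qr ∈ M) {a b : T} (ha : cd a ∈ M) (hb : cd b ∈ M) :
    cd (a - b) ∈ M := by
  have hω := hM.infinity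
  have h1 := hM.sep_mem (Q := fun m => ∃ m1 ∈ cd a, ∃ m2 ∈ cd b, pair (pair m1 m2) m ∈ r3 Qr) (by (repeat' first | assumption | exact DfnF.proj _ | exact DfnF.const (by assumption) | exact Dfn.prop _ | apply Dfn.not | apply Dfn.and | apply Dfn.or | apply Dfn.imp | apply Dfn.iff | apply hM.base.bex | apply hM.base.ball | apply Dfn.ex | apply Dfn.all | apply Dfn.eq | apply Dfn.mem | apply hM.base.pair')) hω
  have h2 : ZFSet.sep (fun m => ∃ m1 ∈ cd a, ∃ m2 ∈ cd b, pair (pair m1 m2) m ∈ r3 Qr)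
      ZFSet.omega = cd (a - b) := by
    rw [← Sb_iff ZFSet.sep_subset]
    intro m hm
    rw [ZFSet.mem_sep]
    exact ⟨fun h => h.2, fun h => ⟨hm, h⟩⟩
  rwa [h2] at h1

variable (h : Dat M α ON)

include h

namespace Dat

theorem sub_mem {a b : T} (ha : cd a ∈ M) (hb : cd b ∈ M) : cd (a - b) ∈ M :=
  sub_memM h.zf h.q ha hb

theorem zero_mem : cd (0 : T) ∈ M := by
  have h1 := h.sub_mem (h.al 0 0) (h.al 0 0)
  rwa [sub_self] at h1

theorem neg_mem {a : T} (ha : cd a ∈ M) : cd (-a) ∈ M := by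
  have h1 := h.sub_mem h.zero_mem ha
  rwa [zero_sub] at h1

theorem cd_real_mem {r : ℝ} (hr : real r ∈ M) : cd (r : T) ∈ M := by
  have hM := h.zf
  have hω := hM.infinity
  have he := h.e
  rw [cd_real]
  exact hM.sep_mem (Q := fun m => ∃ q ∈ real r, ∃ q' ∈ (ZFSet.omega : ZFSet.{0}),
    q' ∉ real r ∧ pair (pair q q') m ∈ r3 Er) (by (repeat' first | assumption | exact DfnF.proj _ | exact DfnF.const (by assumption) | exact Dfn.prop _ | apply Dfn.not | apply Dfn.and | apply Dfn.or | apply Dfn.imp | apply Dfn.iff | apply hM.base.bex | apply hM.base.ball | apply Dfn.ex | apply Dfn.all | apply Dfn.eq | apply Dfn.mem | apply hM.base.pair')) hω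

/-- The power sets and the set of the codes. -/
theorem exists_sets : ∃ Pw ∈ M, ∃ PPw ∈ M, ∃ Ct ∈ M, (∀ z, z ∈ Pw ↔ z ∈ M ∧ z ⊆ ZFSet.omega) ∧
    (∀ z, z ∈ PPw ↔ z ∈ M ∧ z ⊆ Pw) ∧ ∀ t, t ∈ Ct ↔ ∃ θ : T, cd θ ∈ M ∧ t = cd θ := by
  have hM := h.zf
  have hω := hM.infinity
  obtain ⟨Pw, hPw, hPw'⟩ := hM.power _ hω
  obtain ⟨PPw, hPPw, hPPw'⟩ := hM.power _ hPw
  have hC := hM.sep_mem (Q := Cc) (dfn_Cc hM h.i h.s h.c) hPw
  refine ⟨Pw, hPw, PPw, hPPw, _, hC, hPw', hPPw', fun t => ?_⟩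
  rw [ZFSet.mem_sep, hPw']
  constructor
  · rintro ⟨⟨h1, h2⟩, h3⟩
    obtain ⟨θ, rfl⟩ := (Cc_iff h2).1 h3
    exact ⟨θ, h1, rfl⟩
  · rintro ⟨θ, h1, rfl⟩
    exact ⟨⟨h1, cd_sub θ⟩, (Cc_iff (cd_sub θ)).2 ⟨θ, rfl⟩⟩

theorem As_zero_mem (n : ℕ) : As α n 0 ∈ M :=
  (h.zf.of_pair_mem (h.zf.trans _ h.on _ (h.on2 n))).2

theorem As_mem {n : ℕ} {θ : T} (hθ : cd θ ∈ M) : As α n θ ∈ M := by
  have hM := h.zf
  have hω := hM.infinity
  have hq := h.q
  obtain ⟨Pw, hPw, PPw, hPPw, Ct, hCt, hPw', hPPw', hCt'⟩ := h.exists_sets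
  have hA := h.As_zero_mem n
  have hn := h.neg_mem hθ
  have h1 := hM.sep_mem (Q := fun b => ∃ a ∈ As α n 0, Sb b a (cd (-θ))) (by (repeat' first | assumption | exact DfnF.proj _ | exact DfnF.const (by assumption) | exact Dfn.prop _ | apply Dfn.not | apply Dfn.and | apply Dfn.or | apply Dfn.imp | apply Dfn.iff | apply hM.base.bex | apply hM.base.ball | apply Dfn.ex | apply Dfn.all | apply Dfn.eq | apply Dfn.mem | apply hM.base.pair' | apply Dfn.comp3 (Q := Sb) (dfn_Sb hM hq))) hPw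
  have h2 : ZFSet.sep (fun b => ∃ a ∈ As α n 0, Sb b a (cd (-θ))) Pw = As α n θ := by
    ext z
    rw [ZFSet.mem_sep, hPw']
    constructor
    · rintro ⟨⟨h3, h4⟩, a, ha, h5⟩
      obtain ⟨j, rfl⟩ := mem_As.1 ha
      rw [Sb_iff h4] at h5
      refine mem_As.2 ⟨j, h5.trans ?_⟩
      congr 1
      abel
    · intro hz
      obtain ⟨j, rfl⟩ := mem_As.1 hz
      have h3 : cd (α n j - -θ) ∈ M := h.sub_mem (h.al n j) hn
      rw [sub_neg_eq_add] at h3
      refine ⟨⟨h3, cd_sub _⟩, _, mem_As.2 ⟨j, rfl⟩, (Sb_iff (cd_sub _)).2 ?_⟩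
      congr 1
      abel
  rwa [h2] at h1

end Dat

omit h in
theorem As_elem {n : ℕ} {θ : T} : ∀ b ∈ As α n θ, b ⊆ ZFSet.omega := by
  intro b hb
  obtain ⟨j, rfl⟩ := mem_As.1 hb
  exact cd_sub _

theorem pt_inj {a b : Pt} (hab : pt α a = pt α b) : a = b := by
  cases a with
  | none =>
    cases b with
    | none => rfl
    | some i =>
      exfalso
      have h1 : ({nat i.1} : ZFSet.{0}) ∈ pt α (some i) := by
        change _ ∈ pair _ _
        rw [pair, ZFSet.mem_pair]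
        exact Or.inl rfl
      rw [← hab] at h1
      exact ZFSet.notMem_empty _ h1
  | some i =>
    cases b with
    | none =>
      exfalso
      have h1 : ({nat i.1} : ZFSet.{0}) ∈ pt α (some i) := by
        change _ ∈ pair _ _
        rw [pair, ZFSet.mem_pair]
        exact Or.inl rfl
      rw [hab] at h1
      exact ZFSet.notMem_empty _ h1
    | some j =>
      obtain ⟨i, θ⟩ := i
      obtain ⟨j, θ'⟩ := j
      obtain ⟨h1, h2⟩ := ZFSet.pair_inj.1 hab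
      obtain rfl := nat_injective h1
      have h3 : θ = θ' := h.inj _ _ _ h2
      rw [h3]

end

/-- The sets of the space. -/
structure Spc (M : Set ZFSet.{0}) (α : ℕ → ℕ → T) (XM dM UM LM : ZFSet.{0})
    (ArM : ℕ → ZFSet.{0}) : Prop where
  xm : XM ∈ M
  dm : dM ∈ M
  um : UM ∈ M
  lm : LM ∈ M
  arm : ∀ n, ArM n ∈ M
  mem_X : ∀ x, x ∈ XM ↔ ∃ a, gd M a ∧ x = pt α a
  mem_d : ∀ a b, gd M a → gd M b → ∀ z, pair (pair (pt α a) (pt α b)) z ∈ dM ↔
    z = real (ds a b)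
  mem_U : ∀ j a b, gd M a → gd M b → (pair (nat j) (pair (pt α a) (pt α b)) ∈ UM ↔
    ds a b < (1 / 2 : ℝ) ^ j)
  mem_L : ∀ n x, pair (nat n) x ∈ LM ↔ ∃ θ, cd θ ∈ M ∧ x = pt α (some (n, θ))
  mem_Ar : ∀ n c x, pair (nat c) x ∈ ArM n ↔ ∃ θ ∈ arc c, cd θ ∈ M ∧ x = pt α (some (n, θ))

theorem exists_spc {M : Set ZFSet.{0}} {α : ℕ → ℕ → T} {ON : ZFSet.{0}} (h : Dat M α ON) :
    ∃ XM dM UM LM ArM, Spc M α XM dM UM LM ArM := by
  have hM := h.zf
  have hω := hM.infinity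
  have hq := h.q
  have hn := h.n
  have hp := h.p
  have hz0 := h.z0
  have hon := h.on
  have hem := hM.empty_mem
  obtain ⟨Pw, hPw, PPw, hPPw, Ct, hCt, hPw', hPPw', hCt'⟩ := h.exists_sets
  have hAP : ∀ n θ, cd θ ∈ M → As α n θ ∈ PPw := by
    intro n θ hθ
    refine (hPPw' _).2 ⟨h.As_mem hθ, fun b hb => ?_⟩
    exact (hPw' _).2 ⟨hM.trans _ (h.As_mem hθ) _ hb, As_elem b hb⟩
  have hPPe : ∀ B ∈ PPw, ∀ b ∈ B, b ⊆ (ZFSet.omega : ZFSet.{0}) := fun B hB b hb =>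
    ((hPw' _).1 (((hPPw' _).1 hB).2 hb)).2
  -- the points
  have hXS := hM.sep_mem (Q := fun w => ∃ n ∈ ZFSet.omega, ∃ B ∈ PPw, w = pair n B ∧
    ∃ A ∈ PPw, pair n A ∈ ON ∧ ∃ t ∈ Ct, Tb B A t) (by (repeat' first | assumption | exact DfnF.proj _ | exact DfnF.const (by assumption) | exact Dfn.prop _ | apply Dfn.not | apply Dfn.and | apply Dfn.or | apply Dfn.imp | apply Dfn.iff | apply hM.base.bex | apply hM.base.ball | apply Dfn.ex | apply Dfn.all | apply Dfn.eq | apply Dfn.mem | apply hM.base.pair' | apply Dfn.comp3 (Q := Tb) (dfn_Tb hM hq)))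
    (hM.prod_mem hω hPPw)
  set XS := ZFSet.sep (fun w => ∃ n ∈ ZFSet.omega, ∃ B ∈ PPw, w = pair n B ∧
    ∃ A ∈ PPw, pair n A ∈ ON ∧ ∃ t ∈ Ct, Tb B A t) (ZFSet.prod ZFSet.omega PPw) with hXSd
  have hXSm : ∀ w, w ∈ XS ↔ ∃ n θ, cd θ ∈ M ∧ w = pair (nat n) (As α n θ) := by
    intro w
    rw [hXSd, ZFSet.mem_sep]
    constructor
    · rintro ⟨-, n, hn', B, hB, rfl, A, hA, hAO, t, ht, h1⟩
      obtain ⟨m, θ, hθ, h2⟩ := h.on1 _ hAO
      obtain ⟨rfl, rfl⟩ := ZFSet.pair_inj.1 h2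
      obtain ⟨θ', hθ', rfl⟩ := (hCt' _).1 ht
      rw [Tb_iff (hPPe B hB)] at h1
      exact ⟨m, θ - θ', h.sub_mem hθ hθ', by rw [h1]⟩
    · rintro ⟨n, θ, hθ, rfl⟩
      refine ⟨ZFSet.pair_mem_prod.2 ⟨nat_om n, hAP n θ hθ⟩, _, nat_om n, _, hAP n θ hθ, rfl,
        _, hAP n 0 h.zero_mem, h.on2 n, cd (-θ), (hCt' _).2 ⟨_, h.neg_mem hθ, rfl⟩, ?_⟩
      rw [Tb_iff As_elem]
      congr 1
      abel
  let XM : ZFSet.{0} := insert ∅ XS
  have hXM : XM ∈ M := hM.insert_mem hem hXS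
  have hXm : ∀ x, x ∈ XM ↔ ∃ a, gd M a ∧ x = pt α a := by
    intro x
    rw [ZFSet.mem_insert_iff, hXSm]
    constructor
    · rintro (rfl | ⟨n, θ, hθ, rfl⟩)
      · exact ⟨none, trivial, rfl⟩
      · exact ⟨some (n, θ), hθ, rfl⟩
    · rintro ⟨a, ha, rfl⟩
      cases a with
      | none => exact Or.inl rfl
      | some i => exact Or.inr ⟨i.1, i.2, ha, rfl⟩
  have hptX : ∀ a, gd M a → pt α a ∈ XM := fun a ha => (hXm _).2 ⟨a, ha, rfl⟩
  -- the distances
  have hDR := hM.sep_mem (Q := fun w => ∃ x ∈ XM, ∃ y ∈ XM, ∃ q ∈ ZFSet.omega,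
    w = pair (pair x y) q ∧ ((x = ∅ ∧ y = ∅ ∧ q ∈ real 0) ∨
    (∃ n ∈ ZFSet.omega, ∃ B ∈ PPw, ∃ B' ∈ PPw, x = pair n B ∧ y = pair n B' ∧
      ∃ t ∈ Ct, Tb B' B t ∧ ∃ m ∈ t, pair (pair n m) q ∈ r3 Nr) ∨
    (∃ n ∈ ZFSet.omega, ∃ B ∈ PPw, x = pair n B ∧ y = ∅ ∧ pair n q ∈ r2 Pr) ∨
    (∃ n ∈ ZFSet.omega, ∃ B ∈ PPw, x = ∅ ∧ y = pair n B ∧ pair n q ∈ r2 Pr) ∨
    (∃ n ∈ ZFSet.omega, ∃ m ∈ ZFSet.omega, ∃ B ∈ PPw, ∃ B' ∈ PPw, ¬ n = m ∧ x = pair n B ∧
      y = pair m B' ∧ (pair n q ∈ r2 Pr ∨ pair m q ∈ r2 Pr)))) (by (repeat' first | assumption | exact DfnF.proj _ | exact DfnF.const (by assumption) | exact Dfn.prop _ | apply Dfn.not | apply Dfn.and | apply Dfn.or | apply Dfn.imp | apply Dfn.iff | apply hM.base.bex | apply hM.base.ball | apply Dfn.ex | apply Dfn.all | apply Dfn.eq | apply Dfn.mem | apply hM.base.pair' | apply Dfn.comp3 (Q := Tb) (dfn_Tb hM hq)))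
    (hM.prod_mem (hM.prod_mem hXM hXM) hω)
  obtain ⟨DR, hDRM, hDRm⟩ : ∃ DR ∈ M, ∀ a b, gd M a → gd M b → ∀ q : ℕ,
      (pair (pair (pt α a) (pt α b)) (nat q) ∈ DR ↔ nat q ∈ real (ds a b)) := by
    refine ⟨_, hDR, fun a b ha hb q => ?_⟩
    have hpn : ∀ n B, (∅ : ZFSet.{0}) ≠ pair n B := by
      intro n B h1
      have h2 : ({n} : ZFSet.{0}) ∈ pair n B := by
        rw [pair, ZFSet.mem_pair]
        exact Or.inl rfl
      rw [← h1] at h2
      exact ZFSet.notMem_empty _ h2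
    rw [ZFSet.mem_sep]
    have e1 : ∀ R : ZFSet.{0} → ZFSet.{0} → ZFSet.{0} → Prop,
        (pair (pair (pt α a) (pt α b)) (nat q) ∈ (ZFSet.prod (ZFSet.prod XM XM) ZFSet.omega : ZFSet.{0}) ∧
        ∃ x ∈ XM, ∃ y ∈ XM, ∃ q' ∈ (ZFSet.omega : ZFSet.{0}), pair (pair (pt α a) (pt α b)) (nat q) =
          pair (pair x y) q' ∧ R x y q') ↔ R (pt α a) (pt α b) (nat q) := by
      intro R
      constructor
      · rintro ⟨-, x, -, y, -, q', -, h1, h2⟩
        obtain ⟨h3, rfl⟩ := ZFSet.pair_inj.1 h1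
        obtain ⟨rfl, rfl⟩ := ZFSet.pair_inj.1 h3
        exact h2
      · intro h1
        exact ⟨ZFSet.pair_mem_prod.2 ⟨ZFSet.pair_mem_prod.2 ⟨hptX a ha, hptX b hb⟩, nat_om q⟩,
          _, hptX a ha, _, hptX b hb, _, nat_om q, rfl, h1⟩
    refine (e1 (fun x y q => ((x = ∅ ∧ y = ∅ ∧ q ∈ real 0) ∨
      (∃ n ∈ ZFSet.omega, ∃ B ∈ PPw, ∃ B' ∈ PPw, x = pair n B ∧ y = pair n B' ∧
        ∃ t ∈ Ct, Tb B' B t ∧ ∃ m ∈ t, pair (pair n m) q ∈ r3 Nr) ∨
      (∃ n ∈ ZFSet.omega, ∃ B ∈ PPw, x = pair n B ∧ y = ∅ ∧ pair n q ∈ r2 Pr) ∨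
      (∃ n ∈ ZFSet.omega, ∃ B ∈ PPw, x = ∅ ∧ y = pair n B ∧ pair n q ∈ r2 Pr) ∨
      (∃ n ∈ ZFSet.omega, ∃ m ∈ ZFSet.omega, ∃ B ∈ PPw, ∃ B' ∈ PPw, ¬ n = m ∧ x = pair n B ∧
        y = pair m B' ∧ (pair n q ∈ r2 Pr ∨ pair m q ∈ r2 Pr))))).trans ?_
    beta_reduce
    cases a with
    | none =>
      cases b with
      | none =>
        rw [ds_eq_zero.2 rfl]
        constructor
        · rintro (⟨-, -, h1⟩ | ⟨n, -, B, -, B', -, h1, -⟩ | ⟨n, -, B, -, h1, -⟩ |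
            ⟨n, -, B, -, -, h1, -⟩ | ⟨n, -, m, -, B, -, B', -, -, h1, -⟩)
          · exact h1
          · exact absurd h1 (hpn _ _)
          · exact absurd h1 (hpn _ _)
          · exact absurd h1 (hpn _ _)
          · exact absurd h1 (hpn _ _)
        · exact fun h1 => Or.inl ⟨rfl, rfl, h1⟩
      | some j =>
        obtain ⟨j, θ⟩ := j
        rw [ds_none]
        constructor
        · rintro (⟨-, h1, -⟩ | ⟨n, -, B, -, B', -, h1, -⟩ | ⟨n, -, B, -, h1, -⟩ |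
            ⟨n, -, B, -, -, h1, h2⟩ | ⟨n, -, m, -, B, -, B', -, -, h1, -⟩)
          · exact absurd h1.symm (hpn _ _)
          · exact absurd h1 (hpn _ _)
          · exact absurd h1 (hpn _ _)
          · obtain ⟨rfl, -⟩ := ZFSet.pair_inj.1 h1
            exact mem_pow.1 h2
          · exact absurd h1 (hpn _ _)
        · intro h1
          exact Or.inr (Or.inr (Or.inr (Or.inl ⟨nat j, nat_om j, _, hAP j θ hb, rfl, rfl,
            mem_pow.2 h1⟩)))
    | some i =>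
      obtain ⟨i, θ⟩ := i
      cases b with
      | none =>
        rw [ds_comm, ds_none]
        constructor
        · rintro (⟨h1, -, -⟩ | ⟨n, -, B, -, B', -, -, h1, -⟩ | ⟨n, -, B, -, h1, -, h2⟩ |
            ⟨n, -, B, -, h1, -⟩ | ⟨n, -, m, -, B, -, B', -, -, -, h1, -⟩)
          · exact absurd h1.symm (hpn _ _)
          · exact absurd h1 (hpn _ _)
          · obtain ⟨rfl, -⟩ := ZFSet.pair_inj.1 h1
            exact mem_pow.1 h2
          · exact absurd h1.symm (hpn _ _)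
          · exact absurd h1 (hpn _ _)
        · intro h1
          exact Or.inr (Or.inr (Or.inl ⟨nat i, nat_om i, _, hAP i θ ha, rfl, rfl,
            mem_pow.2 h1⟩))
      | some j =>
        obtain ⟨j, θ'⟩ := j
        by_cases hij : i = j
        · subst hij
          rw [ds_some]
          constructor
          · rintro (⟨h1, -, -⟩ | ⟨n, -, B, -, B', hB', h1, h2, t, ht, h3, h4⟩ |
              ⟨n, -, B, -, -, h1, -⟩ | ⟨n, -, B, -, h1, -⟩ |
              ⟨n, -, m, -, B, -, B', -, h0, h1, h2, -⟩)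
            · exact absurd h1.symm (hpn _ _)
            · obtain ⟨rfl, rfl⟩ := ZFSet.pair_inj.1 h1
              obtain ⟨-, rfl⟩ := ZFSet.pair_inj.1 h2
              obtain ⟨η, hη, rfl⟩ := (hCt' _).1 ht
              rw [Tb_iff (hPPe _ hB')] at h3
              have h5 := h.inj _ _ _ h3
              have h6 : θ - θ' = η := by
                change θ' = θ - η at h5
                rw [h5]
                abel
              rw [h6]
              exact lt_norm_iff.1 h4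
            · exact absurd h1.symm (hpn _ _)
            · exact absurd h1.symm (hpn _ _)
            · obtain ⟨rfl, -⟩ := ZFSet.pair_inj.1 h1
              obtain ⟨rfl, -⟩ := ZFSet.pair_inj.1 h2
              exact absurd rfl h0
          · intro h1
            refine Or.inr (Or.inl ⟨nat i, nat_om i, _, hAP i θ ha, _, hAP i θ' hb, rfl, rfl,
              cd (θ - θ'), (hCt' _).2 ⟨_, h.sub_mem ha hb, rfl⟩, ?_, lt_norm_iff.2 h1⟩)
            rw [Tb_iff As_elem]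
            congr 1
            abel
        · have h0 : lev (some (i, θ)) ≠ lev (some (j, θ')) := by
            simpa [lev] using hij
          rw [ds_diff h0]
          have h7 : nat q ∈ real (max (sz (some (i, θ))) (sz (some (j, θ')))) ↔
              nat q ∈ real ((1 / 2) ^ i) ∨ nat q ∈ real ((1 / 2) ^ j) := by
            simp only [mem_real, sz]
            constructor
            · rintro ⟨q', h1, h2⟩
              rcases lt_max_iff.1 h1 with h3 | h3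
              · exact Or.inl ⟨q', h3, h2⟩
              · exact Or.inr ⟨q', h3, h2⟩
            · rintro (⟨q', h1, h2⟩ | ⟨q', h1, h2⟩)
              · exact ⟨q', lt_max_of_lt_left h1, h2⟩
              · exact ⟨q', lt_max_of_lt_right h1, h2⟩
          rw [h7]
          constructor
          · rintro (⟨h1, -, -⟩ | ⟨n, -, B, -, B', hB', h1, h2, t, ht, h3, h4⟩ |
              ⟨n, -, B, -, -, h1, -⟩ | ⟨n, -, B, -, h1, -⟩ |
              ⟨n, -, m, -, B, -, B', -, -, h1, h2, h3⟩)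
            · exact absurd h1.symm (hpn _ _)
            · obtain ⟨rfl, rfl⟩ := ZFSet.pair_inj.1 h1
              obtain ⟨h5, rfl⟩ := ZFSet.pair_inj.1 h2
              exact absurd (nat_injective h5).symm hij
            · exact absurd h1.symm (hpn _ _)
            · exact absurd h1.symm (hpn _ _)
            · obtain ⟨rfl, -⟩ := ZFSet.pair_inj.1 h1
              obtain ⟨rfl, -⟩ := ZFSet.pair_inj.1 h2
              rcases h3 with h3 | h3
              · exact Or.inl (mem_pow.1 h3)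
              · exact Or.inr (mem_pow.1 h3)
          · intro h1
            refine Or.inr (Or.inr (Or.inr (Or.inr ⟨nat i, nat_om i, nat j, nat_om j, _,
              hAP i θ ha, _, hAP j θ' hb, fun h2 => hij (nat_injective h2), rfl, rfl, ?_⟩)))
            rcases h1 with h1 | h1
            · exact Or.inl (mem_pow.2 h1)
            · exact Or.inr (mem_pow.2 h1)
  have hds : ∀ a b, gd M a → gd M b → real (ds a b) ∈ M := by
    intro a b ha hb
    have hpa := hM.trans _ hXM _ (hptX a ha)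
    have hpb := hM.trans _ hXM _ (hptX b hb)
    have hpq := hM.pair_mem hpa hpb
    have h1 := hM.sep_mem (Q := fun q => pair (pair (pt α a) (pt α b)) q ∈ DR) (by (repeat' first | assumption | exact DfnF.proj _ | exact DfnF.const (by assumption) | exact Dfn.prop _ | apply Dfn.not | apply Dfn.and | apply Dfn.or | apply Dfn.imp | apply Dfn.iff | apply hM.base.bex | apply hM.base.ball | apply Dfn.ex | apply Dfn.all | apply Dfn.eq | apply Dfn.mem | apply hM.base.pair')) hω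
    have h2 : ZFSet.sep (fun q => pair (pair (pt α a) (pt α b)) q ∈ DR) ZFSet.omega =
        real (ds a b) := by
      ext q
      rw [ZFSet.mem_sep]
      constructor
      · rintro ⟨h3, h4⟩
        obtain ⟨q, rfl⟩ := mem_omega_iff.1 h3
        exact (hDRm a b ha hb q).1 h4
      · intro h3
        have h4 := real_sub _ h3
        obtain ⟨q, rfl⟩ := mem_omega_iff.1 h4
        exact ⟨h4, (hDRm a b ha hb q).2 h3⟩
    rwa [h2] at h1
  have hdM := hM.sep_mem (Q := fun w => ∃ x ∈ XM, ∃ y ∈ XM, ∃ z ∈ Pw, w = pair (pair x y) z ∧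
    ∀ q ∈ ZFSet.omega, (q ∈ z ↔ pair (pair x y) q ∈ DR)) (by (repeat' first | assumption | exact DfnF.proj _ | exact DfnF.const (by assumption) | exact Dfn.prop _ | apply Dfn.not | apply Dfn.and | apply Dfn.or | apply Dfn.imp | apply Dfn.iff | apply hM.base.bex | apply hM.base.ball | apply Dfn.ex | apply Dfn.all | apply Dfn.eq | apply Dfn.mem | apply hM.base.pair'))
    (hM.prod_mem (hM.prod_mem hXM hXM) hPw)
  have hUM := hM.sep_mem (Q := fun w => ∃ j ∈ ZFSet.omega, ∃ x ∈ XM, ∃ y ∈ XM,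
    w = pair j (pair x y) ∧ ∃ q ∈ ZFSet.omega, ¬ pair (pair x y) q ∈ DR ∧ pair j q ∈ r2 Pr) (by (repeat' first | assumption | exact DfnF.proj _ | exact DfnF.const (by assumption) | exact Dfn.prop _ | apply Dfn.not | apply Dfn.and | apply Dfn.or | apply Dfn.imp | apply Dfn.iff | apply hM.base.bex | apply hM.base.ball | apply Dfn.ex | apply Dfn.all | apply Dfn.eq | apply Dfn.mem | apply hM.base.pair'))
    (hM.prod_mem hω (hM.prod_mem hXM hXM))
  have hLM := hM.sep_mem (Q := fun w => ∃ n ∈ ZFSet.omega, ∃ B ∈ PPw, w = pair n (pair n B))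
    (by (repeat' first | assumption | exact DfnF.proj _ | exact DfnF.const (by assumption) | exact Dfn.prop _ | apply Dfn.not | apply Dfn.and | apply Dfn.or | apply Dfn.imp | apply Dfn.iff | apply hM.base.bex | apply hM.base.ball | apply Dfn.ex | apply Dfn.all | apply Dfn.eq | apply Dfn.mem | apply hM.base.pair'))
    (hM.prod_mem hω hXS)
  have hArM : ∀ n : ℕ, ∃ Ar ∈ M, ∀ c x, pair (nat c) x ∈ Ar ↔
      ∃ θ ∈ arc c, cd θ ∈ M ∧ x = pt α (some (n, θ)) := by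
    intro n
    have hA0 := h.As_zero_mem n
    have hnM : nat n ∈ M := hM.trans _ hω _ (nat_om n)
    have h1 := hM.sep_mem (Q := fun w => ∃ c ∈ ZFSet.omega, ∃ B ∈ PPw, w = pair c (pair (nat n) B) ∧
      ∃ t ∈ Ct, Tb (As α n 0) B t ∧ c ∈ t) (by (repeat' first | assumption | exact DfnF.proj _ | exact DfnF.const (by assumption) | exact Dfn.prop _ | apply Dfn.not | apply Dfn.and | apply Dfn.or | apply Dfn.imp | apply Dfn.iff | apply hM.base.bex | apply hM.base.ball | apply Dfn.ex | apply Dfn.all | apply Dfn.eq | apply Dfn.mem | apply hM.base.pair' | apply Dfn.comp3 (Q := Tb) (dfn_Tb hM hq)))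
      (hM.prod_mem hω hXS)
    refine ⟨_, h1, fun c x => ?_⟩
    rw [ZFSet.mem_sep, ZFSet.pair_mem_prod, hXSm]
    constructor
    · rintro ⟨⟨-, m, θ, hθ, rfl⟩, c', -, B, -, h2, t, ht, h3, h4⟩
      obtain ⟨rfl, h5⟩ := ZFSet.pair_inj.1 h2
      obtain ⟨h6, rfl⟩ := ZFSet.pair_inj.1 h5
      obtain rfl := nat_injective h6
      obtain ⟨η, hη, rfl⟩ := (hCt' _).1 ht
      rw [Tb_iff As_elem] at h3
      have h7 := h.inj _ _ _ h3
      have h8 : η = θ := (sub_eq_zero.1 h7.symm).symm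
      subst h8
      exact ⟨η, mem_cd.1 h4, hη, rfl⟩
    · rintro ⟨θ, h2, hθ, rfl⟩
      refine ⟨⟨nat_om c, n, θ, hθ, rfl⟩, nat c, nat_om c, _, hAP n θ hθ, rfl, cd θ,
        (hCt' _).2 ⟨θ, hθ, rfl⟩, ?_, mem_cd.2 h2⟩
      rw [Tb_iff As_elem, sub_self]
  choose ArM hArM hArm using hArM
  refine ⟨XM, _, _, _, ArM, hXM, hdM, hUM, hLM, hArM, hXm, fun a b ha hb z => ?_,
    fun j a b ha hb => ?_, fun n x => ?_, hArm⟩
  · rw [ZFSet.mem_sep]
    constructor
    · rintro ⟨-, x, -, y, -, z', hz', h1, h2⟩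
      obtain ⟨h3, rfl⟩ := ZFSet.pair_inj.1 h1
      obtain ⟨rfl, rfl⟩ := ZFSet.pair_inj.1 h3
      ext q
      constructor
      · intro hq'
        have h4 := ((hPw' _).1 hz').2 hq'
        obtain ⟨q, rfl⟩ := mem_omega_iff.1 h4
        exact (hDRm a b ha hb q).1 ((h2 _ h4).1 hq')
      · intro hq'
        have h4 := real_sub _ hq'
        obtain ⟨q, rfl⟩ := mem_omega_iff.1 h4
        exact (h2 _ h4).2 ((hDRm a b ha hb q).2 hq')
    · rintro rfl
      have h1 : real (ds a b) ∈ Pw := (hPw' _).2 ⟨hds a b ha hb, real_sub _⟩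
      refine ⟨ZFSet.pair_mem_prod.2 ⟨ZFSet.pair_mem_prod.2 ⟨hptX a ha, hptX b hb⟩, h1⟩,
        _, hptX a ha, _, hptX b hb, _, h1, rfl, fun q hq' => ?_⟩
      obtain ⟨q, rfl⟩ := mem_omega_iff.1 hq'
      exact (hDRm a b ha hb q).symm
  · rw [ZFSet.mem_sep, ← lt_pow_iff]
    constructor
    · rintro ⟨-, j', -, x, -, y, -, h1, q, hq', h2, h3⟩
      obtain ⟨rfl, h4⟩ := ZFSet.pair_inj.1 h1
      obtain ⟨rfl, rfl⟩ := ZFSet.pair_inj.1 h4
      refine ⟨q, hq', fun h5 => h2 ?_, h3⟩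
      obtain ⟨q, rfl⟩ := mem_omega_iff.1 hq'
      exact (hDRm a b ha hb q).2 h5
    · rintro ⟨q, hq', h2, h3⟩
      refine ⟨ZFSet.pair_mem_prod.2 ⟨nat_om j, ZFSet.pair_mem_prod.2 ⟨hptX a ha, hptX b hb⟩⟩,
        _, nat_om j, _, hptX a ha, _, hptX b hb, rfl, q, hq', fun h5 => h2 ?_, h3⟩
      obtain ⟨q, rfl⟩ := mem_omega_iff.1 hq'
      exact (hDRm a b ha hb q).1 h5
  · rw [ZFSet.mem_sep, ZFSet.pair_mem_prod, hXSm]
    constructor
    · rintro ⟨⟨-, m, θ, hθ, rfl⟩, n', -, B, -, h1⟩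
      obtain ⟨rfl, h2⟩ := ZFSet.pair_inj.1 h1
      obtain ⟨h3, rfl⟩ := ZFSet.pair_inj.1 h2
      obtain rfl := nat_injective h3
      exact ⟨θ, hθ, rfl⟩
    · rintro ⟨θ, hθ, rfl⟩
      exact ⟨⟨nat_om n, n, θ, hθ, rfl⟩, nat n, nat_om n, _, hAP n θ hθ, rfl⟩

end Pool.Agent.H99.CS
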