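import Pool.Agent.H99.CS.Gen
import Pool.Agent.H99.CS.Spc

/-!
# The names
-/

set_option autoImplicit false

namespace Pool.Agent.H99.CS

open Pool.Agent.W868 Pool.Agent.W868.PName Pool.Agent.R598.SY Pool.Agent.R598.TY
open Pool.Agent.R598.CI (arc isOpen_arc exists_arc famN el_famN fix_famN hs_famN val_famN
  RCS mem_RCS hat_sub isZF_Ms SF UDf)
open ZFSet (pair)

/-- The name of the code of the value of `f` at the generic point. -/
noncomputable def fN (f : X → T) : PName Cnd :=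
  PName.mk {t : ℕ × Cnd // ∀ x ∈ t.2.1, f x ∈ arc t.1} (fun t => check (nat t.1.1)) fun t => t.1.2

theorem el_fN {f : X → T} {z : PName Cnd} {c : Cnd} : El (fN f) z c ↔
    ∃ m : ℕ, (∀ x ∈ c.1, f x ∈ arc m) ∧ z = check (nat m) := by
  rw [fN, el_mk]
  constructor
  · rintro ⟨⟨⟨m, c⟩, h⟩, rfl, rfl⟩
    exact ⟨m, h, rfl⟩
  · rintro ⟨m, h, rfl⟩
    exact ⟨⟨⟨m, c⟩, h⟩, rfl, rfl⟩

theorem ag_check (g : Gr) (x : ZFSet.{0}) : ag g (check x : PName Cnd) = check x :=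
  act_check (sy.top g) x

theorem ag_opN (g : Gr) (x y : PName Cnd) : ag g (opN x y) = opN (ag g x) (ag g y) :=
  act_opN (sy.top g) x y

theorem el_ag_fN {g : Gr} {f : X → T} {z : PName Cnd} {c : Cnd} : El (ag g (fN f)) z c ↔
    El (fN fun x => f ((g⁻¹).1 x)) z c := by
  rw [ag, el_act]
  constructor
  · rintro ⟨z, c, hz, rfl, rfl⟩
    obtain ⟨m, hm, rfl⟩ := el_fN.1 hz
    refine el_fN.2 ⟨m, fun x hx => hm _ (mem_ac.1 hx), ?_⟩
    exact ag_check g _
  · intro hz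
    obtain ⟨m, hm, rfl⟩ := el_fN.1 hz
    refine ⟨check (nat m), acH g⁻¹ c, el_fN.2 ⟨m, fun x hx => ?_, rfl⟩, ?_, ?_⟩
    · have h1 := hm _ (mem_ac_inv.1 hx)
      rwa [inv_g] at h1
    · exact (ag_check g _).symm
    · rw [acH_acH, mul_inv_cancel, acH_one]

theorem feq_ag_fN {g : Gr} {f f' : X → T} (h : ∀ x, f ((g⁻¹).1 x) = f' x) (p : Cnd) :
    Feq (ag g (fN f)) (fN f') p := by
  refine feq_of_el fun z c => ?_
  rw [el_ag_fN]
  have h1 : (fun x => f ((g⁻¹).1 x)) = f' := funext h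
  rw [h1]

/-- The name of the coordinate. -/
noncomputable def cN (i : Ix) : PName Cnd := fN fun x => x i

theorem fix_cN (i : Ix) : sy.Fix (Kf {i}) (cN i) :=
  fix_iff.2 fun _ hg p => feq_ag_fN (fun x => inv_mem hg x i (Finset.mem_singleton_self i)) p

theorem hs_cN (i : Ix) : sy.HS (cN i) := by
  refine sy.hs_iff.2 ⟨⟨Kf {i}, ⟨{i}, rfl⟩, fix_cN i⟩, fun z c hz => ?_⟩
  obtain ⟨m, -, rfl⟩ := el_fN.1 hz
  exact sy.hs_check _

/-- The name of the set number `n`. -/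
noncomputable def AN (n : ℕ) : PName Cnd := famN ℕ fun j => cN (some n, j)

theorem fix_AN (n : ℕ) : sy.Fix (Kf {(some n, 0)}) (AN n) := by
  refine fix_famN fun g hg => ⟨sr (g⁻¹ : Gr) n, (sr (g⁻¹ : Gr) n).surjective, fun j p => ?_⟩
  have hg' : (g⁻¹ : Gr) ∈ Kf {(some n, 0)} := inv_mem hg
  refine feq_ag_fN (g := g) (fun x => ?_) p
  have h1 : tr (g⁻¹ : Gr) n x = 0 := tr_zero hg' (mem_Rw.2 ⟨0, Finset.mem_singleton_self _⟩) x
  have h2 := g_some (g⁻¹ : Gr) n x j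
  rw [h1, add_zero] at h2
  exact h2

theorem hs_AN (n : ℕ) : sy.HS (AN n) := hs_famN ⟨_, rfl⟩ (fix_AN n) fun j => hs_cN _

/-- The name of the set of the translates. -/
noncomputable def OnN : PName Cnd := sy.orb ℕ fun n => opN (check (nat n)) (AN n)

theorem hs_OnN : sy.HS OnN := sy.hs_orb fun n => sy.hs_opN (sy.hs_check _) (hs_AN n)

theorem ag_famN (g : Gr) (F : ℕ → PName Cnd) : ag g (famN ℕ F) = famN ℕ fun j => ag g (F j) := by
  rw [famN, famN, ag, act]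
  congr 1

theorem famN_inj {F G : ℕ → PName Cnd} (h : famN ℕ F = famN ℕ G) : F = G := by
  rw [famN, famN] at h
  injection h

open Classical in
/-- The rule for the elements of a family. -/
noncomputable def rCh : Rule Cnd := fun q => match q with
  | ⟨_, .mem s t, v, p⟩ =>
    if h : ∃ r : (ℕ → PName Cnd) × ℕ, tv v s = famN ℕ r.1 ∧ tv v t = check (nat r.2)
    then (h.choose.1 h.choose.2, p) else (emp, p)
  | q => (emp, q.p)

/-- The generic sets. -/
def OO (k : ℕ) : Set X :=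
  if k.unpair.2.unpair.1 ≠ 0 ∧ k.unpair.2.unpair.1 ≠ k.unpair.2.unpair.2.unpair.1 ∧
    k.unpair.2.unpair.1 ≠ k.unpair.2.unpair.2.unpair.2 then
  {x : X | x (some k.unpair.1, k.unpair.2.unpair.2.unpair.2) + x (some k.unpair.1, 0) ≠
    x (some k.unpair.1, k.unpair.2.unpair.1) +
      x (some k.unpair.1, k.unpair.2.unpair.2.unpair.1)}
  else Set.univ

theorem isOpen_OO (k : ℕ) : IsOpen (OO k) := by
  unfold OO
  split_ifs
  · exact isOpen_ne_fun (by fun_prop) (by fun_prop)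
  · exact isOpen_univ

theorem exists_small {δ : ℝ} (hδ : 0 < δ) : ∃ ε : T, ε ≠ 0 ∧ ‖ε‖ < δ := by
  have h1 : 0 < min (δ / 2) (1 / 4) := lt_min (by positivity) (by norm_num)
  refine ⟨((min (δ / 2) (1 / 4) : ℝ) : T), fun h => ?_, ?_⟩
  · obtain ⟨n, hn⟩ := (AddCircle.coe_eq_zero_iff (1 : ℝ)).1 h
    rw [zsmul_eq_mul, mul_one] at hn
    have h2 : min (δ / 2) (1 / 4) ≤ 1 / 4 := min_le_right _ _
    rw [← hn] at h1 h2
    have h3 : (0 : ℤ) < n := by exact_mod_cast h1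
    have h4 : (1 : ℝ) ≤ n := by exact_mod_cast h3
    linarith
  · refine (norm_coe_le _).trans_lt ?_
    rw [abs_of_pos h1]
    have h2 : min (δ / 2) (1 / 4) ≤ δ / 2 := min_le_left _ _
    linarith

theorem dense_ne {n a b b' : ℕ} (h0 : b ≠ 0) (ha : b ≠ a) (hb : b ≠ b') :
    Dense {x : X | x (some n, b') + x (some n, 0) ≠ x (some n, b) + x (some n, a)} := by
  rw [dense_iff_inter_open]
  intro U hU ⟨z, hz⟩
  obtain ⟨S, δ, hδ, hS⟩ := exists_box hU hz
  obtain ⟨ε, hε, hε'⟩ := exists_small hδ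
  by_cases h1 : z (some n, b') + z (some n, 0) = z (some n, b) + z (some n, a)
  · refine ⟨Function.update z (some n, b) (z (some n, b) + ε), hS fun i _ => ?_, ?_⟩
    · by_cases hi : i = (some n, b)
      · subst hi
        rw [Function.update_self, add_sub_cancel_left]
        exact hε'
      · rw [Function.update_of_ne hi, sub_self, norm_zero]
        exact hδ
    · change _ ≠ _
      rw [Function.update_self, Function.update_of_ne, Function.update_of_ne,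
        Function.update_of_ne, h1]
      · intro h2
        apply hε
        have h3 : z (some n, b) + ε + z (some n, a) = z (some n, b) + z (some n, a) + ε := by
          abel
        rw [h3] at h2
        exact left_eq_add.1 h2
      · intro h2
        exact ha (Prod.mk.inj h2).2.symm
      · intro h2
        exact h0 (Prod.mk.inj h2).2.symm
      · intro h2
        exact hb (Prod.mk.inj h2).2.symm
  · exact ⟨z, hz, h1⟩

theorem dense_OO (k : ℕ) : Dense (OO k) := by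
  unfold OO
  split_ifs with h
  · exact dense_ne h.1 h.2.1 h.2.2
  · exact dense_univ

/-- The properties of the package. -/
structure GP (π : Pkg Cnd) (xs : X) : Prop where
  cld : sy.Cld π
  gen : ∀ U : Cnd, (∃ k, π.g k ≤ U) ↔ xs ∈ U.1
  oo : ∀ k, xs ∈ OO k
  ch : ∀ (F : ℕ → PName Cnd) (j : ℕ), famN ℕ F ∈ π.N → F j ∈ π.N
  an : ∀ n, AN n ∈ π.N
  on : OnN ∈ π.N
  q : r3 Qr ∈ π.Z
  i : r2 Ir ∈ π.Z
  s : r2 Sr ∈ π.Z
  c : r2 Clr ∈ π.Z
  n : r3 Nr ∈ π.Z
  p : r2 Pr ∈ π.Z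
  e : r3 Er ∈ π.Z
  rcs : RCS ∈ π.Z
  mem : Pool.Agent.R598.TY.Mem ∈ π.Z
  z0 : real 0 ∈ π.Z

theorem exists_GP (A : Set (PName Cnd)) (hA : A.Countable) (R : Set (Rule Cnd)) (hR : R.Countable)
    (p : Cnd) : ∃ (π : Pkg Cnd) (xs : X), GP π xs ∧ A ⊆ π.N ∧ π.g 0 = p ∧
      ∀ ρ ∈ R, ∀ q : Query Cnd, q.In π.N π.C → (ρ q).1 ∈ π.N ∧ (ρ q).2 ∈ π.C := by
  obtain ⟨π, xs, h1, h2, h3, h4, h5, h6⟩ := exists_gen OO isOpen_OO dense_OO
    ((({OnN, check (r3 Qr), check (r2 Ir), check (r2 Sr), check (r2 Clr), check (r3 Nr),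
      check (r2 Pr), check (r3 Er), check RCS, check Pool.Agent.R598.TY.Mem, check (real 0)} :
      Set (PName Cnd)) ∪ Set.range AN) ∪ A)
    (((Set.toFinite _).countable.union (Set.countable_range _)).union hA) ({rCh} ∪ R)
    ((Set.countable_singleton _).union hR) p
  have m : ∀ x ∈ ({OnN, check (r3 Qr), check (r2 Ir), check (r2 Sr), check (r2 Clr),
      check (r3 Nr), check (r2 Pr), check (r3 Er), check RCS, check Pool.Agent.R598.TY.Mem,
      check (real 0)} : Set (PName Cnd)), x ∈ π.N := fun x hx => h2 (Or.inl (Or.inl hx))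
  refine ⟨π, xs, ⟨h1, h4, h5, fun F j hF => ?_, fun n => h2 (Or.inl (Or.inr ⟨n, rfl⟩)),
    m _ (by simp), m _ (by simp), m _ (by simp), m _ (by simp), m _ (by simp), m _ (by simp),
    m _ (by simp), m _ (by simp), m _ (by simp), m _ (by simp), m _ (by simp)⟩,
    fun x hx => h2 (Or.inr hx), h3, fun ρ hρ => h6 ρ (Or.inr hρ)⟩
  have h7 := (h6 rCh (Or.inl rfl) _ (query2 hF (π.nat_Z j) (π.gC 0))).1
  have h8 : ∃ r : (ℕ → PName Cnd) × ℕ, tv (Fin.elim0 : Fin 0 → PName Cnd)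
      (Sum.inr (famN ℕ F)) = famN ℕ r.1 ∧ tv (Fin.elim0 : Fin 0 → PName Cnd)
      (Sum.inr (check (nat j))) = check (nat r.2) := ⟨(F, j), rfl, rfl⟩
  have h9 : (rCh ⟨0, .mem (Sum.inr (famN ℕ F)) (Sum.inr (check (nat j))), Fin.elim0,
      π.g 0⟩).1 = h8.choose.1 h8.choose.2 := by
    unfold rCh
    simp only [dif_pos h8]
  rw [h9] at h7
  obtain ⟨h10, h11⟩ := h8.choose_spec
  have h12 : F = h8.choose.1 := famN_inj h10
  have h13 : j = h8.choose.2 := nat_injective (check_injective h11)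
  rwa [← h12, ← h13] at h7

namespace GP

variable {π : Pkg Cnd} {xs : X} (h : GP π xs)

include h

theorem val_fN {f : X → T} (hf : Continuous f) : π.val (fN f) = cd (f xs) := by
  ext z
  rw [π.mem_val]
  constructor
  · rintro ⟨y, -, c, hc, hk, rfl⟩
    obtain ⟨m, hm, rfl⟩ := el_fN.1 hc
    have h1 : π.val (check (nat m)) = nat m := π.hat_nat m
    rw [h1]
    exact mem_cd.2 (hm _ ((h.gen c).1 hk))
  · intro hz
    obtain ⟨m, rfl⟩ := mem_omega_iff.1 (cd_sub _ hz)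
    have h1 := mem_cd.1 hz
    refine ⟨check (nat m), π.nat_Z m, ⟨f ⁻¹' arc m, (isOpen_arc m).preimage hf, xs, h1⟩,
      el_fN.2 ⟨m, fun x hx => hx, rfl⟩, (h.gen _).2 h1, π.hat_nat m⟩

omit h in
theorem val_congr {x y : PName Cnd} (hxy : ∀ z c, El x z c ↔ El y z c) : π.val x = π.val y := by
  ext z
  rw [π.mem_val, π.mem_val]
  simp only [hxy]

theorem val_ag_cN (g : Gr) (i : Ix) : π.val (ag g (cN i)) = cd ((g⁻¹).1 xs i) := by
  rw [cN, val_congr fun z c => el_ag_fN, h.val_fN]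
  have := (g⁻¹).1.continuous
  fun_prop

theorem val_ag_AN {g : Gr} {n : ℕ} (hg : ag g (AN n) ∈ π.N) :
    π.val (ag g (AN n)) = As (fun n j => xs (some n, j)) n (tr g⁻¹ n xs) := by
  rw [AN, ag_famN] at hg ⊢
  ext z
  rw [val_famN, mem_As]
  constructor
  · rintro ⟨j, -, rfl⟩
    exact ⟨sr g⁻¹ n j, by rw [h.val_ag_cN, g_some]⟩
  · rintro ⟨j, rfl⟩
    refine ⟨(sr g⁻¹ n).symm j, h.ch _ _ hg, ?_⟩
    rw [h.val_ag_cN, g_some, Equiv.apply_symm_apply]

end GP

end Pool.Agent.H99.CS
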