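import Pool.Agent.H99.CS.Nam

/-!
# There is no choice function for the circles
-/

set_option autoImplicit false

namespace Pool.Agent.H99.CS

open Pool.Agent.W868 Pool.Agent.W868.PName Pool.Agent.R598.SY Pool.Agent.R598.TY
open Pool.Agent.R598.CI (arc isOpen_arc exists_arc famN el_famN fix_famN hs_famN val_famN
  RCS mem_RCS hat_sub isZF_Ms SF UDf)
open ZFSet (pair)

/-! ### The statement -/

section

variable {n : ℕ} {F G H K : (Fin n → ZFSet.{0}) → ZFSet.{0}}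

theorem d0_pp (hF : D0v F) (hG : D0v G) (hH : D0v H) (hK : D0v K) :
    D0 fun v => pair (pair (F v) (G v)) (H v) ∈ K v := by
  have h1 : D0 fun v => ∃ w ∈ K v, ∃ u m, w = pair u m ∧ (m = H v ∧ u = pair (F v) (G v)) := by
    apply D0.bex hK
    apply D0.expair (D0v.proj 0)
    apply D0.and
    · exact D0.eq (D0v.proj 0) hH.tail.tail.tail
    · exact D0.isPair (D0v.proj 1) hF.tail.tail.tail hG.tail.tail.tail
  refine h1.congr fun v => ?_
  constructor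
  · rintro ⟨w, hw, u, m, rfl, rfl, rfl⟩
    exact hw
  · exact fun h => ⟨_, h, _, _, rfl, rfl, rfl⟩

end

/-- The set is a code, with parameters. -/
def Ccp (t om i sr c : ZFSet.{0}) : Prop :=
  (∀ m1 ∈ t, ∀ m2 ∈ t, pair m1 m2 ∈ i) ∧ (∀ k ∈ om, ∃ m ∈ t, pair k m ∈ sr) ∧
  ∀ m ∈ om, (m ∈ t ↔ ∃ m' ∈ t, pair m' m ∈ c)

/-- The difference, with parameters. -/
def Sbp (b a t om q : ZFSet.{0}) : Prop :=
  ∀ m ∈ om, (m ∈ b ↔ ∃ m1 ∈ a, ∃ m2 ∈ t, pair (pair m1 m2) m ∈ q)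

/-- The translate, with parameters. -/
def Tbp (B A t om q : ZFSet.{0}) : Prop :=
  (∀ b ∈ B, ∃ a ∈ A, Sbp b a t om q) ∧ ∀ a ∈ A, ∃ b ∈ B, Sbp b a t om q

/-- The value of `s` at `n` is the translate of `A` by `t`, and `m0` is an arc of `t`. -/
def Mx (z B t s n A m0 om q i sr c : ZFSet.{0}) : Prop :=
  (∀ m ∈ t, m ∈ om) ∧ Ccp t om i sr c ∧ m0 ∈ t ∧ (∀ b ∈ B, ∀ m ∈ b, m ∈ om) ∧ z = pair n B ∧
    pair n z ∈ s ∧ (¬ ∃ w ∈ s, ∃ u z', w = pair u z' ∧ (u = n ∧ ¬ z' = z)) ∧ Tbp B A t om q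

theorem d0_Mx : D0 fun v : Fin 12 → ZFSet.{0} => Mx (v 0) (v 1) (v 2) (v 3) (v 4) (v 5) (v 6)
    (v 7) (v 8) (v 9) (v 10) (v 11) := by
  unfold Mx Ccp Tbp Sbp
  (repeat' first
      | assumption
      | exact D0v.proj _
      | apply D0.not | apply D0.and | apply D0.or | apply D0.imp | apply D0.iff
      | apply D0.bex | apply D0.ball | apply D0.expair
      | apply D0.isPair
      | apply d0_pp | apply D0.pairMem
      | apply D0.eq | apply D0.mem)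

/-- The statement. -/
def R9c (M : Set ZFSet.{0}) (s n A m0 om q i sr c : ZFSet.{0}) : Prop :=
  ∃ t ∈ M, ∃ B ∈ M, ∃ z ∈ M, Mx z B t s n A m0 om q i sr c

def R9 (M : Set ZFSet.{0}) (v : Fin 9 → ZFSet.{0}) : Prop :=
  R9c M (v 0) (v 1) (v 2) (v 3) (v 4) (v 5) (v 6) (v 7) (v 8)

theorem ud_R9 : UDf R9 := by
  refine UDf.ex (Q := fun M t (v : Fin 9 → ZFSet.{0}) => ∃ B ∈ M, ∃ z ∈ M, Mx z B t (v 0) (v 1)
    (v 2) (v 3) (v 4) (v 5) (v 6) (v 7) (v 8)) ?_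
  refine UDf.ex (Q := fun M B (v : Fin 10 → ZFSet.{0}) => ∃ z ∈ M, Mx z B (v 0) (v 1) (v 2)
    (v 3) (v 4) (v 5) (v 6) (v 7) (v 8) (v 9)) ?_
  refine UDf.ex (Q := fun M z (v : Fin 11 → ZFSet.{0}) => Mx z (v 0) (v 1) (v 2)
    (v 3) (v 4) (v 5) (v 6) (v 7) (v 8) (v 9) (v 10)) ?_
  exact UDf.of d0_Mx

/-- The vector of names. -/
noncomputable def vr (s a : PName Cnd) (n m0 : ℕ) : Fin 9 → PName Cnd :=
  ![s, check (nat n), a, check (nat m0), check ZFSet.omega, check (r3 Qr), check (r2 Ir),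
    check (r2 Sr), check (r2 Clr)]

theorem hs_vr {s a : PName Cnd} (hs : sy.HS s) (ha : sy.HS a) (n m0 : ℕ) :
    ∀ i, sy.HS (vr s a n m0 i) := by
  intro i
  fin_cases i
  · exact hs
  · exact sy.hs_check _
  · exact ha
  all_goals exact sy.hs_check _

theorem vr_mem {s a : PName Cnd} {π : Pkg Cnd} {xs : X} (h : GP π xs) (hs : s ∈ π.N)
    (ha : a ∈ π.N) (n m0 : ℕ) : ∀ i, vr s a n m0 i ∈ π.N := by
  intro i
  fin_cases i
  · exact hs
  · exact π.nat_Z n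
  · exact ha
  · exact π.nat_Z m0
  · exact π.omega_Z
  · exact h.q
  · exact h.i
  · exact h.s
  · exact h.c

theorem act_vr (g : Gr) (s a : PName Cnd) (n m0 : ℕ) :
    act (acH g) ∘ vr s a n m0 = vr (ag g s) (ag g a) n m0 := by
  funext i
  fin_cases i
  · rfl
  · exact act_check (sy.top g) _
  · rfl
  all_goals exact act_check (sy.top g) _

theorem vr_congr {s a s' a' : PName Cnd} {n m0 : ℕ} {p : Cnd} (h1 : Feq s s' p)
    (h2 : Feq a a' p) : ∀ i, Feq (vr s a n m0 i) (vr s' a' n m0 i) p := by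
  intro i
  fin_cases i
  · exact h1
  · exact Feq.refl _ _
  · exact h2
  all_goals exact Feq.refl _ _

theorem R9_val {s a : PName Cnd} {n m0 : ℕ} {π : Pkg Cnd} {M : Set ZFSet.{0}} :
    R9 M (π.val ∘ vr s a n m0) ↔ R9c M (π.val s) (nat n) (π.val a) (nat m0) ZFSet.omega
      (r3 Qr) (r2 Ir) (r2 Sr) (r2 Clr) := by
  have h1 : π.val (check (nat n)) = nat n := π.hat_nat n
  have h2 : π.val (check (nat m0)) = nat m0 := π.hat_nat m0
  have h3 : π.val (check ZFSet.omega) = ZFSet.omega := π.hat_omega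
  have h4 : π.val (check (r3 Qr)) = r3 Qr := hat_r3 π _
  have h5 : π.val (check (r2 Ir)) = r2 Ir := hat_r2 π _
  have h6 : π.val (check (r2 Sr)) = r2 Sr := hat_r2 π _
  have h7 : π.val (check (r2 Clr)) = r2 Clr := hat_r2 π _
  change R9c M (π.val s) (π.val (check (nat n))) (π.val a) (π.val (check (nat m0)))
    (π.val (check ZFSet.omega)) (π.val (check (r3 Qr))) (π.val (check (r2 Ir)))
    (π.val (check (r2 Sr))) (π.val (check (r2 Clr))) ↔ _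
  rw [h1, h2, h3, h4, h5, h6, h7]

theorem R9_out {M : Set ZFSet.{0}} {α : ℕ → ℕ → T} {s : ZFSet.{0}} {n m0 : ℕ} {β : T}
    (h : R9c M s (nat n) (As α n β) (nat m0) ZFSet.omega (r3 Qr) (r2 Ir) (r2 Sr) (r2 Clr)) :
    ∃ θ ∈ arc m0, pair (nat n) (pair (nat n) (As α n (β - θ))) ∈ s ∧
      ∀ z, pair (nat n) z ∈ s → z = pair (nat n) (As α n (β - θ)) := by
  obtain ⟨t, -, B, -, z, -, h1, h2, h3, h4, rfl, h5, h6, h7⟩ := h
  obtain ⟨θ, rfl⟩ := (Cc_iff h1).1 h2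
  have h8 : B = As α n (β - θ) := (Tb_iff h4).1 h7
  subst h8
  refine ⟨θ, mem_cd.1 h3, h5, fun z hz => ?_⟩
  by_contra hne
  exact h6 ⟨_, hz, _, _, rfl, rfl, hne⟩

theorem R9_in {M : Set ZFSet.{0}} {α : ℕ → ℕ → T} {s : ZFSet.{0}} {n m0 : ℕ} {β θ : T}
    (h1 : cd θ ∈ M) (h2 : As α n (β - θ) ∈ M) (h3 : pair (nat n) (As α n (β - θ)) ∈ M)
    (h4 : θ ∈ arc m0)
    (h5 : ∀ z, pair (nat n) z ∈ s ↔ z = pair (nat n) (As α n (β - θ))) :
    R9c M s (nat n) (As α n β) (nat m0) ZFSet.omega (r3 Qr) (r2 Ir) (r2 Sr) (r2 Clr) := by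
  refine ⟨_, h1, _, h2, _, h3, cd_sub θ, (Cc_iff (cd_sub θ)).2 ⟨θ, rfl⟩, mem_cd.2 h4,
    fun b hb => As_elem b hb, rfl, (h5 _).2 rfl, ?_, (Tb_iff As_elem).2 rfl⟩
  rintro ⟨w, hw, u, z', rfl, rfl, hne⟩
  exact hne ((h5 _).1 hw)

end Pool.Agent.H99.CS
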