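import Pool.Agent.H99.CS.Cond

/-!
# Invariance under small translations
-/

set_option autoImplicit false

namespace Pool.Agent.H99.CS

open Pool.Agent.W868 Pool.Agent.W868.PName Pool.Agent.R598.SY Pool.Agent.R598.CI
open ZFSet (pair)

/-- The supports. -/
structure Ctx where
  E : Finset Ix
  E' : Finset Ix
  L : ℕ
  hE : E ⊆ E'
  hL : ∀ i ∈ E', i.2 < L

namespace Ctx

variable (c : Ctx)

open Classical in
/-- The coordinates that are moved. -/
noncomputable def A : Finset Ix := c.E' \ c.E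

/-- The rows that are translated. -/
def Rd : Finset ℕ := Rw c.E' \ Rw c.E

theorem mem_A {i : Ix} : i ∈ c.A ↔ i ∈ c.E' ∧ i ∉ c.E := by
  rw [A, Finset.mem_sdiff]

theorem mem_Rd {n : ℕ} : n ∈ c.Rd ↔ n ∈ Rw c.E' ∧ n ∉ Rw c.E := by
  rw [Rd, Finset.mem_sdiff]

theorem hA : ∀ i ∈ c.A, i.2 < c.L := fun i hi => c.hL i (c.mem_A.1 hi).1

/-- The data of the translation by parameters. -/
noncomputable def sD : EpD where
  m := 2 * c.L + c.Rd.sup id + 1
  u _ _ := 0
  v n x := if n ∈ c.Rd then x (none, 2 * c.L + n) else 0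
  cu _ := continuous_const
  cv n := by
    by_cases h : n ∈ c.Rd
    · simp only [if_pos h]
      fun_prop
    · simp only [if_neg h]
      fun_prop
  du _ _ _ _ := rfl
  dv n x x' h := by
    by_cases hn : n ∈ c.Rd
    · simp only [if_pos hn]
      apply h
      have : n ≤ c.Rd.sup id := Finset.le_sup (f := id) hn
      omega
    · simp only [if_neg hn]
  u0 _ _ _ := rfl
  u1 := ⟨0, fun _ _ _ => rfl⟩

/-- The main automorphism: it moves the coordinates to new ones, and it translates the rows by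
parameters. -/
noncomputable def sg : Gr := c.sD.ep * pm c.A c.L c.hA

theorem pm_par (x : X) (n : ℕ) : (pm c.A c.L c.hA).1 x (none, 2 * c.L + n) =
    x (none, 2 * c.L + n) :=
  pm_id c.hA x (fun h => by
    have := c.hA _ h
    simp only at this
    omega) fun i hi => by
    have := c.hA _ hi
    simp only at this
    omega

theorem sg_none (x : X) (j : ℕ) : c.sg.1 x (none, j) = (pm c.A c.L c.hA).1 x (none, j) := by
  change (pm c.A c.L c.hA).1 x (none, j) + 0 = _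
  rw [add_zero]

theorem sg_some (x : X) (n j : ℕ) : c.sg.1 x (some n, j) = (pm c.A c.L c.hA).1 x (some n, j) +
    if n ∈ c.Rd then x (none, 2 * c.L + n) else 0 := by
  rw [← c.pm_par x n]
  rfl

theorem sgi_none (y : X) (j : ℕ) : (c.sg⁻¹).1 y (none, j) = y (none, swF c.A c.L none j) := by
  have h : c.sg⁻¹ = pm c.A c.L c.hA * c.sD.ep⁻¹ := by
    rw [sg, mul_inv_rev, pm_inv]
  rw [h, mul_app, pm_apply, EpD.inv_none]
  change _ - 0 = _
  rw [sub_zero]

theorem sgi_some (y : X) (n j : ℕ) : (c.sg⁻¹).1 y (some n, j) =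
    y (some n, swF c.A c.L (some n) j) - if n ∈ c.Rd then y (none, 2 * c.L + n) else 0 := by
  have h : c.sg⁻¹ = pm c.A c.L c.hA * c.sD.ep⁻¹ := by
    rw [sg, mul_inv_rev, pm_inv]
  rw [h, mul_app, pm_apply, EpD.inv_some]
  rfl

theorem sg_mem : c.sg ∈ Kf c.E := by
  rintro x ⟨r, j⟩ hi
  have h1 : (r, j) ∉ c.A := fun h => (c.mem_A.1 h).2 hi
  have h2 : j < c.L := c.hL _ (c.hE hi)
  cases r with
  | none => rw [sg_none, pm_lt c.hA x h1 h2]
  | some n =>
    have h3 : n ∉ c.Rd := fun h => (c.mem_Rd.1 h).2 (mem_Rw.2 ⟨j, hi⟩)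
    rw [sg_some, pm_lt c.hA x h1 h2, if_neg h3, add_zero]

section small

variable {c} {ψ : Gr} {N RB : ℕ}

open Classical in
/-- The data of the correction. -/
noncomputable def eD (c : Ctx) (ψ : Gr) (N RB : ℕ)
    (hdep : ∀ n < RB, DepM N fun x => tr ψ n ((ψ⁻¹).1 x)) (hR : ∀ n ∈ c.Rd, n < RB) : EpD where
  m := N
  u j x := if 2 * c.L + N ≤ j ∧ j - (2 * c.L + N) ∈ c.Rd then
    tr ψ (j - (2 * c.L + N)) ((ψ⁻¹).1 x) else 0
  v n x := if n < RB ∧ n ∉ Rw c.E' then - tr ψ n ((ψ⁻¹).1 x) else 0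
  cu j := by
    have h1 := tr_cont ψ (j - (2 * c.L + N))
    have h2 := (ψ⁻¹).1.continuous
    by_cases h : 2 * c.L + N ≤ j ∧ j - (2 * c.L + N) ∈ c.Rd
    · simp only [if_pos h]
      exact h1.comp h2
    · simp only [if_neg h]
      exact continuous_const
  cv n := by
    have h1 := tr_cont ψ n
    have h2 := (ψ⁻¹).1.continuous
    by_cases h : n < RB ∧ n ∉ Rw c.E'
    · simp only [if_pos h]
      exact (h1.comp h2).neg
    · simp only [if_neg h]
      exact continuous_const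
  du j x x' hx := by
    by_cases h : 2 * c.L + N ≤ j ∧ j - (2 * c.L + N) ∈ c.Rd
    · simp only [if_pos h]
      exact hdep _ (hR _ h.2) x x' hx
    · simp only [if_neg h]
  dv n x x' hx := by
    by_cases h : n < RB ∧ n ∉ Rw c.E'
    · simp only [if_pos h]
      exact congrArg _ (hdep n h.1 x x' hx)
    · simp only [if_neg h]
  u0 j hj x := if_neg fun h => by omega
  u1 := ⟨2 * c.L + N + RB, fun j hj x => if_neg fun h => by
    have := hR _ h.2
    omega⟩

theorem small {b : PName Cnd} (hb : sy.Fix (Kf c.E') b) {U : Cnd} {z : X} {S : Finset Ix}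
    {δ : ℝ} (hδ : 0 < δ) (hS : c.E' ⊆ S) (hS1 : ∀ r j, (r, j) ∈ c.A → (r, j + c.L) ∈ S)
    (hS2 : ∀ n ∈ c.Rd, (none, 2 * c.L + n) ∈ S) (hU : Box z S (3 * δ) ⊆ U.1)
    (hH : ∀ τ ∈ Kf c.E', ∀ W : Cnd, W ≤ U → (∀ x ∈ W.1, (c.sg * τ * c.sg⁻¹).1 x ∈ U.1) →
      Iv b (c.sg * τ * c.sg⁻¹) W)
    (hψ : ψ ∈ Kf c.E) {q : Cnd} (h1 : ∀ x ∈ q.1, x ∈ Box z c.E' δ)
    (h2 : ∀ x ∈ q.1, ψ.1 x ∈ Box z c.E' δ) (h3 : ∀ x ∈ q.1, ∀ n ∈ c.Rd, ‖tr ψ n x‖ < δ) :
    ∃ q' ≤ q, Iv b ψ q' := by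
  classical
  obtain ⟨xq, hxq⟩ := q.2.2
  obtain ⟨Sq, ε, hε, hSq⟩ := exists_box q.2.1 hxq
  -- the bounds
  let RB : ℕ := (Rw S).sup id + c.Rd.sup id + 1
  have hRB1 : ∀ n ∈ c.Rd, n < RB := fun n hn => by
    have : n ≤ c.Rd.sup id := Finset.le_sup (f := id) hn
    omega
  have hRB2 : ∀ n j, (some n, j) ∈ S → n < RB := fun n j hj => by
    have : n ≤ (Rw S).sup id := Finset.le_sup (f := id) (mem_Rw.2 ⟨j, hj⟩)
    omega
  obtain ⟨N1, hN1⟩ := ψ.2.cof
  choose N2 hN2 using tr_large ψ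
  have hdep : ∀ n, Dep fun x => tr ψ n ((ψ⁻¹).1 x) := fun n => (tr_dep ψ n).comp ψ.2.dep'
  choose N3 hN3 using hdep
  let N : ℕ := S.sup Prod.snd + Sq.sup Prod.snd + N1 + (Finset.range RB).sup N2 +
    (Finset.range RB).sup N3 + 1
  have hNS : ∀ i ∈ S, i.2 < N := fun i hi => by
    have : i.2 ≤ S.sup Prod.snd := Finset.le_sup (f := Prod.snd) hi
    omega
  have hNq : ∀ i ∈ Sq, i.2 < N := fun i hi => by
    have : i.2 ≤ Sq.sup Prod.snd := Finset.le_sup (f := Prod.snd) hi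
    omega
  have hcof : ∀ j ≥ N, ∀ x, ψ.1 x (none, j) = x (none, j) := fun j hj x => hN1 j (by omega) x
  have hrow : ∀ n < RB, ∀ j ≥ N, ∀ x, ψ.1 x (some n, j) = x (some n, j) + tr ψ n x :=
    fun n hn j hj x => hN2 n j (by
      have : N2 n ≤ (Finset.range RB).sup N2 := Finset.le_sup (Finset.mem_range.2 hn)
      omega) x
  have hdep : ∀ n < RB, DepM N fun x => tr ψ n ((ψ⁻¹).1 x) := fun n hn x x' h =>
    hN3 n x x' fun j hj => h j (by
      have : N3 n ≤ (Finset.range RB).sup N3 := Finset.le_sup (Finset.mem_range.2 hn)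
      omega)
  -- the automorphisms
  let B : Finset Ix := S \ c.E'
  have hB : ∀ i ∈ B, i.2 < N := fun i hi => hNS i (Finset.mem_sdiff.1 hi).1
  have hE'N : ∀ i ∈ c.E', i.2 < N := fun i hi => hNS i (hS hi)
  let lm : Gr := pm B N hB
  have hlm : lm ∈ Kf c.E' := by
    rintro x ⟨r, j⟩ hi
    exact pm_lt hB x (fun h => (Finset.mem_sdiff.1 h).2 hi) (hE'N _ hi)
  have hlmi : lm⁻¹ = lm := pm_inv hB
  let D : EpD := c.eD ψ N RB hdep hRB1
  have hDu : ∀ j x, D.u j x = if 2 * c.L + N ≤ j ∧ j - (2 * c.L + N) ∈ c.Rd then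
      tr ψ (j - (2 * c.L + N)) ((ψ⁻¹).1 x) else 0 := fun _ _ => rfl
  have hDv : ∀ n x, D.v n x = if n < RB ∧ n ∉ Rw c.E' then - tr ψ n ((ψ⁻¹).1 x) else 0 :=
    fun _ _ => rfl
  have hep : D.ep ∈ Kf c.E' := by
    rintro x ⟨r, j⟩ hi
    cases r with
    | none =>
      rw [D.ep_none, hDu, if_neg, add_zero]
      intro h
      have := c.hL _ hi
      simp only at this
      omega
    | some n =>
      rw [D.ep_some, hDv, if_neg, add_zero]
      exact fun h => h.2 (mem_Rw.2 ⟨j, hi⟩)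
  -- the values
  have key0 : ∀ y j, (D.ep * ψ).1 y (none, j + N) = y (none, j + N) +
      D.u (j + N) (ψ.1 y) := by
    intro y j
    rw [mul_app, D.ep_none, hcof _ (by omega)]
  have key1 : ∀ y n j, n < RB → (D.ep * ψ).1 y (some n, j + N) = y (some n, j + N) +
      tr ψ n y + D.v n (ψ.1 y) := by
    intro y n j hn
    rw [mul_app, D.ep_some, hrow n hn _ (by omega)]
  have key2 : ∀ y n, n < RB → n ∈ Rw c.E' → D.v n (ψ.1 y) = 0 := by
    intro y n _ hn
    rw [hDv, if_neg fun h => h.2 hn]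
  have key3 : ∀ y n, n < RB → n ∉ Rw c.E' → D.v n (ψ.1 y) = - tr ψ n y := by
    intro y n hn hn'
    rw [hDv, if_pos ⟨hn, hn'⟩, inv_g]
  have key4 : ∀ y n, n ∈ c.Rd → D.u (2 * c.L + n + N) (ψ.1 y) = tr ψ n y := by
    intro y n hn
    have h4 : 2 * c.L + n + N - (2 * c.L + N) = n := by omega
    rw [hDu, h4, if_pos ⟨by omega, hn⟩, inv_g]
  have key5 : ∀ y j, (¬ ∃ n ∈ c.Rd, j = 2 * c.L + n) → D.u (j + N) (ψ.1 y) = 0 := by
    intro y j hj
    rw [hDu, if_neg]
    rintro ⟨h4, h5⟩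
    exact hj ⟨_, h5, by omega⟩
  have hsg := c.sg_mem
  have hlmE : lm ∈ Kf c.E := Kf_mono c.hE hlm
  have hepE : D.ep ∈ Kf c.E := Kf_mono c.hE hep
  let κ : Gr := c.sg⁻¹ * (lm * (D.ep * ψ) * lm) * c.sg
  have hκE : κ ∈ Kf c.E :=
    mul_mem (mul_mem (inv_mem hsg) (mul_mem (mul_mem hlmE (mul_mem hepE hψ)) hlmE)) hsg
  have hκ : κ ∈ Kf c.E' := by
    rintro x ⟨r, j⟩ hi
    by_cases hiE : (r, j) ∈ c.E
    · exact hκE x _ hiE
    have hiA : (r, j) ∈ c.A := c.mem_A.2 ⟨hi, hiE⟩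
    have hjL : j < c.L := c.hL _ hi
    have hiB : (r, j + c.L) ∈ B := by
      refine Finset.mem_sdiff.2 ⟨hS1 r j hiA, fun h => ?_⟩
      have := c.hL _ h
      simp only at this
      omega
    let y : X := lm.1 (c.sg.1 x)
    change (c.sg⁻¹).1 (lm.1 ((D.ep * ψ).1 y)) (r, j) = x (r, j)
    cases r with
    | none =>
      have h4 : (lm.1 ((D.ep * ψ).1 y)) (none, j + c.L) = (D.ep * ψ).1 y (none, j + c.L + N) :=
        pm_mem hB _ hiB
      have h5 : y (none, j + c.L + N) = c.sg.1 x (none, j + c.L) := pm_sh hB _ hiB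
      rw [sgi_none, swF_mem hiA, h4, key0, key5, add_zero, h5, sg_none, pm_sh c.hA x hiA]
      rintro ⟨n, -, hn⟩
      omega
    | some n =>
      have hnR : n ∈ Rw c.E' := mem_Rw.2 ⟨j, hi⟩
      have hnB : n < RB := hRB2 n j (hS hi)
      have h4 : (lm.1 ((D.ep * ψ).1 y)) (some n, j + c.L) =
          (D.ep * ψ).1 y (some n, j + c.L + N) := pm_mem hB _ hiB
      have h5 : y (some n, j + c.L + N) = c.sg.1 x (some n, j + c.L) := pm_sh hB _ hiB
      rw [sgi_some, swF_mem hiA, h4, key1 _ _ _ hnB, key2 _ _ hnB hnR, add_zero, h5, sg_some,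
        pm_sh c.hA x hiA]
      by_cases hn : n ∈ c.Rd
      · have hpB : ((none, 2 * c.L + n) : Ix) ∈ B := by
          refine Finset.mem_sdiff.2 ⟨hS2 n hn, fun h => ?_⟩
          have := c.hL _ h
          simp only at this
          omega
        have h6 : (lm.1 ((D.ep * ψ).1 y)) (none, 2 * c.L + n) =
            (D.ep * ψ).1 y (none, 2 * c.L + n + N) := pm_mem hB _ hpB
        have h7 : y (none, 2 * c.L + n + N) = c.sg.1 x (none, 2 * c.L + n) := pm_sh hB _ hpB
        rw [if_pos hn, if_pos hn, h6, key0, key4 _ _ hn, h7, sg_none, pm_par]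
        abel
      · have h6 : n ∈ Rw c.E := by
          by_contra h7
          exact hn (c.mem_Rd.2 ⟨hnR, h7⟩)
        rw [if_neg hn, if_neg hn, tr_zero hψ h6]
        abel
  have hκ' : c.sg * κ * c.sg⁻¹ = lm * (D.ep * ψ) * lm := by
    change c.sg * (c.sg⁻¹ * (lm * (D.ep * ψ) * lm) * c.sg) * c.sg⁻¹ = _
    group
  -- the condition
  let q' : Cnd := ⟨q.1 ∩ {x | ∀ i ∈ B, ‖x (i.1, i.2 + N) - z i‖ < δ}, by
    refine q.2.1.inter ?_
    have h4 : {x : X | ∀ i ∈ B, ‖x (i.1, i.2 + N) - z i‖ < δ} =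
        ⋂ i ∈ B, {x : X | ‖x (i.1, i.2 + N) - z i‖ < δ} := by
      ext x
      simp
    rw [h4]
    exact isOpen_biInter_finset fun i _ => isOpen_lt (by fun_prop) continuous_const, by
    refine ⟨fun i => if N ≤ i.2 ∧ (i.1, i.2 - N) ∈ B then z (i.1, i.2 - N) else xq i, ?_, ?_⟩
    · apply hSq
      intro i hi
      have h4 := hNq i hi
      beta_reduce
      rw [if_neg (by omega), sub_self, norm_zero]
      exact hε
    · rintro ⟨r, j⟩ hi
      simp only [Nat.add_sub_cancel]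
      rw [if_pos ⟨by omega, hi⟩, sub_self, norm_zero]
      exact hδ⟩
  have hq' : q' ≤ q := fun x hx => hx.1
  refine ⟨q', hq', Iv.cancel hb hep ?_⟩
  let V : Cnd := acH lm q'
  have hV : ∀ x, x ∈ V.1 ↔ lm.1 x ∈ q'.1 := by
    intro x
    change (lm⁻¹).1 x ∈ q'.1 ↔ _
    rw [hlmi]
  have hll : ∀ x, lm.1 (lm.1 x) = x := pm_pm hB
  have hVU : V ≤ U := by
    intro x hx
    rw [hV] at hx
    apply hU
    rintro ⟨r, j⟩ hi
    by_cases hiE : (r, j) ∈ c.E'
    · have h4 := h1 _ (hq' hx) _ hiE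
      rw [hlm x _ hiE] at h4
      linarith
    · have hiB : (r, j) ∈ B := Finset.mem_sdiff.2 ⟨hi, hiE⟩
      have h4 := hx.2 _ hiB
      have h5 : lm.1 x (r, j + N) = x (r, j) := pm_sh hB x hiB
      simp only [h5] at h4
      linarith
  have hVU' : ∀ x ∈ V.1, (c.sg * κ * c.sg⁻¹).1 x ∈ U.1 := by
    intro x hx
    rw [hV] at hx
    rw [hκ']
    apply hU
    set y : X := lm.1 x with hy
    change lm.1 ((D.ep * ψ).1 y) ∈ _
    rintro ⟨r, j⟩ hi
    by_cases hiE : (r, j) ∈ c.E'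
    · have h4 := h2 _ (hq' hx) _ hiE
      rw [hlm _ _ hiE, mul_app, hep _ _ hiE]
      linarith
    · have hiB : (r, j) ∈ B := Finset.mem_sdiff.2 ⟨hi, hiE⟩
      have h4 := hx.2 _ hiB
      simp only at h4
      have h5 : lm.1 ((D.ep * ψ).1 y) (r, j) = (D.ep * ψ).1 y (r, j + N) := pm_mem hB _ hiB
      rw [h5]
      cases r with
      | none =>
        rw [key0]
        by_cases hj : ∃ n ∈ c.Rd, j = 2 * c.L + n
        · obtain ⟨n, hn, rfl⟩ := hj
          rw [key4 _ _ hn]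
          have h6 := h3 _ (hq' hx) n hn
          have h7 : y (none, 2 * c.L + n + N) + tr ψ n y - z (none, 2 * c.L + n) =
              (y (none, 2 * c.L + n + N) - z (none, 2 * c.L + n)) + tr ψ n y := by abel
          rw [h7]
          have h8 := norm_add_le (y (none, 2 * c.L + n + N) - z (none, 2 * c.L + n)) (tr ψ n y)
          linarith
        · rw [key5 _ _ hj, add_zero]
          linarith
      | some n =>
        have hnB : n < RB := hRB2 n j hi
        rw [key1 _ _ _ hnB]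
        by_cases hnR : n ∈ Rw c.E'
        · rw [key2 _ _ hnB hnR, add_zero]
          by_cases hn : n ∈ c.Rd
          · have h6 := h3 _ (hq' hx) n hn
            have h7 : y (some n, j + N) + tr ψ n y - z (some n, j) =
                (y (some n, j + N) - z (some n, j)) + tr ψ n y := by abel
            rw [h7]
            have h8 := norm_add_le (y (some n, j + N) - z (some n, j)) (tr ψ n y)
            linarith
          · have h6 : n ∈ Rw c.E := by
              by_contra h7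
              exact hn (c.mem_Rd.2 ⟨hnR, h7⟩)
            rw [tr_zero hψ h6, add_zero]
            linarith
        · rw [key3 _ _ hnB hnR, add_neg_cancel_right]
          linarith
  have h5 := hH κ hκ V hVU hVU'
  rw [hκ'] at h5
  have h6 := (iv_of_fix hb hlm ⊤).comp h5 (W := q') (fun _ _ => trivial) fun x hx => by
    rw [hV, hll]
    exact hx
  have h7 := h6.comp (iv_of_fix hb hlm ⊤) (le_refl q') fun _ _ => trivial
  have h8 : lm * (lm * (D.ep * ψ) * lm * lm) = D.ep * ψ := by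
    have h9 : lm * lm = 1 := by
      nth_rewrite 1 [← hlmi]
      exact inv_mul_cancel lm
    rw [mul_assoc (lm * (D.ep * ψ)) lm lm, h9, mul_one, ← mul_assoc, h9, one_mul]
  rwa [h8] at h7

end small

end Ctx

end Pool.Agent.H99.CS
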